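import Pool.Agent.MP_e8e0b6_ag.P1.Sch

/-!
The family attached to a smooth proper morphism whose fibres are elliptic curves in Gromov's sense.
-/

set_option linter.unusedSectionVars false

open AlgebraicGeometry CategoryTheory Limits IsLocalRing TensorProduct Polynomial TrivSqZeroExt
open Pool.Agent.MP_79c67d_ag Pool.Agent.MP_79c67d_ag.FF

namespace Pool.Agent.MP_e8e0b6_ag

variable {k C D A F : Type} [Field k] [IsAlgClosed k] [CharZero k] [CommRing C] [CommRing D]
  [CommRing A] [Field F] [Algebra C F] {Y Z : Scheme.{0}} {η : Spec (.of F) ⟶ Y}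

/-- A chart with a relative coordinate. -/
structure Chart1 (q : Y ⟶ Spec (.of C)) (η : Spec (.of F) ⟶ Y) extends Chart q η where
  z : A
  D : Derivation C A A
  D_z : D z = 1
  rel : ∀ (T : Type) [CommRing T] (ρ : A →+* T) (δ : A →+ T), (∀ c, δ (algebraMap C A c) = 0) →
    (∀ a b, δ (a * b) = ρ a * δ b + ρ b * δ a) → ∀ b, δ b = ρ (D b) * δ z

theorem exists_chart1 (q : Y ⟶ Spec (.of C)) [SmoothOfRelativeDimension 1 q] (H : IsGen η)
    (hK : η ≫ q = sp (algebraMap C F)) (y : Y) : ∃ c : Chart1 q η, y ∈ Set.range c.j := by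
  obtain ⟨A, _, j, _, φ, ⟨p, hp⟩, -, h1, h2⟩ := exists_piece q y ⊤ trivial
    (RingHom.IsStandardSmoothOfRelativeDimension 1) fun A _ j _ φ h =>
      (HasRingHomProperty.Spec_iff (P := @SmoothOfRelativeDimension 1) (φ := CommRingCat.ofHom φ)).1
        (show SmoothOfRelativeDimension 1 (sp φ) from
          h ▸ inferInstanceAs (SmoothOfRelativeDimension (0 + 1) (j ≫ q)))
  have : Nontrivial A := PrimeSpectrum.nonempty_iff_nontrivial.1 ⟨p⟩
  let := φ.toAlgebra
  obtain ⟨g, hg, hg'⟩ := h2.exists_etale_mvPolynomial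
  obtain ⟨D, hD, hD'⟩ := exists_partials ⟨g, DFunLike.congr_fun hg⟩ hg'.formallyEtale
  exact ⟨⟨H.mk' hK A j h1, g (.X 0), D 0, hD 0 0, fun T _ ρ δ h0 h b =>
    (hD' T ρ δ h0 h b).trans (Fin.sum_univ_one _)⟩, p, hp⟩

theorem eps_closedPoint : epsPoint k (closedPoint k) = closedPoint (DualNumber k) :=
  sp_closedPoint (fstR k) fun _ hx => isUnit_iff_isUnit_fst.2 hx

theorem rat_of_elliptic [Algebra k F] {f : Y ⟶ Spec (.of k)} [SmoothOfRelativeDimension 1 f]
    (hf : Elliptic f) (H : IsGen η) (hK : η ≫ f = sp (algebraMap k F)) :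
    Nonempty (F ≃ₐ[k] RatFunc k) := by
  have := hf.1.smooth
  obtain ⟨c, -⟩ := exists_chart1 f H hK (η (closedPoint F))
  have := RingHom.smooth_algebraMap.1 (smooth_of_chart c.j c.base)
  obtain ⟨e, -⟩ := exists_point (k := k) (⊥ : Ideal c.A) bot_ne_top
  let v : c.A →ₐ[k] DualNumber k :=
    { toFun := fun b => inl (e b) + inr (e (c.D b))
      map_one' := by simp
      map_zero' := by simp
      map_add' := fun x y => by ext <;> simp
      map_mul' := fun x y => by ext <;> simp [mul_comm]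
      commutes' := fun a => by simp [algebraMap_eq_inl] }
  obtain ⟨U, hU, h⟩ := exists_line hf (sp v.toRingHom ≫ c.j) (by
    rw [Category.assoc, c.base, sp_comp]; exact congrArg sp v.comp_algebraMap)
  obtain ⟨γ, h1, -, h2⟩ := h k _ (RingHom.id k) (by
    rintro _ ⟨p, rfl⟩
    rwa [Subsingleton.elim p (closedPoint k), Scheme.Hom.comp_apply, eps_closedPoint])
    (by rw [sp_id, Category.id_comp])
  let r := algebraMap k[X] (RatFunc k)
  have hr : Function.Injective r := IsFractionRing.injective _ _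
  obtain ⟨ρ, hρ⟩ := exists_factor (sp r ≫ γ) c.j (by
    rw [Scheme.Hom.comp_apply]
    refine Specializes.mem_open (Specializes.map ((PrimeSpectrum.le_iff_specializes _
      (sp (eval₂RingHom ((inlR k).comp (RingHom.id k)) DualNumber.eps) (closedPoint _))).1 ?_)
      γ.continuous) c.j.isOpenEmbedding.isOpen_range ?_
    · intro x hx
      obtain rfl : x = 0 := hr (by simpa using by_contra fun h => hx (Ne.isUnit h))
      exact zero_mem _
    · rw [← Scheme.Hom.comp_apply, h2]
      exact ⟨_, rfl⟩)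
  have h3 : ∀ a, ρ (algebraMap k _ a) = algebraMap k _ a := DFunLike.congr_fun (sp_inj
    (φ := ρ.comp (algebraMap k _)) (by
      rw [← sp_comp, ← c.base, reassoc_of% hρ, h1, Category.assoc, Category.assoc, c.base, epsPoint]
      simp only [sp_comp]
      congr 1
      ext a
      simp [r]))
  have h4 : ∀ a, ρ c.z ≠ algebraMap k _ a := fun a ha => by
    have := congrArg snd ((ext_of_comp hr c.j hρ.symm h2 c.z).unique hr
      (by rw [ha]; exact Ext.of (Polynomial.C a)))
    simp [v, c.D_z, algebraMap_eq_inl] at this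
  have := isFF_of_unr c.inj c.frac c.comm c.z (transcendental_iff_ne.2 fun a ha =>
    h4 a (by rw [← h3, c.inj (ha.trans (c.comm a).symm)])) fun δ h0 h hz a => by
      rw [c.rel F c.κ δ h0 h, hz, mul_zero]
  have h5 : Function.Injective ρ := (injective_iff_map_eq_zero ρ).2 fun a ha => by_contra fun h0 => by
    have := RingHom.ker_isPrime ρ
    have hp := pt_locS c.inj (RingHom.ker ρ)
    obtain ⟨P, hP⟩ := exists_place_dom (K := k) hp.loc (fun b => c.comm b ▸ hp.mem _) (hp.mem a)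
      ((map_ne_zero_iff _ c.inj).2 h0) fun hu => (un_locS c.inj).1 hu ha
    have h6 := P.sub_val (mem_plR.1 (hP.1 (hp.mem c.z)))
    rw [← c.comm, ← map_sub] at h6
    refine (ge_one_iff_not_un (hP.1 (hp.mem _))).1 h6 (((un_locS c.inj).2 fun h7 => ?_).mono hP.1)
    exact h4 _ (by rwa [RingHom.mem_ker, map_sub, h3, sub_eq_zero] at h7)
  let := c.κ.toAlgebra
  have := (faithfulSMul_iff_algebraMap_injective c.A F).2 c.inj
  have : IsFractionRing c.A F := .of_field _ _ fun ω => by
    obtain ⟨a, s, hs, e⟩ := c.frac ω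
    exact ⟨a, s, eq_div_of_mul_eq ((map_ne_zero_iff _ c.inj).2 hs) e⟩
  have h6 : ∀ a, IsFractionRing.lift h5 (c.κ a) = ρ a := IsFractionRing.lift_algebraMap h5
  let ψ : F →ₐ[k] RatFunc k := ⟨IsFractionRing.lift h5, fun a => c.comm a ▸ (h6 _).trans (h3 a)⟩
  exact ⟨ψ.equivFieldRange.trans (RatFunc.Luroth.algEquiv fun h => by
    obtain ⟨a, ha⟩ := IntermediateField.mem_bot.1 (h.le ⟨c.κ c.z, rfl⟩)
    exact h4 a (ha.trans (h6 _)).symm).symm⟩

variable (k) in
/-- The fibres over rational points are elliptic. -/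
def Fibres [Algebra k C] (q : Y ⟶ Spec (.of C)) : Prop :=
  ∀ τ : C →ₐ[k] k, ∃ (Z : Scheme.{0}) (m : Z ⟶ Y) (q' : Z ⟶ Spec (.of k)),
    IsPullback m q' q (sp (τ : C →+* k)) ∧ Elliptic q'

variable [Algebra k C] {q : Y ⟶ Spec (.of C)}

theorem Fibres.bc [Algebra k D] [Algebra C D] [IsScalarTower k C D] (h : Fibres k q) {m : Z ⟶ Y}
    {q' : Z ⟶ Spec (.of D)} (H : IsPullback m q' q (sp (algebraMap C D))) : Fibres k q' := fun τ => by
  obtain ⟨W, n, w, h1, h2⟩ := h (τ.comp (IsScalarTower.toAlgHom k C D))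
  have e : n ≫ q = (w ≫ sp (τ : D →+* k)) ≫ sp (algebraMap C D) := by
    rw [h1.w, Category.assoc, sp_comp]; rfl
  refine ⟨W, H.lift n _ e, w, .of_right ?_ (H.lift_snd _ _ _) H, h2⟩
  rw [H.lift_fst, sp_comp]
  exact h1

variable [IsDomain C] [Algebra.FiniteType k C]

theorem Fibres.isIntegral [Smooth q] (h : Fibres k q) : IsIntegral Y :=
  isIntegral_of_fibres q fun τ => let ⟨Z, m, q', h1, h2⟩ := h τ; ⟨Z, m, q', h1, h2.1.integral⟩

theorem Fibres.noZeroDivisors [Smooth q] (h : Fibres k q) (c : Chart q η) (D : Type) [CommRing D]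
    [IsDomain D] [Algebra C D] [Algebra.FiniteType C D] : NoZeroDivisors (D ⊗[C] c.A) := by
  let := ((algebraMap C D).comp (algebraMap k C)).toAlgebra
  have : IsScalarTower k C D := .of_algebraMap_eq' rfl
  have : Algebra.FiniteType k D := .trans (S := C) inferInstance inferInstance
  have H := IsPullback.of_hasPullback q (sp (algebraMap C D))
  have := (h.bc H).isIntegral
  obtain ⟨j, _, -⟩ := exists_bc_chart H c.j c.base
  rcases subsingleton_or_nontrivial (D ⊗[C] c.A) with h | h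
  · infer_instance
  · have := isDomain_chart j
    infer_instance

theorem noZeroDivisors_of_fg [Algebra C D] [Algebra C A] [Module.Flat C A]
    (h : ∀ B : Subalgebra C D, B.FG → NoZeroDivisors (B ⊗[C] A)) : NoZeroDivisors (D ⊗[C] A) := by
  let μ := fun B : Subalgebra C D => Algebra.TensorProduct.map B.val (AlgHom.id C A)
  have key : ∀ x, ∃ B : Subalgebra C D, B.FG ∧ ∀ B', B ≤ B' → ∃ y, μ B' y = x := fun x => by
    induction x using TensorProduct.induction_on with
    | zero => exact ⟨⊥, Subalgebra.fg_bot, fun _ _ => ⟨0, map_zero _⟩⟩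
    | tmul d a => exact ⟨_, Subalgebra.fg_adjoin_finset {d}, fun B h =>
        ⟨⟨d, h (Algebra.subset_adjoin (by simp))⟩ ⊗ₜ a, rfl⟩⟩
    | add x y hx hy =>
      obtain ⟨B, h1, h2⟩ := hx
      obtain ⟨B', h3, h4⟩ := hy
      refine ⟨_, h1.sup h3, fun B h => ?_⟩
      obtain ⟨x, rfl⟩ := h2 B (le_sup_left.trans h)
      obtain ⟨y, rfl⟩ := h4 B (le_sup_right.trans h)
      exact ⟨x + y, map_add _ _ _⟩
  refine ⟨fun {x y} e => ?_⟩
  obtain ⟨B, h1, h2⟩ := key x
  obtain ⟨B', h3, h4⟩ := key y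
  obtain ⟨x, rfl⟩ := h2 _ (le_sup_left (b := B'))
  obtain ⟨y, rfl⟩ := h4 _ (le_sup_right (a := B))
  have := h _ (h1.sup h3)
  have hμ : Function.Injective (μ (B ⊔ B')) :=
    Module.Flat.rTensor_preserves_injective_linearMap (B ⊔ B').val.toLinearMap Subtype.val_injective
  rwa [← map_mul, map_eq_zero_iff _ hμ, mul_eq_zero, ← map_eq_zero_iff _ hμ,
    ← map_eq_zero_iff _ hμ (x := y)] at e

theorem exists_lift_val {q : Y ⟶ Spec (.of C)} [IsProper q] (hK : η ≫ q = sp (algebraMap C F))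
    (W : ValuationSubring F) (hW : ∀ c, algebraMap C F c ∈ W) :
    ∃ l : Spec (.of W.toSubring) ⟶ Y, sp W.toSubring.subtype ≫ l = η := by
  have h : ValuativeCriterion.Existence q :=
    (UniversallyClosed.eq_valuativeCriterion.le _ _ q (inferInstance : UniversallyClosed q)).1
  have e : η ≫ q = sp (algebraMap W F) ≫ sp ((algebraMap C F).codRestrict W hW) := by
    rw [hK, sp_comp]; rfl
  obtain ⟨⟨l, h1, -⟩⟩ := (h { R := W, K := F, i₁ := η, i₂ := _, commSq := ⟨e⟩ }).exists_lift
  exact ⟨l, h1⟩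

theorem Fibres.isDomain [Smooth q] (h : Fibres k q) (c : Chart q η) (D : Type) [CommRing D]
    [IsDomain D] [Algebra C D] (hD : Function.Injective (algebraMap C D)) :
    IsDomain (D ⊗[C] c.A) := by
  have := RingHom.smooth_algebraMap.1 (smooth_of_chart c.j c.base)
  have := (Algebra.TensorProduct.includeRight_injective (B := c.A) hD).nontrivial
  have := noZeroDivisors_of_fg (D := D) fun B hB =>
    have := (Subalgebra.fg_iff_finiteType _).1 hB
    h.noZeroDivisors c B
  exact NoZeroDivisors.to_isDomain _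

variable [IsProper q] [Smooth q] [Y.IsSeparated] {ι : Type} (c : ι → Chart1 q η)
  (hc : ∀ y, ∃ i, y ∈ Set.range (c i).j) (h : Fibres k q) (hK : η ≫ q = sp (algebraMap C F))

theorem Chart1.exists_d (c : Chart1 q η) : ∃ d : Derivation C F F, d (c.κ c.z) = 1 := by
  obtain ⟨d, hd⟩ := exists_der c.inj c.frac c.comm
    (c.κ.toAddMonoidHom.comp c.D.toLinearMap.toAddMonoidHom) (by simp) fun a b => by simp
  exact ⟨d, by simp [hd, c.D_z]⟩

/-- The family given by an atlas. -/
noncomputable def mkFam (d : Derivation C F F) (hd : ∃ ω, d ω ≠ 0) : Fam C F ι :=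
  have hs := fun i => RingHom.smooth_algebraMap.1 (smooth_of_chart (c i).j (c i).base)
  have hr : ∀ i a, d ((c i).κ a) = (c i).κ ((c i).D a) * d ((c i).κ (c i).z) := fun i =>
    (c i).rel F (c i).κ (d.toLinearMap.toAddMonoidHom.comp (c i).κ.toAddMonoidHom)
      (fun a => by simp [(c i).comm]) fun a b => by simp
  { A i := (c i).A
    κ i := (c i).κ
    comm i := (c i).comm
    inj i := (c i).inj
    frac i := (c i).frac
    ft i := inferInstance
    flat i := inferInstance
    z i := (c i).z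
    d := d
    dz i h0 := by
      obtain ⟨ω, hω⟩ := hd
      obtain ⟨a, s, hs, e⟩ := (c i).frac ω
      have := congrArg d e
      rw [d.leibniz, hr i a, hr i s, h0] at this
      simp [hω, (map_ne_zero_iff _ (c i).inj).2 hs] at this
    der i a := ⟨_, hr i a⟩
    unr i T _ ρ δ h0 h hz a := by rw [(c i).rel T ρ δ h0 h, hz, mul_zero]
    sep i j W hW hi hj a :=
      let ⟨s, b, h1, h2⟩ := (c j).sep (c i).toChart hW hj hi a
      ⟨b, s, h1, (mul_comm _ _).trans h2⟩
    prop W hW := by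
      obtain ⟨l, h1⟩ := exists_lift_val hK W hW
      have := loc_iff.1 (loc_valuation W)
      obtain ⟨i, hi⟩ := hc (l (closedPoint W.toSubring))
      exact ⟨i, (c i).subset_of_point (RingHom.id F) l (by rw [sp_id, Category.id_comp, h1]) hi⟩
    gi D _ _ _ _ hD := by
      obtain ⟨i, -⟩ := hc (η (closedPoint F))
      have := h.isDomain (c i).toChart D hD
      exact isDomain_tensor (r := (c i).κₐ) (c i).inj (c i).frac }

theorem mkFam_fib [SmoothOfRelativeDimension 1 q] (d : Derivation C F F) (hd : ∃ ω, d ω ≠ 0)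
    (τ : C →ₐ[k] k) : Nonempty (Fib (mkFam c hc h hK d hd) (τ : C →+* k)) := by
  obtain ⟨Z, m, q', H, hE⟩ := h τ
  have := hE.1.integral
  have : SmoothOfRelativeDimension 1 q' :=
    (smoothOfRelativeDimension_isStableUnderBaseChange 1).of_isPullback H ‹_›
  obtain ⟨φ, hφ⟩ := sp_surj (gen Z ≫ q')
  let := φ.toAlgebra
  obtain ⟨ε⟩ := rat_of_elliptic hE isGen_gen hφ.symm
  let := (τ : C →+* k).toAlgebra
  choose j hj h1 h2 using fun i => exists_bc_chart H (c i).j (c i).base
  let ν := fun i => (Algebra.TensorProduct.includeRight (R := C) (A := k) (B := (c i).A)).toRingHom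
  let g := sp (ε : _ →+* RatFunc k) ≫ gen Z ≫ m
  have key : ∀ i, Nontrivial (k ⊗[C] (c i).A) → ∃ θ : k ⊗[C] (c i).A →+* RatFunc k,
      sp (θ.comp (ν i)) ≫ (c i).j = g ∧ Function.Injective θ ∧
        ∀ e, ∃ a s, s ≠ 0 ∧ e * θ s = θ a := fun i _ => by
    obtain ⟨κ, h3, h4, h5⟩ := isGen_gen.chart _ (j i)
    refine ⟨(ε : _ →+* RatFunc k).comp κ, ?_, ε.injective.comp h4, fun e => ?_⟩
    · rw [← sp_comp_assoc, ← h2, ← sp_comp_assoc, reassoc_of% h3]
    · obtain ⟨a, s, hs, h6⟩ := h5 (ε.symm e)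
      exact ⟨a, s, hs, by simpa using congrArg ε h6⟩
  have hb : ∀ i (θ : (c i).A →+* RatFunc k), sp θ ≫ (c i).j = g →
      ∀ x, θ (algebraMap C _ x) = algebraMap k _ (τ x) := fun i θ hθ x => by
    have := hθ =≫ q
    rw [Category.assoc, (c i).base, Category.assoc, Category.assoc, H.w, ← reassoc_of% hφ] at this
    simp only [sp_comp] at this
    exact (DFunLike.congr_fun (sp_inj this) x).trans (ε.commutes _)
  have hν : ∀ i a, ν i a = 0 → a ∈ (RingHom.ker (τ : C →+* k)).map (algebraMap C (c i).A) :=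
    fun i a ha => by
      obtain ⟨θ, hθ⟩ := exists_tmul (C := C) ((Ideal.Quotient.mk ((RingHom.ker (τ : C →+* k)).map
        (algebraMap C (c i).A))).comp ((algebraMap C _).comp (algebraMap k C))) (Ideal.Quotient.mk _)
        fun x => Ideal.Quotient.eq.2 (map_sub (algebraMap C (c i).A) _ _ ▸ Ideal.mem_map_of_mem _ (by
          simp [RingHom.algebraMap_toAlgebra]))
      exact Ideal.Quotient.eq_zero_iff_mem.1 (by simpa using (hθ 1 a).symm.trans (congrArg θ ha))
  have hs : ∀ i y, ∃ a, ν i a = y := fun i y => by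
    obtain ⟨a, ha⟩ := exists_sub_tmul (C := C) (τ := RingHom.id k)
      (fun x => ⟨algebraMap k C x, (τ.commutes x).symm⟩) y
    rw [(RingHom.injective_iff_ker_eq_bot _).1 (RingHom.id k).injective, Ideal.map_bot] at ha
    exact ⟨a, (sub_eq_zero.1 ha).symm⟩
  obtain ⟨o, ho⟩ := hc (g (closedPoint _))
  obtain ⟨θ₀, h3⟩ := exists_factor g (c o).j ho
  obtain ⟨θ', -⟩ := exists_tmul (C := C) (algebraMap k (RatFunc k)) θ₀ (hb o θ₀ h3)
  obtain ⟨θ, h4, h5, h6⟩ := key o θ'.domain_nontrivial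
  refine ⟨⟨o, θ.comp (ν o), hb o _ h4, fun e => ?_, fun i => ?_⟩⟩
  · obtain ⟨a, s, h7, h8⟩ := h6 e
    obtain ⟨a, rfl⟩ := hs o a
    obtain ⟨s, rfl⟩ := hs o s
    refine ⟨(c o).κ a / (c o).κ s, a, s, ((map_ne_zero_iff _ h5).2 h7).isUnit,
      div_mul_cancel₀ _ ((map_ne_zero_iff _ (c o).inj).2 fun h => h7 ?_), h8⟩
    rw [h, map_zero]
  · rcases subsingleton_or_nontrivial (k ⊗[C] (c i).A) with h7 | h7
    · exact Or.inl ((Ideal.eq_top_iff_one _).2 (hν i 1 (Subsingleton.elim _ _)))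
    · obtain ⟨θ₁, h8, h9, -⟩ := key i h7
      have := ext_of_comp (c o).inj (c i).j ((c o).gen.trans (c i).gen.symm) (h4.trans h8.symm)
      exact Or.inr ⟨fun a => ⟨_, this a⟩, fun a ha =>
        hν i a (h9 (((this a).unique (c o).inj ha).trans (map_zero _).symm))⟩

end Pool.Agent.MP_e8e0b6_ag
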