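import Pool.Agent.MP_e8e0b6_ag.P1.Loc
import Pool.Agent.MP_e8e0b6_ag.S.Datum

/-!
Smooth proper families of curves described inside their function field, and base change.
-/

set_option linter.unusedSectionVars false

open TensorProduct IsLocalRing

namespace Pool.Agent.MP_e8e0b6_ag

/-- A smooth proper family of curves over `C` with function field `F`. -/
structure Fam (C F ι : Type) [CommRing C] [Field F] [Algebra C F] where
  A : ι → Type
  [ring : ∀ i, CommRing (A i)]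
  [alg : ∀ i, Algebra C (A i)]
  κ : ∀ i, A i →+* F
  comm : ∀ i c, κ i (algebraMap C (A i) c) = algebraMap C F c
  inj : ∀ i, Function.Injective (κ i)
  frac : ∀ i ω, ∃ a s, s ≠ 0 ∧ ω * κ i s = κ i a
  ft : ∀ i, Algebra.FiniteType C (A i)
  flat : ∀ i, Module.Flat C (A i)
  z : ∀ i, A i
  d : Derivation C F F
  dz : ∀ i, d (κ i (z i)) ≠ 0
  der : ∀ i a, ∃ b, d (κ i a) = κ i b * d (κ i (z i))
  unr : ∀ i (T : Type) [CommRing T] (ρ : A i →+* T) (δ : A i →+ T),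
    (∀ c, δ (algebraMap C _ c) = 0) → (∀ a b, δ (a * b) = ρ a * δ b + ρ b * δ a) →
    δ (z i) = 0 → ∀ a, δ a = 0
  sep : ∀ i j W, Loc W → (∀ a, κ i a ∈ W) → (∀ a, κ j a ∈ W) → ∀ a, κ j a ∈ cen (κ i) W
  prop : ∀ W : ValuationSubring F, (∀ c, algebraMap C F c ∈ W) → ∃ i, ∀ a, κ i a ∈ W
  gi : ∀ (D : Type) [CommRing D] [IsDomain D] [Algebra C D] [Module.Flat C D],
    Function.Injective (algebraMap C D) → IsDomain (D ⊗[C] F)

attribute [instance] Fam.ring Fam.alg Fam.ft Fam.flat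

variable {C F ι : Type} [CommRing C] [Field F] [Algebra C F]

/-- The fibre over `τ` is an integral rational curve. -/
structure Fib (𝒜 : Fam C F ι) {k : Type} [Field k] (τ : C →+* k) where
  o : ι
  θ : 𝒜.A o →+* RatFunc k
  base : ∀ c, θ (algebraMap C _ c) = algebraMap k _ (τ c)
  surj : ∀ e, ∃ ω, Ext (𝒜.κ o) θ ω e
  cases : ∀ j, (RingHom.ker τ).map (algebraMap C (𝒜.A j)) = ⊤ ∨
    ((∀ a, ∃ e, Ext (𝒜.κ o) θ (𝒜.κ j a) e) ∧
      ∀ a, Ext (𝒜.κ o) θ (𝒜.κ j a) 0 → a ∈ (RingHom.ker τ).map (algebraMap C (𝒜.A j)))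

theorem exists_der {R : Type} [CommRing R] [Algebra C R] {r : R →+* F} (hr : Function.Injective r)
    (hf : ∀ ω, ∃ a s, s ≠ 0 ∧ ω * r s = r a) (hc : ∀ c, r (algebraMap C R c) = algebraMap C F c)
    (δ : R →+ F) (h0 : ∀ c, δ (algebraMap C R c) = 0)
    (h : ∀ a b, δ (a * b) = r a * δ b + r b * δ a) : ∃ d : Derivation C F F, ∀ a, d (r a) = δ a := by
  let := r.toAlgebra
  have := hr.isDomain r
  have := (faithfulSMul_iff_algebraMap_injective R F).2 hr
  have : IsFractionRing R F := .of_field _ _ fun ω => by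
    obtain ⟨a, s, hs, e⟩ := hf ω
    exact ⟨a, s, eq_div_of_mul_eq ((map_ne_zero_iff r hr).2 hs) e⟩
  let J : R →+* DualNumber F :=
    { toFun a := (r a, δ a)
      map_one' := by ext <;> simp [← h0 1]
      map_zero' := by ext <;> simp
      map_add' a b := by ext <;> simp
      map_mul' a b := by ext <;> simp [h, mul_comm] }
  obtain ⟨L, h1⟩ : ∃ L : F →+* DualNumber F, ∀ a, L (r a) = J a :=
    ⟨IsLocalization.lift (M := nonZeroDivisors R) (S := F) (g := J) fun y =>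
      TrivSqZeroExt.isUnit_iff_isUnit_fst.2
        ((map_ne_zero_iff r hr).2 (nonZeroDivisors.ne_zero y.2)).isUnit, IsLocalization.lift_eq _⟩
  have h2 : ∀ x, (L x).fst = x := DFunLike.congr_fun (IsLocalization.ringHom_ext
    (nonZeroDivisors R) (j := (fstR F).comp L) (k := RingHom.id F)
    (RingHom.ext fun a => congrArg TrivSqZeroExt.fst (h1 a)))
  have h3 : ∀ x y, (L (x * y)).snd = x * (L y).snd + y * (L x).snd := fun x y => by
    rw [map_mul, DualNumber.snd_mul, h2, h2, mul_comm y]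
  refine ⟨.mk' ⟨⟨fun x => (L x).snd, fun x y => by simp⟩, fun c x => ?_⟩ h3,
    fun a => congrArg TrivSqZeroExt.snd (h1 a)⟩
  have : (L (r (algebraMap C R c))).snd = 0 := by rw [h1]; exact h0 c
  simp only [Algebra.smul_def, h3, ← hc, this, RingHom.id_apply, mul_zero, add_zero]

namespace Fam

variable (𝒜 : Fam C F ι) {i j : ι} {O W : Subring F} {ω : F}

/-- The chart as an algebra map. -/
def κₐ (i : ι) : 𝒜.A i →ₐ[C] F := { 𝒜.κ i with commutes' := 𝒜.comm i }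

@[simp] theorem κₐ_apply (a : 𝒜.A i) : 𝒜.κₐ i a = 𝒜.κ i a := rfl

/-- The differential of the coordinate. -/
abbrev t (i : ι) : F := 𝒜.d (𝒜.κ i (𝒜.z i))

theorem cancel {a b : 𝒜.A i} (h : 𝒜.κ i a * 𝒜.t i = 𝒜.κ i b * 𝒜.t i) : a = b :=
  𝒜.inj i (mul_right_cancel₀ (𝒜.dz i) h)

theorem exists_D (i : ι) : ∃ D : Derivation C (𝒜.A i) (𝒜.A i),
    ∀ a, 𝒜.d (𝒜.κ i a) = 𝒜.κ i (D a) * 𝒜.t i := by
  choose f h using 𝒜.der i
  refine ⟨.mk' ⟨⟨f, fun a b => 𝒜.cancel ?_⟩, fun c a => 𝒜.cancel ?_⟩ fun a b => 𝒜.cancel ?_, h⟩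
  · rw [map_add, add_mul, ← h, ← h, ← h, map_add, map_add]
  · simp only [RingHom.id_apply, Algebra.smul_def]
    rw [map_mul, mul_assoc, ← h, ← h, map_mul, 𝒜.comm]; simp
  · simp only [smul_eq_mul, LinearMap.coe_mk, AddHom.coe_mk]
    rw [map_add, map_mul, map_mul, add_mul, mul_assoc, mul_assoc, ← h, ← h, ← h]; simp

/-- Differentiation with respect to the coordinate. -/
noncomputable def D (i : ι) : Derivation C (𝒜.A i) (𝒜.A i) := (𝒜.exists_D i).choose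

theorem d_κ (a : 𝒜.A i) : 𝒜.d (𝒜.κ i a) = 𝒜.κ i (𝒜.D i a) * 𝒜.t i := (𝒜.exists_D i).choose_spec a

theorem D_z (i : ι) : 𝒜.D i (𝒜.z i) = 1 := 𝒜.cancel (by rw [← d_κ]; simp)

theorem rel {T : Type} [CommRing T] (ρ : 𝒜.A i →+* T) (δ : 𝒜.A i →+ T)
    (h0 : ∀ c, δ (algebraMap C _ c) = 0) (h : ∀ a b, δ (a * b) = ρ a * δ b + ρ b * δ a)
    (a : 𝒜.A i) : δ a = ρ (𝒜.D i a) * δ (𝒜.z i) :=
  sub_eq_zero.1 (𝒜.unr i T ρ (δ - (AddMonoidHom.mulRight (δ (𝒜.z i))).comp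
    (ρ.toAddMonoidHom.comp (𝒜.D i).toLinearMap.toAddMonoidHom)) (fun c => by simp [h0])
    (fun a b => by simp [h]; ring) (by simp [D_z]) a)

theorem D_mem {I : Ideal C} {a : 𝒜.A i} (h : a ∈ I.map (algebraMap C _)) :
    𝒜.D i a ∈ I.map (algebraMap C (𝒜.A i)) := by
  refine And.right (a := a ∈ I.map (algebraMap C _)) ?_
  induction h using Submodule.span_induction with
  | mem _ h => obtain ⟨b, hb, rfl⟩ := h; exact ⟨Ideal.mem_map_of_mem _ hb, by simp⟩
  | zero => simp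
  | add _ _ _ _ h h' => exact ⟨add_mem h.1 h'.1, by rw [map_add]; exact add_mem h.2 h'.2⟩
  | smul c x _ h =>
    refine ⟨Ideal.mul_mem_left _ c h.1, ?_⟩
    rw [smul_eq_mul, Derivation.leibniz]
    exact add_mem (Ideal.mul_mem_left _ c h.2) (Ideal.mul_mem_right _ _ h.1)

theorem base_mem (h : ∀ a, 𝒜.κ i a ∈ W) (c : C) : algebraMap C F c ∈ W := 𝒜.comm i c ▸ h _

theorem cen_eq (hW : Loc W) (hi : ∀ a, 𝒜.κ i a ∈ W) (hj : ∀ a, 𝒜.κ j a ∈ W) :
    cen (𝒜.κ i) W = cen (𝒜.κ j) W :=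
  le_antisymm (cen_le (𝒜.sep j i W hW hj hi) fun x => (dom_cen hj).2 _ (𝒜.sep j i W hW hj hi x))
    (cen_le (𝒜.sep i j W hW hi hj) fun x => (dom_cen hi).2 _ (𝒜.sep i j W hW hi hj x))

theorem pt_change (h : Pt (𝒜.κ i) O) (hj : ∀ a, 𝒜.κ j a ∈ O) : Pt (𝒜.κ j) O :=
  ⟨h.loc, hj, h.le.trans (𝒜.cen_eq h.loc h.mem hj).le⟩

theorem pt_eq {O' : Subring F} (h : Pt (𝒜.κ i) O) (h' : Pt (𝒜.κ j) O') (hW : Loc W) (hd : Dom O W)
    (hd' : Dom O' W) : O = O' := by
  rw [← h.eq_cen hd, ← h'.eq_cen hd']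
  exact 𝒜.cen_eq hW (fun a => hd.1 (h.mem a)) fun a => hd'.1 (h'.mem a)

theorem d_frac {a s : 𝒜.A i} (e : ω * 𝒜.κ i s = 𝒜.κ i a) :
    𝒜.d ω / 𝒜.t i * 𝒜.κ i s = 𝒜.κ i (𝒜.D i a) - ω * 𝒜.κ i (𝒜.D i s) := by
  have := congrArg 𝒜.d e
  rw [Derivation.leibniz, d_κ, d_κ, smul_eq_mul, smul_eq_mul] at this
  have := 𝒜.dz i
  field_simp
  grind

theorem d_mem (h : Pt (𝒜.κ i) O) (hω : ω ∈ O) : 𝒜.d ω / 𝒜.t i ∈ O := by
  obtain ⟨a, s, hs, e⟩ := h.le hω
  refine hs.mem_of_mul ?_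
  rw [mul_comm, 𝒜.d_frac e]
  exact O.sub_mem (h.mem _) (O.mul_mem hω (h.mem _))

theorem un_t (h : Pt (𝒜.κ i) O) (hj : ∀ a, 𝒜.κ j a ∈ O) : Un O (𝒜.t j / 𝒜.t i) :=
  un_of_div (𝒜.dz j) (𝒜.dz i) (𝒜.d_mem h (hj _)) (𝒜.d_mem (𝒜.pt_change h hj) (h.mem _))

/-- The kernel of a section is locally generated by the coordinate. -/
theorem ker_section [IsNoetherianRing C] (s : 𝒜.A i →+* C) (hs : ∀ c, s (algebraMap C _ c) = c) :
    ∃ σ, s σ = 1 ∧ ∀ a, s a = 0 → ∃ b, σ * a = (𝒜.z i - algebraMap C _ (s (𝒜.z i))) * b := by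
  have := Algebra.FiniteType.isNoetherianRing C (𝒜.A i)
  let I := RingHom.ker s
  let J := Ideal.span {𝒜.z i - algebraMap C _ (s (𝒜.z i))} ⊔ I • I
  have h1 : ∀ a, a - algebraMap C _ (s a) ∈ I := fun a => by simp [I, hs]
  have h2 := 𝒜.unr i _ ((Ideal.Quotient.mk J).comp ((algebraMap C _).comp s))
    ((Ideal.Quotient.mk J).toAddMonoidHom.comp
      (AddMonoidHom.id _ - ((algebraMap C _).comp s).toAddMonoidHom)) (fun c => by simp [hs])
    (fun a b => by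
      have := Ideal.Quotient.eq_zero_iff_mem.2
        (Ideal.mem_sup_right (Ideal.mul_mem_mul (h1 a) (h1 b)) : _ ∈ J)
      simp only [map_mul, map_sub] at this
      simp
      linear_combination this)
    (Ideal.Quotient.eq_zero_iff_mem.2 (Ideal.mem_sup_left (Ideal.mem_span_singleton_self _)))
  obtain ⟨σ, h3, h4⟩ := Submodule.exists_sub_one_mem_and_smul_le_of_fg_of_le_sup
    (IsNoetherian.noetherian I) le_rfl (show I ≤ J from fun a ha =>
      Ideal.Quotient.eq_zero_iff_mem.1 (by simpa [show s a = 0 from ha] using h2 a))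
  refine ⟨σ, by simpa [I, sub_eq_zero] using h3, fun a ha => ?_⟩
  exact Ideal.mem_span_singleton.1 (h4 (Submodule.smul_mem_pointwise_smul a σ I ha))

end Fam

variable {D F' : Type} [CommRing D] [Algebra C D] [Field F'] [Algebra D F'] [Algebra C F']
  [IsScalarTower C D F'] {N T : Type} [CommRing N] [Algebra C N] [CommRing T]

theorem exists_tmul (τ : D →+* T) (θ : N →+* T)
    (h : ∀ c, θ (algebraMap C N c) = τ (algebraMap C D c)) :
    ∃ θ' : D ⊗[C] N →+* T, ∀ d n, θ' (d ⊗ₜ n) = τ d * θ n := by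
  let := (τ.comp (algebraMap C D)).toAlgebra
  exact ⟨Algebra.TensorProduct.productMap (⟨τ, fun _ => rfl⟩ : D →ₐ[C] T) ⟨θ, h⟩, fun _ _ => rfl⟩

theorem exists_sub_tmul {k : Type} [CommRing k] {τ : D →+* k}
    (h : ∀ d, ∃ c, τ d = τ (algebraMap C D c)) (y : D ⊗[C] N) :
    ∃ n, y - 1 ⊗ₜ n ∈ (RingHom.ker τ).map (algebraMap D (D ⊗[C] N)) := by
  induction y using TensorProduct.induction_on with
  | zero => exact ⟨0, by simp⟩
  | tmul d n =>
    obtain ⟨c, hc⟩ := h d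
    refine ⟨c • n, ?_⟩
    have : d ⊗ₜ[C] n - 1 ⊗ₜ (c • n) = algebraMap D _ (d - algebraMap C D c) * (1 ⊗ₜ n) := by
      rw [← smul_tmul, ← sub_tmul]; simp [Algebra.smul_def]
    exact this ▸ Ideal.mul_mem_right _ _ (Ideal.mem_map_of_mem _ (by simp [hc]))
  | add a b ha hb =>
    obtain ⟨n, hn⟩ := ha
    obtain ⟨m, hm⟩ := hb
    exact ⟨n + m, by rw [tmul_add, add_sub_add_comm]; exact add_mem hn hm⟩

theorem tmul_mem_map {I : Ideal C} {J : Ideal D} (h : ∀ c ∈ I, algebraMap C D c ∈ J) {n : N}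
    (hn : n ∈ I.map (algebraMap C N)) : (1 : D) ⊗ₜ[C] n ∈ J.map (algebraMap D (D ⊗[C] N)) := by
  refine (Ideal.map_le_iff_le_comap.2 fun c hc => ?_ : I.map (algebraMap C N) ≤ (J.map
    (algebraMap D (D ⊗[C] N))).comap (Algebra.TensorProduct.includeRight (R := C) (A := D))) hn
  have := Ideal.mem_map_of_mem (algebraMap D (D ⊗[C] N)) (h c hc)
  rwa [Ideal.mem_comap, Ideal.mem_comap, AlgHom.commutes, IsScalarTower.algebraMap_apply C D]

variable (D) in
/-- The map from a base change. -/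
noncomputable def tens (ν : N →ₐ[C] F') : D ⊗[C] N →ₐ[D] F' :=
  Algebra.TensorProduct.lift (Algebra.ofId D F') ν fun _ _ => .all _ _

@[simp] theorem tens_tmul (ν : N →ₐ[C] F') (d : D) (n : N) :
    tens D ν (d ⊗ₜ n) = algebraMap D F' d * ν n := rfl

theorem exists_clear {r : N →ₐ[C] F} [Nontrivial N] [NoZeroDivisors N]
    (hf : ∀ ω, ∃ a s, s ≠ 0 ∧ ω * r s = r a) (y : D ⊗[C] F) :
    ∃ s, s ≠ 0 ∧ ∃ x, y * 1 ⊗ₜ r s = Algebra.TensorProduct.map (AlgHom.id D D) r x := by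
  induction y using TensorProduct.induction_on with
  | zero => exact ⟨1, one_ne_zero, 0, by simp⟩
  | tmul d ω =>
    obtain ⟨a, s, hs, e⟩ := hf ω
    exact ⟨s, hs, d ⊗ₜ a, by simp [e]⟩
  | add a b ha hb =>
    obtain ⟨s, hs, x, e⟩ := ha
    obtain ⟨s', hs', x', e'⟩ := hb
    refine ⟨s * s', mul_ne_zero hs hs', x * 1 ⊗ₜ s' + x' * 1 ⊗ₜ s, ?_⟩
    have : (1 : D) ⊗ₜ[C] r (s * s') = 1 ⊗ₜ r s * 1 ⊗ₜ r s' := by simp
    rw [this, map_add, map_mul, map_mul, ← e, ← e']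
    simp only [Algebra.TensorProduct.map_tmul, map_one]
    ring

theorem map_inj [Module.Flat C D] {r : N →ₐ[C] F} (hr : Function.Injective r) :
    Function.Injective (Algebra.TensorProduct.map (AlgHom.id D D) r) :=
  Module.Flat.lTensor_preserves_injective_linearMap (M := D) r.toLinearMap hr

theorem isDomain_tensor [Module.Flat C D] {r : N →ₐ[C] F} (hr : Function.Injective r)
    (hf : ∀ ω, ∃ a s, s ≠ 0 ∧ ω * r s = r a) [IsDomain (D ⊗[C] N)] : IsDomain (D ⊗[C] F) := by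
  have := hr.isDomain r
  have := (map_inj (D := D) hr).nontrivial
  have h : ∀ s, s ≠ 0 → IsUnit ((1 : D) ⊗ₜ[C] r s) := fun s hs =>
    ((map_ne_zero_iff r hr).2 hs).isUnit.map (Algebra.TensorProduct.includeRight (R := C) (A := D))
  have : NoZeroDivisors (D ⊗[C] F) := ⟨fun {x y} e => by
    obtain ⟨s, hs, a, ha⟩ := exists_clear hf x
    obtain ⟨t, ht, b, hb⟩ := exists_clear hf y
    have : a * b = 0 := map_inj hr (by
      rw [map_mul, ← ha, ← hb, mul_mul_mul_comm, e, zero_mul, map_zero])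
    exact (mul_eq_zero.1 this).imp
      (fun h0 => (h s hs).mul_left_eq_zero.1 (by rw [ha, h0, map_zero]))
      fun h0 => (h t ht).mul_left_eq_zero.1 (by rw [hb, h0, map_zero])⟩
  exact NoZeroDivisors.to_isDomain _

variable (C D F F') in
/-- `F'` is the function field of the base change. -/
structure BC where
  μ : F →ₐ[C] F'
  inj : Function.Injective (tens D μ)
  frac : ∀ ω, ∃ a s, s ≠ 0 ∧ ω * tens D μ s = tens D μ a

theorem exists_bc [IsDomain (D ⊗[C] F)] : ∃ (F' : Type) (_ : Field F') (_ : Algebra D F')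
    (_ : Algebra C F') (_ : IsScalarTower C D F'), Nonempty (BC C F D F') := by
  let L := FractionRing (D ⊗[C] F)
  let μ := (IsScalarTower.toAlgHom C _ L).comp (Algebra.TensorProduct.includeRight (A := D) (B := F))
  have h : ∀ x, tens D μ x = algebraMap _ L x := DFunLike.congr_fun
    (show tens D μ = IsScalarTower.toAlgHom D _ L by ext; simp [μ])
  refine ⟨L, inferInstance, inferInstance, inferInstance, inferInstance, ⟨μ, fun a b e => ?_,
    fun ω => ?_⟩⟩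
  · exact IsFractionRing.injective _ L (by rwa [← h, ← h])
  · obtain ⟨⟨a, s⟩, e⟩ := IsLocalization.surj (nonZeroDivisors (D ⊗[C] F)) ω
    exact ⟨a, s, nonZeroDivisors.ne_zero s.2, by rwa [h, h]⟩

namespace BC

variable (β : BC C F D F')

theorem inj' : Function.Injective (β.μ.toLinearMap.liftBaseChange D) := by
  have : β.μ.toLinearMap.liftBaseChange D = (tens D β.μ).toLinearMap := by ext; simp
  rw [this]; exact β.inj

/-- The base change of a subring. -/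
noncomputable def Θ (r : N →ₐ[C] F) : D ⊗[C] N →+* F' := tens D (β.μ.comp r)

@[simp] theorem Θ_tmul (r : N →ₐ[C] F) (d : D) (n : N) :
    β.Θ r (d ⊗ₜ n) = algebraMap D F' d * β.μ (r n) := rfl

theorem Θ_eq (r : N →ₐ[C] F) (y : D ⊗[C] N) :
    β.Θ r y = tens D β.μ (Algebra.TensorProduct.map (AlgHom.id D D) r y) :=
  DFunLike.congr_fun (show tens D (β.μ.comp r) =
    (tens D β.μ).comp (Algebra.TensorProduct.map (AlgHom.id D D) r) by ext; simp) y

theorem Θ_inj [Module.Flat C D] {r : N →ₐ[C] F} (hr : Function.Injective r) :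
    Function.Injective (β.Θ r) := fun a b h => map_inj hr (β.inj (by rwa [← Θ_eq, ← Θ_eq]))

theorem mem_span (r : N →ₐ[C] F) {x : F'} :
    x ∈ Submodule.span D (β.μ.toLinearMap '' LinearMap.range r.toLinearMap) ↔ ∃ y, β.Θ r y = x := by
  refine ⟨fun h => ?_, ?_⟩
  · refine (Submodule.span_le (p := LinearMap.range (tens D (β.μ.comp r)).toLinearMap)).2 ?_ h
    rintro _ ⟨_, ⟨n, rfl⟩, rfl⟩
    exact ⟨1 ⊗ₜ n, by simp⟩
  · rintro ⟨y, rfl⟩
    induction y using TensorProduct.induction_on with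
    | zero => simp
    | tmul d v =>
      rw [Θ_tmul, ← Algebra.smul_def]
      exact Submodule.smul_mem _ d (Submodule.subset_span ⟨_, ⟨v, rfl⟩, rfl⟩)
    | add a b ha hb => rw [map_add]; exact add_mem ha hb

theorem Θ_mem {r : N →ₐ[C] F} {W : Subring F'} (h : ∀ d, algebraMap D F' d ∈ W)
    (h' : ∀ n, β.μ (r n) ∈ W) (y : D ⊗[C] N) : β.Θ r y ∈ W := by
  induction y using TensorProduct.induction_on with
  | zero => simp
  | tmul d v => exact W.mul_mem (h d) (h' v)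
  | add a b ha hb => rw [map_add]; exact add_mem ha hb

/-- Descent of membership in a local ring. -/
theorem desc [Module.Flat C D] {r : N →ₐ[C] F} (hr : Function.Injective r) {p : Ideal N}
    [p.IsPrime] {q : Ideal (D ⊗[C] N)} [q.IsPrime] (h : ∀ n ∈ p, 1 ⊗ₜ n ∈ q) {f : F}
    (hf : β.μ f ∈ locS (β.Θ r) q) : f ∈ locS (r : N →+* F) p := by
  obtain ⟨a, s, hs, e⟩ := hf
  by_contra h0
  have h1 := fbc β.inj' (LinearMap.mulLeft C f) (LinearMap.mulLeft D (β.μ f)) (fun v => by simp)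
    ((β.mem_span r).2 ⟨s, rfl⟩) ((β.mem_span r).2 ⟨a, e.symm⟩)
  obtain ⟨y, hy, e'⟩ := (Submodule.span_le (p := (q.restrictScalars D).map
      (tens D (β.μ.comp r)).toLinearMap)).2 (by
    rintro _ ⟨_, ⟨⟨n, rfl⟩, m, hm⟩, rfl⟩
    exact ⟨1 ⊗ₜ n, h n (by_contra fun hn => h0 ⟨m, n, hn, hm.symm⟩), by simp⟩) h1
  exact hs (β.Θ_inj hr e' ▸ hy)

theorem exists_der (d : Derivation C F F) :
    ∃ d' : Derivation D F' F', ∀ f, d' (β.μ f) = β.μ (d f) := by
  let δ := (β.μ.toLinearMap ∘ₗ d.toLinearMap).liftBaseChange D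
  obtain ⟨d', h⟩ := MP_e8e0b6_ag.exists_der (C := D) (r := (tens D β.μ : D ⊗[C] F →+* F')) β.inj
    β.frac (tens D β.μ).commutes δ.toAddMonoidHom (fun c => by simp [δ]) fun a b => by
      induction a using TensorProduct.induction_on with
      | zero => simp
      | add a a' ha ha' => simp only [add_mul, map_add, ha, ha']; ring
      | tmul x f =>
        induction b using TensorProduct.induction_on with
        | zero => simp
        | add a a' ha ha' => simp only [mul_add, map_add, ha, ha']; ring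
        | tmul y g => simp [δ, Algebra.smul_def]; ring
  exact ⟨d', fun f => by simpa [δ] using h (1 ⊗ₜ f)⟩

/-- The extension of a derivation. -/
noncomputable def der (d : Derivation C F F) : Derivation D F' F' := (β.exists_der d).choose

@[simp] theorem der_μ (d : Derivation C F F) (f : F) : β.der d (β.μ f) = β.μ (d f) :=
  (β.exists_der d).choose_spec f

end BC

variable [Module.Flat C D] (β : BC C F D F')

/-- The base change of a family. -/
noncomputable def Fam.bc (𝒜 : Fam C F ι) (hD : Function.Injective (algebraMap C D)) :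
    Fam D F' ι where
  A j := D ⊗[C] 𝒜.A j
  κ j := β.Θ (𝒜.κₐ j)
  comm j := (tens D (β.μ.comp (𝒜.κₐ j))).commutes
  inj j := β.Θ_inj (𝒜.inj j)
  frac j ω := by
    have := (𝒜.inj j).isDomain _
    obtain ⟨a, s, hs, e⟩ := β.frac ω
    obtain ⟨t, ht, x, hx⟩ := exists_clear (r := 𝒜.κₐ j) (𝒜.frac j) a
    obtain ⟨t', ht', x', hx'⟩ := exists_clear (r := 𝒜.κₐ j) (𝒜.frac j) s
    have h : ∀ t, t ≠ 0 → β.μ (𝒜.κₐ j t) ≠ 0 := fun t ht => by
      simpa using (map_ne_zero_iff _ (𝒜.inj j)).2 ht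
    have h1 : β.Θ (𝒜.κₐ j) (x' * 1 ⊗ₜ t) =
        tens D β.μ s * β.μ (𝒜.κₐ j t') * β.μ (𝒜.κₐ j t) := by
      rw [map_mul, β.Θ_eq, ← hx']; simp
    refine ⟨x * 1 ⊗ₜ t', x' * 1 ⊗ₜ t, fun h0 => ?_, ?_⟩
    · rw [h0, map_zero] at h1
      exact mul_ne_zero (mul_ne_zero ((map_ne_zero_iff _ β.inj).2 hs) (h _ ht')) (h _ ht) h1.symm
    · rw [h1, map_mul, β.Θ_eq, ← hx, map_mul, ← e]; simp; ring
  ft j := inferInstance
  flat j := inferInstance
  z j := 1 ⊗ₜ 𝒜.z j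
  d := β.der 𝒜.d
  dz j := by simpa using 𝒜.dz j
  der j a := by
    induction a using TensorProduct.induction_on with
    | zero => exact ⟨0, by simp⟩
    | tmul x a => exact ⟨x ⊗ₜ 𝒜.D j a, by simp [𝒜.d_κ a, mul_assoc]⟩
    | add a b ha hb =>
      obtain ⟨x, hx⟩ := ha
      obtain ⟨y, hy⟩ := hb
      exact ⟨x + y, by rw [map_add, map_add, hx, hy, map_add, add_mul]⟩
  unr j T _ ρ δ h0 h hz a := by
    let ν : 𝒜.A j →+* D ⊗[C] 𝒜.A j :=
      (Algebra.TensorProduct.includeRight (R := C) (A := D)).toRingHom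
    have h1 := 𝒜.unr j T (ρ.comp ν) (δ.comp ν.toAddMonoidHom) (fun c => h0 (algebraMap C D c) ▸
      congrArg δ ((Algebra.TensorProduct.includeRight (R := C) (A := D)).commutes c))
      (fun a b => (congrArg δ (ν.map_mul a b)).trans (h _ _)) hz
    induction a using TensorProduct.induction_on with
    | zero => simp
    | tmul x a =>
      have : x ⊗ₜ[C] a = algebraMap D _ x * ν a := by simp [ν]
      rw [this, h, h0, show δ (ν a) = 0 from h1 a]; simp
    | add a b ha hb => rw [map_add, ha, hb, add_zero]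
  sep i j W hW hi hj := by
    refine β.Θ_mem (fun d => ?_) fun a => ?_
    · simpa using map_mem_cen (r := β.Θ (𝒜.κₐ i)) (W := W) (d ⊗ₜ 1)
    · obtain ⟨x, s, hs, e⟩ := 𝒜.sep i j _ (hW.comap (β.μ : F →+* F'))
        (fun a => by simpa using hi (1 ⊗ₜ a)) (fun a => by simpa using hj (1 ⊗ₜ a)) a
      exact ⟨1 ⊗ₜ x, 1 ⊗ₜ s, by simpa using un_comap.1 hs, by simpa using congrArg β.μ e⟩
  prop W hW := by
    obtain ⟨i, hi⟩ := 𝒜.prop (W.comap (β.μ : F →+* F')) fun c => by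
      simpa [← IsScalarTower.algebraMap_apply] using hW (algebraMap C D c)
    exact ⟨i, β.Θ_mem (W := W.toSubring) hW hi⟩
  gi D' _ _ _ _ h := by
    let := ((algebraMap D D').comp (algebraMap C D)).toAlgebra
    have : IsScalarTower C D D' := .of_algebraMap_eq' rfl
    have := Module.Flat.trans C D D'
    have := 𝒜.gi D' (h.comp hD)
    have := (Algebra.TensorProduct.cancelBaseChange C D D D' F).toMulEquiv.isDomain
    exact isDomain_tensor β.inj β.frac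

theorem Fam.bc_κ (𝒜 : Fam C F ι) (hD : Function.Injective (algebraMap C D)) (j : ι) (x : D)
    (a : 𝒜.A j) : (𝒜.bc β hD).κ j (x ⊗ₜ[C] a) = algebraMap D F' x * β.μ (𝒜.κ j a) := rfl

theorem Fam.bc_t (𝒜 : Fam C F ι) (hD : Function.Injective (algebraMap C D)) (j : ι) :
    (𝒜.bc β hD).t j = β.μ (𝒜.t j) := by
  change β.der 𝒜.d (algebraMap D F' 1 * β.μ (𝒜.κ j (𝒜.z j))) = _
  simp

theorem Fib.bc {𝒜 : Fam C F ι} {k : Type} [Field k] {τ : C →+* k} (Φ : Fib 𝒜 τ)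
    (hD : Function.Injective (algebraMap C D)) (τ' : D →+* k)
    (h : ∀ c, τ' (algebraMap C D c) = τ c) (hτ : Function.Surjective τ) :
    Nonempty (Fib (𝒜.bc β hD) τ') := by
  obtain ⟨θ, hθ⟩ := exists_tmul (C := C) ((algebraMap k (RatFunc k)).comp τ') Φ.θ fun c => by
    simp [h, Φ.base]
  let κ := β.Θ (𝒜.κₐ Φ.o)
  have h1 : ∀ {ω e}, Ext (𝒜.κ Φ.o) Φ.θ ω e → Ext κ θ (β.μ ω) e := fun H =>
    H.trans (β.μ : F →+* F') fun x => by simpa [hθ, κ] using Ext.of (r := κ) (θ := θ) (1 ⊗ₜ x)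
  have h2 : ∀ d, Ext κ θ (algebraMap D F' d) (algebraMap k _ (τ' d)) := fun d => by
    simpa [hθ, κ] using Ext.of (r := κ) (θ := θ) (d ⊗ₜ 1)
  have h3 : ∀ c ∈ RingHom.ker τ, algebraMap C D c ∈ RingHom.ker τ' := fun c hc => (h c).trans hc
  refine ⟨⟨Φ.o, θ, fun d => (hθ d 1).trans (by simp), fun e => ?_, fun j => ?_⟩⟩
  · obtain ⟨ω, hω⟩ := Φ.surj e
    exact ⟨_, h1 hω⟩
  refine (Φ.cases j).imp (fun H => (Ideal.eq_top_iff_one _).2
    (tmul_mem_map h3 ((Ideal.eq_top_iff_one _).1 H))) fun H => ?_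
  have h4 : ∀ a, β.Θ (𝒜.κₐ j) a ∈ dom κ θ := β.Θ_mem (fun d => mem_dom.2 ⟨_, h2 d⟩) fun a =>
    let ⟨e, he⟩ := H.1 a; mem_dom.2 ⟨e, h1 he⟩
  refine ⟨fun a => mem_dom.1 (h4 a), fun (a : D ⊗[C] 𝒜.A j) (ha : Ext κ θ (β.Θ _ a) 0) =>
    show a ∈ (RingHom.ker τ').map (algebraMap D (D ⊗[C] 𝒜.A j)) from ?_⟩
  obtain ⟨n, hn⟩ := exists_sub_tmul (τ := τ') (fun d => let ⟨c, hc⟩ := hτ (τ' d); ⟨c, by
    rw [h, hc]⟩) a
  have h5 : ∀ y ∈ (RingHom.ker τ').map (algebraMap D (D ⊗[C] 𝒜.A j)),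
      Ext κ θ (β.Θ (𝒜.κₐ j) y) 0 := fun y hy => by
    induction hy using Submodule.span_induction with
    | mem _ h => obtain ⟨d, hd, rfl⟩ := h; simpa [show τ' d = 0 from hd] using h2 d
    | zero => simpa using Ext.zero
    | add _ _ _ _ h h' => simpa using h.add h'
    | smul c _ _ h => obtain ⟨e, he⟩ := mem_dom.1 (h4 c); simpa using he.mul h
  obtain ⟨e, he⟩ := H.1 n
  have h6 : Ext κ θ (β.μ (𝒜.κ j n)) 0 := by simpa using Ext.sub ha (h5 _ hn)
  obtain rfl := (h1 he).unique (β.Θ_inj (𝒜.inj _)) h6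
  simpa using add_mem hn (tmul_mem_map h3 (H.2 n he))

end Pool.Agent.MP_e8e0b6_ag
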