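import Mathlib
import Pool.Agent.MP_e8e0b6_ag.P1.Fam
import Pool.Agent.MP_8e057e_ag.RH

-- ======== part 0: formerly Pool.Agent.MP_e8e0b6_ag.P1.Curve
section MrgPart0

/-!
Families over an algebraically closed field: places and the Riemann-Roch alternative.
-/

set_option linter.unusedSectionVars false

open Pool.Agent.MP_79c67d_ag Pool.Agent.MP_79c67d_ag.FF Pool.Agent.MP_8e057e_ag
open scoped IntermediateField

namespace Pool.Agent.MP_e8e0b6_ag

variable {K E ι : Type} [Field K] [CharZero K] [IsAlgClosed K] [Field E] [Algebra K E]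

theorem isFF_of_unr {T : Type} [CommRing T] [Algebra K T] [Algebra.FiniteType K T] {r : T →+* E}
    (hr : Function.Injective r) (hf : ∀ ω, ∃ a s, s ≠ 0 ∧ ω * r s = r a)
    (hc : ∀ c, r (algebraMap K T c) = algebraMap K E c) (z : T) (hz : Transcendental K (r z))
    (unr : ∀ δ : T →+ E, (∀ c, δ (algebraMap K _ c) = 0) →
      (∀ a b, δ (a * b) = r a * δ b + r b * δ a) → δ z = 0 → ∀ a, δ a = 0) : IsFF K E := by
  let := r.toAlgebra
  have := hr.isDomain r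
  have := (faithfulSMul_iff_algebraMap_injective T E).2 hr
  have : IsScalarTower K T E := .of_algebraMap_eq fun c => (hc c).symm
  have : IsFractionRing T E := .of_field _ _ fun ω => by
    obtain ⟨a, s, hs, e⟩ := hf ω
    exact ⟨a, s, eq_div_of_mul_eq ((map_ne_zero_iff r hr).2 hs) e⟩
  have := Algebra.EssFiniteType.of_isLocalization E (nonZeroDivisors T)
  have := Algebra.EssFiniteType.comp K T E
  have := Algebra.EssFiniteType.of_comp K K⟮r z⟯ E
  let D := KaehlerDifferential.D K⟮r z⟯ E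
  have h1 : ∀ a, D (r a) = 0 := fun a => (Module.forall_dual_apply_eq_zero_iff E _).1 fun φ =>
    unr (φ.toAddMonoidHom.comp (D.toLinearMap.toAddMonoidHom.comp r.toAddMonoidHom))
      (fun c => by
        have := D.map_algebraMap (algebraMap K _ c)
        rw [← IsScalarTower.algebraMap_apply] at this
        simp [hc, this])
      (fun a b => by simp) (by
        have := D.map_algebraMap (IntermediateField.AdjoinSimple.gen K (r z))
        simp only [IntermediateField.AdjoinSimple.algebraMap_gen] at this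
        simp [this]) a
  have h2 : ∀ ω, D ω = 0 := fun ω => by
    obtain ⟨a, s, hs, e⟩ := hf ω
    have := congrArg D e
    rw [D.leibniz, h1, h1, smul_zero, zero_add, smul_eq_zero] at this
    exact this.resolve_left ((map_ne_zero_iff r hr).2 hs)
  have : Algebra.FormallyUnramified K⟮r z⟯ E := ⟨subsingleton_of_forall_eq 0 fun x =>
    (Submodule.span_le (p := ⊥)).2 (by rintro _ ⟨ω, rfl⟩; exact h2 ω)
      ((KaehlerDifferential.span_range_derivation K⟮r z⟯ E).ge trivial)⟩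
  have := Algebra.FormallyUnramified.finite_of_free K⟮r z⟯ E
  exact isFF_of_transcendental hz

/-- The valuation ring of a place. -/
def plR (P : Place K E) : Subring E := P.v.valuationSubring.toSubring

variable {P : Place K E} {f : E} {O : Subring E}

theorem mem_plR : f ∈ plR P ↔ P.Ge 0 f := P.mem_iff

theorem loc_plR : Loc (plR P) := loc_valuation _

theorem const_plR (c : K) : algebraMap K E c ∈ plR P := mem_plR.2 (P.ge_const c)

theorem un_plR : Un (plR P) f ↔ f ≠ 0 ∧ P.ord f = 0 := by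
  refine ⟨fun h => ⟨h.2.1, ?_⟩, fun h => ⟨mem_plR.2 (P.ge_of_le h.2.ge), h.1,
    mem_plR.2 (Place.Ge.inv_of_ord h.2)⟩⟩
  have h1 := (mem_plR.1 h.1).le h.2.1
  have h2 := (mem_plR.1 h.2.2).le (inv_ne_zero h.2.1)
  rw [P.ord_inv] at h2
  omega

theorem ge_one_iff_not_un (h : f ∈ plR P) : P.Ge 1 f ↔ ¬ Un (plR P) f := by
  rw [un_plR, P.ge_iff']
  by_cases h0 : f = 0
  · simp [h0]
  · have := (mem_plR.1 h).le h0
    simp only [h0, false_or, ne_eq, not_false_eq_true, true_and]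
    omega

theorem dvr_of_principal (hd : Dom O (plR P)) (hf : ∀ ω, ∃ a ∈ O, ∃ s ∈ O, s ≠ 0 ∧ ω * s = a) {g : E}
    (hg : g ∈ O) (h0 : g ≠ 0) (h1 : ¬ Un O g) (h2 : ∀ a ∈ O, ¬ Un O a → a / g ∈ O) :
    P.ord g = 1 ∧ plR P ≤ O := by
  have h3 : 1 ≤ P.ord g := ((ge_one_iff_not_un (hd.1 hg)).2 fun h => h1 (hd.2 _ hg h)).le h0
  have key : ∀ (n : ℕ) (ω : E), ω ∈ plR P → ∀ s ∈ O, s ≠ 0 → P.ord s ≤ n → ω * s ∈ O → ω ∈ O := by
    intro n
    induction n with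
    | zero =>
      intro ω _ s hs hs0 hn h
      exact (hd.2 s hs (un_plR.2 ⟨hs0, le_antisymm hn ((mem_plR.1 (hd.1 hs)).le hs0)⟩)).mem_of_mul
        (mul_comm ω s ▸ h)
    | succ n ih =>
      intro ω hω s hs hs0 hn h
      by_cases hu : Un O s
      · exact hu.mem_of_mul (mul_comm ω s ▸ h)
      refine ih ω hω _ (h2 s hs hu) (div_ne_zero hs0 h0) (by rw [P.ord_div hs0 h0]; omega) ?_
      rw [← mul_div_assoc]
      exact h2 _ h fun h' => hu (hd.2 s hs ((h'.mono hd.1).right hω (hd.1 hs)))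
  have h4 : plR P ≤ O := fun ω hω => by
    obtain ⟨a, ha, s, hs, hs0, e⟩ := hf ω
    exact key (P.ord s).toNat ω hω s hs hs0 (by omega) (e ▸ ha)
  have h5 := (mem_plR.1 (hd.1 (h2 _ (h4 (mem_plR.2 (P.ge_unif.mono zero_le_one))) fun h =>
    (ge_one_iff_not_un (hd.1 h.1)).1 P.ge_unif (h.mono hd.1)))).le (div_ne_zero P.unif_ne h0)
  rw [P.ord_div P.unif_ne h0, P.ord_unif] at h5
  exact ⟨by omega, h4⟩

theorem exists_place_dom [IsFF K E] (hO : Loc O) (hK : ∀ c, algebraMap K E c ∈ O) (hf : f ∈ O)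
    (h0 : f ≠ 0) (h1 : ¬ Un O f) : ∃ P : Place K E, Dom O (plR P) := by
  obtain ⟨V, hV⟩ := exists_dom hO
  obtain ⟨P, hP⟩ := exists_place V (fun h => h1 (hV.2 f hf ⟨hV.1 hf, h0, h ▸ trivial⟩))
    fun c => hV.1 (hK c)
  exact ⟨P, (Subring.ext fun x => mem_plR.trans (hP x) : plR P = V.toSubring) ▸ hV⟩

theorem rat_of_mem_sec [IsFF K E] (hf : f ∈ sec (Finsupp.single P 1)) (ht : Transcendental K f) :
    IsRat K f := by
  classical
  have h1 : pol K f ≤ Finsupp.single P 1 := sup_le (fun Q => by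
    have := (hf Q).le (fun h => ht (h ▸ isAlgebraic_zero))
    simp only [Finsupp.neg_apply, div_apply]; omega) (Finsupp.single_nonneg.2 zero_le_one)
  have h2 := deg_mono h1
  have := finDim_adjoin ht
  have := isFF_adjoin ht
  have hx := isRat_adjoin ht
  have h3 := deg_pol (F := E) hx
  have h4 : 0 < Module.finrank K⟮f⟯ E := Module.finrank_pos
  rw [IntermediateField.AdjoinSimple.algebraMap_gen] at h3
  rw [deg_single, h3] at h2
  refine ⟨ht, fun y => ?_⟩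
  obtain ⟨c, rfl⟩ := (finrank_eq_one_iff_of_nonzero' (1 : E) one_ne_zero).1
    (show Module.finrank K⟮f⟯ E = 1 by omega) y
  obtain ⟨p, q, hq, rfl⟩ := hx.gen c
  exact ⟨p, q, hq, by simp [Algebra.smul_def, map_aeval]⟩

instance : IsFF K (RatFunc K) := isRat_ratFunc.isFF_self

theorem genus_ratFunc : genus K (RatFunc K) = 0 := by
  obtain ⟨W, hW⟩ := exists_isCan K (RatFunc K)
  have h1 := h0_pol (isRat_ratFunc (K := K)) (2 * genus K (RatFunc K))
  have h2 := hW.nonspecial (D := (2 * genus K (RatFunc K) : ℤ) • pol K RatFunc.X)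
    (by rw [deg_zsmul, deg_pol_one isRat_ratFunc]; omega)
  rw [deg_zsmul, deg_pol_one isRat_ratFunc, h1] at h2
  omega

theorem place_unique [IsFF K E] (hf : IsRat K f) (c : K) {P Q : Place K E}
    (hP : P.Ge 1 (f - algebraMap K E c)) (hQ : Q.Ge 1 (f - algebraMap K E c)) : P = Q := by
  have h0 := sub_ne_zero.2 (transcendental_iff_ne.1 hf.trans c)
  have h : ∀ P : Place K E, P.Ge 1 (f - algebraMap K E c) →
      0 < (div K (f - algebraMap K E c) + pol K (f - algebraMap K E c)) P := fun P hP => by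
    have := hP.le h0
    rw [Finsupp.add_apply, pol_apply, div_apply]; omega
  exact eq_of_deg_one (div_add_pol_nonneg _)
    (by rw [deg_add, deg_div, pol_sub_const, deg_pol_one hf, zero_add]) (h P hP) (h Q hQ)

theorem der_mul [IsFF K E] (d : Derivation K E E) {t : E} (ht : dd K t ≠ 0) (g : E) :
    d g = der ht g * d t := by
  simpa using congrArg d.liftKaehlerDifferential (dd_eq ht g)

namespace Fam

variable (𝒜 : Fam K E ι) {j : ι}

theorem trans_z (j : ι) : Transcendental K (𝒜.κ j (𝒜.z j)) :=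
  transcendental_iff_ne.2 fun c hc => 𝒜.dz j (by rw [hc]; simp)

include 𝒜 in
theorem isFF (j : ι) : IsFF K E :=
  isFF_of_unr (𝒜.inj j) (𝒜.frac j) (𝒜.comm j) _ (𝒜.trans_z j) (𝒜.unr j E _)

variable [IsFF K E]

theorem place_eq (h : ∀ a, 𝒜.κ j a ∈ plR P) :
    (∃ c, P.ord (𝒜.κ j (𝒜.z j) - algebraMap K E c) = 1) ∧ plR P ≤ cen (𝒜.κ j) (plR P) := by
  obtain ⟨e, he⟩ := exists_point (k := K) (ctr (𝒜.κ j) loc_plR h) (Ideal.IsPrime.ne_top inferInstance)
  have h1 : ∀ a, P.Ge 1 (𝒜.κ j a - algebraMap K E (e a)) := fun a => by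
    have h2 := P.sub_val (mem_plR.1 (h a))
    have h3 : e (a - algebraMap K _ (P.val (𝒜.κ j a))) = 0 := mem_kerPt.1 (he (by
      rw [mem_ctr, ← ge_one_iff_not_un (h _), map_sub, 𝒜.comm]; exact h2))
    rw [map_sub, AlgHom.commutes, sub_eq_zero] at h3
    exact h3 ▸ h2
  obtain ⟨σ, h2, h3⟩ := 𝒜.ker_section (e : 𝒜.A j →+* K) e.commutes
  have h4 : ∀ a, Un (plR P) (𝒜.κ j a) ↔ e a ≠ 0 := fun a =>
    ⟨fun hu h0 => (ge_one_iff_not_un (h a)).1 (by simpa [h0] using h1 a) hu,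
      fun h0 => by_contra fun hu => h0 (mem_kerPt.1 (he hu))⟩
  have h5 : 𝒜.κ j (𝒜.z j - algebraMap K _ (e (𝒜.z j))) =
    𝒜.κ j (𝒜.z j) - algebraMap K E (e (𝒜.z j)) := by rw [map_sub, 𝒜.comm]
  have h6 := sub_ne_zero.2 (transcendental_iff_ne.1 (𝒜.trans_z j) (e (𝒜.z j)))
  have hd := dom_cen h
  refine (dvr_of_principal hd (fun ω => ?_) (h5 ▸ map_mem_cen _) h6 (fun hu => ?_) ?_).imp_left
    fun h => ⟨_, h⟩
  · obtain ⟨a, s, hs, e⟩ := 𝒜.frac j ω
    exact ⟨_, map_mem_cen a, _, map_mem_cen s, (map_ne_zero_iff _ (𝒜.inj j)).2 hs, e⟩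
  · exact (h4 _).1 (h5 ▸ hu.mono hd.1) (by simp)
  · rintro ω ⟨a, s, hs, e'⟩ hu
    obtain ⟨b, hb⟩ := h3 a (by_contra fun h0 => hu
      (eq_div_of_mul_eq hs.2.1 e' ▸ (un_cen ((h4 a).2 h0)).div (un_cen hs)))
    refine ⟨b, σ * s, by simpa using ((h4 σ).2 (by simp [show e σ = 1 from h2])).mul hs, ?_⟩
    have := congrArg (𝒜.κ j) hb
    rw [map_mul, map_mul, ← e'] at this
    rw [map_mul, div_mul_eq_mul_div, div_eq_iff h6, ← h5]
    exact (by ring : _ = _).trans (this.trans (mul_comm _ _))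

theorem mem_range (h : ∀ P : Place K E, (∀ a, 𝒜.κ j a ∈ plR P) → P.Ge 0 f) : ∃ a, 𝒜.κ j a = f := by
  refine mem_range_of_loc fun m _ => ?_
  have hp := pt_locS (𝒜.inj j) m
  obtain ⟨a, s, hs, e⟩ := 𝒜.frac j f
  by_cases hm : s ∈ m
  · obtain ⟨P, hP⟩ := exists_place_dom hp.loc (𝒜.base_mem hp.mem) (hp.mem s)
      ((map_ne_zero_iff _ (𝒜.inj j)).2 hs) fun hu => (un_locS (𝒜.inj j)).1 hu hm
    have h1 := fun a => hP.1 (hp.mem a)
    exact hp.eq_cen hP ▸ (𝒜.place_eq h1).2 (mem_plR.2 (h P h1))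
  · exact ⟨a, s, hm, e⟩

open Classical in
/-- Either a function or a form with at most a simple pole at a given place. -/
theorem alternative (P : Place K E) (o : ι) :
    (∃ x, IsRat K x ∧ ∀ Q : Place K E, Q.Ge (if P = Q then -1 else 0) x) ∨
    ∃ x, x ≠ 0 ∧ ∀ j (Q : Place K E), (∀ a, 𝒜.κ j a ∈ plR Q) →
      Q.Ge (if P = Q then -1 else 0) (x / (𝒜.t j / 𝒜.t o)) := by
  have hs : ∀ Q, - Finsupp.single P (1 : ℤ) Q = if P = Q then -1 else 0 := fun Q => by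
    rw [Finsupp.single_apply]; split_ifs <;> rfl
  by_cases hg : genus K E = 0
  · have h1 := riemann_ineq (Finsupp.single P 1)
    rw [hg, deg_single] at h1
    obtain ⟨x, hx, ht⟩ : ∃ x ∈ sec (Finsupp.single P 1), Transcendental K x := by
      by_contra! h
      have : sec (Finsupp.single P 1) ≤ sec 0 := fun x hx Q => by
        obtain ⟨c, rfl⟩ := exists_const_of_algebraic (not_not.1 (h x hx))
        exact Q.ge_const c
      have h2 : h0 _ ≤ h0 _ := Submodule.finrank_mono this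
      rw [h0_zero] at h2
      omega
    exact Or.inl ⟨x, rat_of_mem_sec hx ht, fun Q => hs Q ▸ hx Q⟩
  · obtain ⟨C, hC, hC'⟩ := exists_can_div (𝒜.trans_z o)
    have h1 := riemann_ineq (C + Finsupp.single P 1)
    rw [deg_add, deg_single, hC'] at h1
    obtain ⟨x, hx, h0⟩ := exists_ne_of_h0 (D := C + Finsupp.single P 1) (by omega)
    refine Or.inr ⟨x, h0, fun j Q hQ => Q.ge_of_le ?_⟩
    obtain ⟨c, hc⟩ := (𝒜.place_eq hQ).1
    have h2 := Q.ord_der (dd_ne_zero (𝒜.trans_z o)) (hc.trans_ne one_ne_zero)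
    rw [hc, ← hC, map_sub, Derivation.map_algebraMap, sub_zero,
      eq_div_of_mul_eq (𝒜.dz o) (der_mul 𝒜.d _ _).symm] at h2
    have h3 := (hx Q).le h0
    rw [Finsupp.add_apply] at h3
    rw [Q.ord_div h0 (div_ne_zero (𝒜.dz j) (𝒜.dz o)), ← hs]
    omega

end Fam

end Pool.Agent.MP_e8e0b6_ag

end MrgPart0

-- ======== part 1: formerly Pool.Agent.MP_e8e0b6_ag.P1.Fibre
section MrgPart1

/-!
The closed fibre of a family, and a section through it.
-/

set_option linter.unusedSectionVars false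

open Pool.Agent.MP_79c67d_ag Pool.Agent.MP_79c67d_ag.FF Pool.Agent.MP_8e057e_ag IsLocalRing

namespace Pool.Agent.MP_e8e0b6_ag

variable {k B F ι : Type} [Field k] [CharZero k] [IsAlgClosed k] [CommRing B] [Field F]
  [Algebra B F] {𝒜 : Fam B F ι} {τ : B →+* k}

variable (𝒜 τ) in
/-- `O` is the local ring of a point of the fibre. -/
structure CP (j : ι) (O : Subring F) : Prop where
  pt : Pt (𝒜.κ j) O
  nu : ∀ c, τ c = 0 → ¬ Un O (algebraMap B F c)

theorem cp_cen {j : ι} {W : Subring F} (hW : Loc W) (h : ∀ a, 𝒜.κ j a ∈ W)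
    (hn : ∀ c, τ c = 0 → ¬ Un W (algebraMap B F c)) : CP 𝒜 τ j (cen (𝒜.κ j) W) :=
  ⟨pt_cen hW h, fun c hc hu => hn c hc (hu.mono (dom_cen h).1)⟩

theorem CP.not_un {j : ι} {O : Subring F} (h : CP 𝒜 τ j O) {a : 𝒜.A j}
    (ha : a ∈ (RingHom.ker τ).map (algebraMap B _)) : ¬ Un O (𝒜.κ j a) :=
  (Ideal.map_le_iff_le_comap.2 fun c hc => by
    rw [Ideal.mem_comap, mem_ctr, 𝒜.comm]; exact h.nu c hc :
    _ ≤ ctr (𝒜.κ j) h.pt.loc h.pt.mem) ha

theorem CP.base {j : ι} {O : Subring F} (h : CP 𝒜 τ j O) (c : B) : algebraMap B F c ∈ O :=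
  𝒜.base_mem h.pt.mem c

namespace Fib

variable (Φ : Fib 𝒜 τ) {j : ι} {O : Subring F} {ω : F} {e : RatFunc k} {P : Place k (RatFunc k)}

/-- The value of a function on the fibre. -/
abbrev Val (ω : F) (e : RatFunc k) : Prop := Ext (𝒜.κ Φ.o) Φ.θ ω e

/-- The local ring of the fibre. -/
noncomputable abbrev V : Subring F := dom (𝒜.κ Φ.o) Φ.θ

/-- The preimage of a subring. -/
noncomputable abbrev pr (P : Subring (RatFunc k)) : Subring F := pre (𝒜.κ Φ.o) Φ.θ P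

/-- The image of a subring. -/
noncomputable abbrev im (O : Subring F) : Subring (RatFunc k) := img (𝒜.κ Φ.o) Φ.θ O

theorem val_base (c : B) : Φ.Val (algebraMap B F c) (algebraMap k _ (τ c)) :=
  𝒜.comm Φ.o c ▸ Φ.base c ▸ Ext.of _

theorem not_un_base (hO : O ≤ Φ.V) (c : B) (hc : τ c = 0) : ¬ Un O (algebraMap B F c) := fun hu =>
  (Φ.val_base c).ne_of_un (𝒜.inj _) (hu.mono hO) (by simp [hc])

theorem cp_V : CP 𝒜 τ Φ.o Φ.V := ⟨pt_dom (𝒜.inj _) _, Φ.not_un_base le_rfl⟩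

theorem good (h : CP 𝒜 τ j O) : (∀ a, ∃ e, Φ.Val (𝒜.κ j a) e) ∧
    ∀ a, Φ.Val (𝒜.κ j a) 0 → a ∈ (RingHom.ker τ).map (algebraMap B (𝒜.A j)) :=
  (Φ.cases j).resolve_left fun h1 => h.not_un (h1.ge trivial : (1 : 𝒜.A j) ∈ _)
    (by simpa using Un.one)

theorem le_V (h : CP 𝒜 τ j O) : O ≤ Φ.V :=
  h.pt.le_of (fun a => mem_dom.2 ((Φ.good h).1 a)) fun a hu => by
    obtain ⟨e, he⟩ := (Φ.good h).1 a
    exact he.un (𝒜.inj _) (Ne.isUnit fun h0 => h.not_un ((Φ.good h).2 a (h0 ▸ he)) hu)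

theorem smul_of_val (h : CP 𝒜 τ j O) (hω : ω ∈ O) (h0 : Φ.Val ω 0) :
    ω ∈ RingHom.ker τ • sm B O := by
  obtain ⟨a, s, hs, e⟩ := h.pt.le hω
  obtain ⟨x, hx⟩ := (Φ.good h).1 s
  exact (h.pt.smul_iff (𝒜.comm j)).2 ⟨a, (Φ.good h).2 a (by simpa [e] using h0.mul hx), s, hs, e⟩

theorem val_of_smul (h : ω ∈ RingHom.ker τ • sm B Φ.V) : Φ.Val ω 0 :=
  smul_sm_induction Φ.cp_V.base (p := fun ω => Φ.Val ω 0) h (fun b hb o ho => by
    obtain ⟨e, he⟩ := mem_dom.1 ho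
    simpa [show τ b = 0 from hb] using (Φ.val_base b).mul he) fun _ _ h h' => by simpa using h.add h'

theorem not_val_z (h : CP 𝒜 τ j O) (c : B) :
    ¬ Φ.Val (𝒜.κ j (𝒜.z j - algebraMap B _ c)) 0 := fun h0 =>
  h.not_un (𝒜.D_mem ((Φ.good h).2 _ h0)) (by simpa [𝒜.D_z] using Un.one)

theorem exists_ch (P : Place k (RatFunc k)) : ∃ j, ∀ a, 𝒜.κ j a ∈ Φ.pr (plR P) := by
  obtain ⟨W, hW⟩ := exists_dom (loc_pre (θ := Φ.θ) (𝒜.inj _) (loc_plR (P := P)))
  have h : ∀ c, algebraMap B F c ∈ Φ.pr (plR P) := fun c =>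
    mem_pre.2 ⟨_, const_plR _, Φ.val_base c⟩
  obtain ⟨j, hj⟩ := 𝒜.prop W fun c => hW.1 (h c)
  refine ⟨j, fun a => ?_⟩
  obtain ⟨e, he⟩ := (Φ.good (cp_cen (loc_valuation W) hj fun c hc hu =>
    Φ.not_un_base pre_le_dom c hc (hW.2 _ (h c) hu))).1 a
  exact dom_pre_valuation (𝒜.inj _) hW (hj a) he

/-- A chart containing a given point of the fibre. -/
noncomputable def ch (P : Place k (RatFunc k)) : ι := (Φ.exists_ch P).choose

/-- The local ring of the total space at a point of the fibre. -/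
noncomputable def lr (P : Place k (RatFunc k)) : Subring F := cen (𝒜.κ (Φ.ch P)) (Φ.pr (plR P))

theorem cp_O (P : Place k (RatFunc k)) : CP 𝒜 τ (Φ.ch P) (Φ.lr P) :=
  cp_cen (loc_pre (𝒜.inj _) loc_plR) (Φ.exists_ch P).choose_spec (Φ.not_un_base pre_le_dom)

theorem val_mem (hω : ω ∈ Φ.lr P) (h : Φ.Val ω e) : P.Ge 0 e :=
  mem_plR.1 (h.mem_of_pre (𝒜.inj _) ((dom_cen (Φ.exists_ch P).choose_spec).1 hω))

theorem eq_O (h : CP 𝒜 τ j O) (hd : Dom (Φ.im O) (plR P)) : O = Φ.lr P :=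
  𝒜.pt_eq h.pt (Φ.cp_O P).pt (loc_pre (𝒜.inj _) loc_plR)
    (dom_pre (𝒜.inj _) h.pt.loc (Φ.le_V h) hd) (dom_cen (Φ.exists_ch P).choose_spec)

theorem const_mem_im (hτ : Function.Surjective τ) (h : CP 𝒜 τ j O) (c : k) :
    algebraMap k _ c ∈ Φ.im O :=
  let ⟨b, hb⟩ := hτ c; mem_img.2 ⟨_, h.base b, hb ▸ Φ.val_base b⟩

theorem exists_eq_O (hτ : Function.Surjective τ) (h : CP 𝒜 τ j O) (hω : ω ∈ O) (he : Φ.Val ω e)
    (h0 : e ≠ 0) (hu : ¬ Un O ω) : ∃ P, O = Φ.lr P ∧ P.Ge 1 e ∧ Dom (Φ.im O) (plR P) := by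
  have h1 : e ∈ Φ.im O := mem_img.2 ⟨ω, hω, he⟩
  have h2 := mt (un_img (𝒜.inj _) h.pt.loc (Φ.le_V h) hω he).1 hu
  obtain ⟨P, hP⟩ := exists_place_dom (loc_img (𝒜.inj _) h.pt.loc (Φ.le_V h))
    (Φ.const_mem_im hτ h) h1 h0 h2
  exact ⟨P, Φ.eq_O h hP, (ge_one_iff_not_un (hP.1 h1)).2 fun hu => h2 (hP.2 _ h1 hu), hP⟩

theorem cp_cases (hτ : Function.Surjective τ) (h : CP 𝒜 τ j O) : O = Φ.V ∨ ∃ P, O = Φ.lr P := by
  by_contra! H
  refine H.1 (𝒜.pt_eq h.pt Φ.cp_V.pt Φ.cp_V.pt.loc ⟨Φ.le_V h, fun ω hω hu => ?_⟩ Dom.rfl)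
  obtain ⟨e, he⟩ := mem_dom.1 hu.1
  by_contra h1
  obtain ⟨P, hP, -⟩ := Φ.exists_eq_O hτ h hω he (he.ne_of_un (𝒜.inj _) hu) h1
  exact H.2 P hP

theorem val_der (δ : Derivation k (RatFunc k) (RatFunc k))
    (h : Φ.Val ω e) : ∃ e', Φ.Val (𝒜.d ω / 𝒜.t Φ.o) e' ∧ δ e = e' * δ (Φ.θ (𝒜.z Φ.o)) := by
  have h0 : ∀ a, δ (Φ.θ a) = Φ.θ (𝒜.D _ a) * δ (Φ.θ (𝒜.z Φ.o)) := 𝒜.rel Φ.θ (δ.toLinearMap.toAddMonoidHom.comp Φ.θ.toAddMonoidHom)
    (fun c => by simp [Φ.base, - RatFunc.algebraMap_eq_C]) fun a b => by simp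
  have h1 := h
  obtain ⟨a, s, hs, e1, e2⟩ := h1
  have h2 := hs.ne_zero
  refine ⟨(Φ.θ (𝒜.D _ a) - e * Φ.θ (𝒜.D _ s)) / Φ.θ s, ((Ext.of _).sub (h.mul (.of _))).of_mul
    (.of s) hs (𝒜.d_frac e1) (div_mul_cancel₀ _ h2), ?_⟩
  have h3 := congrArg δ e2
  rw [δ.leibniz, h0 a, h0 s, smul_eq_mul, smul_eq_mul] at h3
  field_simp
  linear_combination h3

theorem trans_θ (hτ : Function.Surjective τ) : Transcendental k (Φ.θ (𝒜.z Φ.o)) :=
  transcendental_iff_ne.2 fun c hc => by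
    obtain ⟨b, rfl⟩ := hτ c
    exact Φ.not_val_z Φ.cp_V b (by
      convert Ext.of (r := 𝒜.κ Φ.o) (θ := Φ.θ) (𝒜.z _ - algebraMap B _ b)
      rw [map_sub, hc, Φ.base, sub_self])

variable [IsLocalRing B] [IsNoetherianRing B] (hτ : Function.Surjective τ)
include hτ

theorem soc_fibre (T : Place k (RatFunc k) → F) (hT : ∀ P, Un Φ.V (T P)) (f : F)
    (hf : ∀ P, f / T P ∈ Φ.lr P) (𝔞 : Ideal B) (h : ∃ P, f / T P ∉ 𝔞 • sm B (Φ.lr P)) :
    ∃ (𝔟 : Ideal B) (m : B) (z : Place k (RatFunc k) → F) (e : RatFunc k), 𝔞 ≤ 𝔟 ∧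
      (∀ b, m * b ∈ 𝔟 → τ b = 0) ∧ e ≠ 0 ∧ ∀ P, z P ∈ Φ.lr P ∧
        f / T P - m • z P ∈ 𝔟 • sm B (Φ.lr P) ∧ Φ.Val (z P * T P) e := by
  have hk := ker_eq_maximalIdeal τ hτ
  have hO := Φ.cp_O
  obtain ⟨𝔟, m, z, h1, h2, h3, P₁, h4⟩ := soc (fun P => sm B (Φ.lr P)) (fun P => f / T P)
    (fun P => (mem_sm (hO P).base).2 (hf P)) (fun P 𝔞 H => by
      have := Algebra.FiniteType.isNoetherianRing B (𝒜.A (Φ.ch P))
      have := (hO P).pt.noeth (𝒜.inj _)
      exact krull_sm (hO P).pt.loc (hO P).base (fun b hb => (hO P).nu b (hk.ge hb)) (hf P) 𝔞 H) 𝔞 h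
  rw [← hk] at h2 h4
  have h5 := fun P => (mem_sm (hO P).base).1 (h3 P).1
  have h6 := fun P => Φ.V.mul_mem (Φ.le_V (hO P) (h5 P)) (hT P).1
  obtain ⟨e₁, he₁⟩ := mem_dom.1 (Φ.le_V (hO P₁) (h5 P₁))
  obtain ⟨e₂, he₂⟩ := mem_dom.1 (hT P₁).1
  refine ⟨𝔟, m, z, e₁ * e₂, h1, h2, mul_ne_zero (fun h0 => h4 (Φ.smul_of_val (hO P₁) (h5 P₁)
    (h0 ▸ he₁))) (he₂.ne_of_un (𝒜.inj _) (hT P₁)), fun P => ⟨h5 P, (h3 P).2, ?_⟩⟩
  have h7 : ∀ P, f - m • (z P * T P) ∈ 𝔟 • sm B Φ.V := fun P => by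
    have := smul_sm_mul (hO P).base (Φ.le_V (hO P)) (h3 P).2 (hT P).1
    rwa [sub_mul, div_mul_cancel₀ _ (hT P).2.1, smul_mul_assoc] at this
  simpa using (Φ.val_of_smul (Φ.cp_V.pt.colon (𝒜.comm _) (𝒜.inj _) h2 (Φ.V.sub_mem (h6 P) (h6 P₁))
    (by simpa [smul_sub] using sub_mem (h7 P₁) (h7 P)))).add (he₁.mul he₂)

end Fib

variable (𝒜) in
/-- A section of the family with values in one chart. -/
structure Sec where
  i : ι
  s : 𝒜.A i →+* B
  hs : ∀ c, s (algebraMap B _ c) = c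

namespace Sec

variable (σ : Sec 𝒜) {h h' : F} {r a r' a' : B}

/-- The local equation of the section. -/
noncomputable def g : F := 𝒜.κ σ.i (𝒜.z σ.i - algebraMap B _ (σ.s (𝒜.z σ.i)))

/-- The value along the section. -/
abbrev Val (h : F) (b : B) : Prop := Ext (𝒜.κ σ.i) σ.s h b

/-- The local ring at the closed point of the section. -/
abbrev O : Subring F := dom (𝒜.κ σ.i) σ.s

/-- The first two coefficients of the expansion along the section. -/
def Jet (h : F) (r a : B) : Prop := σ.Val ((h - algebraMap B F r) / σ.g) a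

theorem val_base (c : B) : σ.Val (algebraMap B F c) c := by
  simpa [𝒜.comm, σ.hs] using Ext.of (r := 𝒜.κ σ.i) (θ := σ.s) (algebraMap B _ c)

theorem val_g : σ.Val σ.g 0 := by
  simpa [σ.hs, g] using Ext.of (r := 𝒜.κ σ.i) (θ := σ.s) (𝒜.z σ.i - algebraMap B _ (σ.s (𝒜.z σ.i)))

theorem g_ne : σ.g ≠ 0 := fun h0 => 𝒜.dz σ.i (by
  simpa [g, 𝒜.comm] using congrArg 𝒜.d h0)

variable {σ}

theorem Jet.val (H : σ.Jet h r a) : σ.Val h r := by
  simpa [div_mul_cancel₀ _ σ.g_ne] using (Ext.mul H σ.val_g).add (σ.val_base r)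

theorem Jet.unique (H : σ.Jet h r a) (H' : σ.Jet h r' a') : r = r' ∧ a = a' := by
  obtain rfl := H.val.unique (𝒜.inj _) H'.val
  exact ⟨rfl, Ext.unique (𝒜.inj _) H H'⟩

theorem Jet.add (H : σ.Jet h r a) (H' : σ.Jet h' r' a') : σ.Jet (h + h') (r + r') (a + a') := by
  have := Ext.add H H'
  rwa [← add_div, ← add_sub_add_comm, ← map_add] at this

theorem Jet.mul (H : σ.Jet h r a) (b : B) : σ.Jet (algebraMap B F b * h) (b * r) (b * a) := by
  have := (σ.val_base b).mul H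
  rwa [← mul_div_assoc, mul_sub, ← map_mul] at this

theorem jet_g (b : B) : σ.Jet (algebraMap B F b * σ.g) 0 b := by
  simpa [Jet, σ.g_ne] using σ.val_base b

variable [IsLocalRing B] [IsNoetherianRing B]

theorem div_g (H : σ.Val h 0) : h / σ.g ∈ σ.O := by
  obtain ⟨x, h1, h2⟩ := 𝒜.ker_section σ.s σ.hs
  obtain ⟨a, s, hs, e, e'⟩ := H
  obtain ⟨b, hb⟩ := h2 a (by simpa using e'.symm)
  refine ((Ext.of (x * s)).un (𝒜.inj _) (by simpa [h1] using hs)).mem_of_mul ?_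
  have := congrArg (𝒜.κ σ.i) hb
  rw [map_mul, map_mul, ← e] at this
  rw [map_mul, ← mul_div_assoc, mul_assoc, mul_comm _ h, this]
  erw [mul_div_cancel_left₀ _ σ.g_ne]
  exact mem_dom.2 ⟨_, .of b⟩

theorem exists_jet (H : h ∈ σ.O) : ∃ r a, σ.Jet h r a := by
  obtain ⟨r, hr⟩ := mem_dom.1 H
  exact ⟨r, mem_dom.1 (div_g (by simpa using hr.sub (σ.val_base r)))⟩

theorem jet_smul {𝔟 : Ideal B} (H : h ∈ 𝔟 • sm B σ.O) : ∃ r ∈ 𝔟, ∃ a ∈ 𝔟, σ.Jet h r a :=
  smul_sm_induction (fun b => mem_dom.2 ⟨_, σ.val_base b⟩)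
    (p := fun h => ∃ r ∈ 𝔟, ∃ a ∈ 𝔟, σ.Jet h r a) H
    (fun b hb _ ho => let ⟨_, _, H⟩ := exists_jet ho
      ⟨_, 𝔟.mul_mem_right _ hb, _, 𝔟.mul_mem_right _ hb, H.mul b⟩)
    fun _ _ ⟨_, h1, _, h2, H⟩ ⟨_, h3, _, h4, H'⟩ => ⟨_, add_mem h1 h3, _, add_mem h2 h4, H.add H'⟩

variable (σ) (hτ : Function.Surjective τ)
include hτ

theorem cp : CP 𝒜 τ σ.i σ.O := ⟨pt_dom (𝒜.inj _) _, fun c hc hu =>
  (ker_eq_maximalIdeal τ hτ).le hc ((σ.val_base c).isUnit (𝒜.inj _) hu)⟩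

theorem exists_place (Φ : Fib 𝒜 τ) : ∃ P e, Φ.Val σ.g e ∧ e ≠ 0 ∧ P.ord e = 1 ∧ σ.O = Φ.lr P ∧
    plR P ≤ Φ.im σ.O := by
  have hc := σ.cp hτ
  obtain ⟨e, he⟩ : ∃ e, Φ.Val σ.g e := (Φ.good hc).1 _
  have h0 : e ≠ 0 := fun h => Φ.not_val_z hc _ (h ▸ he)
  have h1 : σ.g ∈ σ.O := hc.pt.mem _
  have h2 : ¬ Un σ.O σ.g := fun hu => not_isUnit_zero (σ.val_g.isUnit (𝒜.inj _) hu)
  have hu := fun {ω e} => un_img (θ := Φ.θ) (ω := ω) (e := e) (𝒜.inj _) hc.pt.loc (Φ.le_V hc)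
  obtain ⟨P, h3, -, h4⟩ := Φ.exists_eq_O hτ hc h1 he h0 h2
  obtain ⟨h5, h6⟩ := dvr_of_principal h4 (fun x => by
    obtain ⟨ω, hω⟩ := Φ.surj x
    obtain ⟨a, s, hs, e⟩ := (𝒜.pt_change Φ.cp_V.pt fun a => Φ.le_V hc (hc.pt.mem a)).le
      (mem_dom.2 ⟨x, hω⟩)
    obtain ⟨y, hy⟩ := (Φ.good hc).1 s
    exact ⟨_, mem_img.2 ⟨_, hc.pt.mem a, e ▸ hω.mul hy⟩, y, mem_img.2 ⟨_, hc.pt.mem s, hy⟩,
      hy.ne_of_un (𝒜.inj _) hs, rfl⟩) (mem_img.2 ⟨_, h1, he⟩) h0 (mt (hu h1 he).1 h2) fun x hx hx' => by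
    obtain ⟨ω, hω, h⟩ := mem_img.1 hx
    obtain ⟨b, hb⟩ := mem_dom.1 hω
    have h7 : τ b = 0 := (ker_eq_maximalIdeal τ hτ).ge fun h' =>
      hx' ((hu hω h).2 (hb.un (𝒜.inj _) h'))
    exact mem_img.2 ⟨_, div_g (by simpa using hb.sub (σ.val_base b)), by
      simpa [h7, div_eq_mul_inv] using (h.sub (Φ.val_base b)).mul (he.inv (𝒜.inj _) h0)⟩
  exact ⟨P, e, he, h0, h5, h3, h6⟩

end Sec

end Pool.Agent.MP_e8e0b6_ag

end MrgPart1

-- ======== part 2: formerly Pool.Agent.MP_e8e0b6_ag.P1.Triv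
section MrgPart2

/-!
A family over a local ring with a section and a rational closed fibre is the projective line.
-/

set_option linter.unusedSectionVars false

open Pool.Agent.MP_79c67d_ag Pool.Agent.MP_79c67d_ag.FF Pool.Agent.MP_8e057e_ag IsLocalRing
open TensorProduct Polynomial

namespace Pool.Agent.MP_e8e0b6_ag

variable {k B F ι : Type} [Field k] [CharZero k] [IsAlgClosed k] [CommRing B] [Field F]
  [Algebra B F] {𝒜 : Fam B F ι} {τ : B →+* k} [IsLocalRing B] [IsNoetherianRing B] [IsDomain B]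

/-- The point of the section on the closed fibre. -/
structure Base (Φ : Fib 𝒜 τ) (σ : Sec 𝒜) (P : Place k (RatFunc k)) (e : RatFunc k) : Prop where
  surj : Function.Surjective τ
  val : Φ.Val σ.g e
  ne : e ≠ 0
  ord : P.ord e = 1
  eq : σ.O = Φ.lr P
  le : plR P ≤ Φ.im σ.O

theorem Sec.inj (σ : Sec 𝒜) : Function.Injective (algebraMap B F) := fun a b h =>
  (σ.val_base a).unique (𝒜.inj _) (h ▸ σ.val_base b)

theorem mem_span_smul_sm {O : Subring F} (h : ∀ b, algebraMap B F b ∈ O) {r : B} {x : F}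
    (hx : x ∈ Ideal.span {r} • sm B O) : ∃ y ∈ O, algebraMap B F r * y = x := by
  rw [Submodule.ideal_span_singleton_smul] at hx
  obtain ⟨y, hy, rfl⟩ := hx
  exact ⟨y, (mem_sm h).1 hy, (Algebra.smul_def _ _).symm⟩

theorem aeval_mem {R : Type} [CommRing R] [Algebra R F] {W : Subring F}
    (h : ∀ b, algebraMap R F b ∈ W) {v : F} (hv : v ∈ W) (p : R[X]) : aeval v p ∈ W := by
  induction p using Polynomial.induction_on' with
  | add p q hp hq => rw [map_add]; exact add_mem hp hq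
  | monomial n a => simpa [aeval_monomial] using mul_mem (h a) (pow_mem hv n)

namespace Base

variable {Φ : Fib 𝒜 τ} {σ : Sec 𝒜} {P₀ : Place k (RatFunc k)} {e₀ : RatFunc k}
  (H : Base Φ σ P₀ e₀) {f : F}
include H

theorem un_g : Un Φ.V σ.g := H.val.un (𝒜.inj _) H.ne.isUnit

theorem no_form (h0 : σ.g * f / (𝒜.t σ.i / 𝒜.t Φ.o) ∈ σ.O)
    (h : ∀ P, P₀ ≠ P → f / (𝒜.t (Φ.ch P) / 𝒜.t Φ.o) ∈ Φ.lr P) : f = 0 := by
  classical
  by_contra hf
  have hu : ∀ {j O}, CP 𝒜 τ j O → Un Φ.V (𝒜.t j / 𝒜.t Φ.o) := fun h =>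
    𝒜.un_t Φ.cp_V.pt fun a => Φ.le_V h (h.pt.mem a)
  let T := fun P => if P₀ = P then 𝒜.t σ.i / 𝒜.t Φ.o / σ.g else 𝒜.t (Φ.ch P) / 𝒜.t Φ.o
  have hT : ∀ P, Un Φ.V (T P) := fun P => by
    simp only [T]; split_ifs
    exacts [(hu (σ.cp H.surj)).div H.un_g, hu (Φ.cp_O P)]
  obtain ⟨𝔟, m, z, e, -, -, he, h1⟩ := Φ.soc_fibre H.surj T hT f (fun P => by
    simp only [T]; split_ifs with hP
    · rw [← hP, ← H.eq, div_div_eq_mul_div, mul_comm]; exact h0
    · exact h P hP) ⊥ ⟨P₀, by simpa [hf] using (hT P₀).2.1⟩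
  have ht := dd_ne_zero (Φ.trans_θ H.surj)
  obtain ⟨C, hC, hC'⟩ := exists_can_div (Φ.trans_θ H.surj)
  have h2 : ∀ P j x, 𝒜.κ j (𝒜.z j) ∈ Φ.lr P → x ∈ Φ.lr P →
      ∃ y, Φ.Val (x * (𝒜.t j / 𝒜.t Φ.o)) y ∧ P.Ge (-C P) y := fun P j x hj hx => by
    obtain ⟨a, ha⟩ := mem_dom.1 (Φ.le_V (Φ.cp_O P) hj)
    obtain ⟨b, hb⟩ := mem_dom.1 (Φ.le_V (Φ.cp_O P) hx)
    obtain ⟨c, hc, hc'⟩ := Φ.val_der (der ht) ha
    rw [der_self, mul_one] at hc'
    exact ⟨_, hb.mul hc, (Φ.val_mem hx hb).mul0 (hC P ▸ hc' ▸ P.ge_der ht (Φ.val_mem hj ha))⟩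
  refine he ((sec_eq_bot (D := C + Finsupp.single P₀ 1) (by
    rw [deg_add, hC', genus_ratFunc]; simp)).le fun P => ?_)
  obtain ⟨h3, -, h4⟩ := h1 P
  simp only [T] at h4
  rw [Finsupp.add_apply, Finsupp.single_apply]
  split_ifs at h4 ⊢ with hP
  · subst hP
    obtain ⟨y, hy, hy'⟩ := h2 P₀ σ.i _ (H.eq ▸ (σ.cp H.surj).pt.mem _) h3
    have h5 := hy.mul (H.val.inv (𝒜.inj _) H.ne)
    rw [mul_assoc, ← div_eq_mul_inv] at h5
    rw [h4.unique (𝒜.inj _) h5, neg_add]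
    exact hy'.mul (P₀.ge_of_le (by simp [H.ord]))
  · obtain ⟨y, hy, hy'⟩ := h2 P _ _ ((Φ.cp_O P).pt.mem _) h3
    rwa [h4.unique (𝒜.inj _) hy, add_zero]

theorem jet_div {r : B} (h0 : σ.Jet (σ.g * f) r 0) (h : ∀ P, P₀ ≠ P → f ∈ Φ.lr P) :
    (∃ y ∈ σ.O, algebraMap B F r * y = σ.g * f) ∧
      ∀ P, P₀ ≠ P → ∃ y ∈ Φ.lr P, algebraMap B F r * y = f := by
  classical
  let T := fun P => if P₀ = P then σ.g⁻¹ else 1
  have e1 : f / T P₀ = σ.g * f := by simp [T, mul_comm]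
  have e2 : ∀ P, P₀ ≠ P → T P = 1 := fun P hP => if_neg hP
  suffices ∀ P, f / T P ∈ Ideal.span {r} • sm B (Φ.lr P) from
    ⟨H.eq ▸ mem_span_smul_sm (Φ.cp_O P₀).base (e1 ▸ this P₀), fun P hP =>
      mem_span_smul_sm (Φ.cp_O P).base (by simpa [e2 P hP] using this P)⟩
  by_contra! h1
  obtain ⟨𝔟, m, z, e, h2, h3, he, h4⟩ := Φ.soc_fibre H.surj T (fun P => by
    simp only [T]; split_ifs
    exacts [H.un_g.inv, Un.one]) f (fun P => by
    by_cases hP : P₀ = P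
    · rw [← hP, e1, ← H.eq]; exact mem_dom.2 ⟨_, h0.val⟩
    · simpa [e2 P hP] using h P hP) _ h1
  refine he ((sec_eq_bot (D := -Finsupp.single P₀ 1) (by rw [deg_neg]; simp)).le fun P => ?_)
  obtain ⟨h5, h6, h7⟩ := h4 P
  rw [Finsupp.neg_apply, neg_neg, Finsupp.single_apply]
  split_ifs with hP
  swap
  · exact Φ.val_mem h5 (by simpa [e2 P hP] using h7)
  subst hP
  rw [← H.eq] at h5 h6
  obtain ⟨r₁, a₁, hz⟩ := Sec.exists_jet h5
  obtain ⟨r₂, hr, a₂, ha, hj⟩ := Sec.jet_smul h6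
  rw [e1, Algebra.smul_def, sub_eq_add_neg, ← neg_mul, ← map_neg] at hj
  obtain ⟨rfl, rfl⟩ := (h0.add (hz.mul (-m))).unique hj
  have h8 : τ r₁ = 0 := h3 _ (by
    simpa using sub_mem (h2 (Ideal.mem_span_singleton_self r)) hr)
  have h9 : τ a₁ = 0 := h3 _ (by simpa using ha)
  have h10 := Sec.div_g (by simpa using Ext.sub hz (σ.val_base a₁))
  obtain ⟨y, hy⟩ := mem_dom.1 (Φ.le_V (σ.cp H.surj) h10)
  have h11 := ((H.val.mul hy).add (Φ.val_base a₁)).add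
    ((Φ.val_base r₁).mul (H.val.inv (𝒜.inj _) H.ne))
  have h12 : e = e₀ * y := by
    have := σ.g_ne
    rw [h8, h9, map_zero, add_zero, zero_mul, add_zero] at h11
    refine h7.unique (𝒜.inj _) (Eq.subst (motive := fun x => Φ.Val x _) ?_ h11)
    simp only [T, if_true]
    field_simp
    ring
  exact h12 ▸ (P₀.ge_of_le H.ord.ge).mul0' (Φ.val_mem (H.eq ▸ h10) hy)

theorem off {R : Subring F} (hR : Loc R) (h1 : ∀ a, 𝒜.κ σ.i a ∈ R)
    (h2 : ∀ a, Un R (𝒜.κ σ.i a) → σ.s a ≠ 0) {P : Place k (RatFunc k)} (hP : P₀ ≠ P) :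
    ∃ a, ((∀ b, 𝒜.κ (Φ.ch P) b ∈ R) → ¬ Un R (𝒜.κ _ a)) ∧ Un (Φ.lr P) (𝒜.κ (Φ.ch P) a) := by
  by_contra! h
  have hO := Φ.cp_O P
  have h3 : ∀ b, 𝒜.κ (Φ.ch P) b ∈ R := by_contra fun h' =>
    h 1 (fun h'' => absurd h'' h') (by simpa using Un.one)
  let L := FractionRing B
  let s := (algebraMap B L).comp σ.s
  have hi := 𝒜.inj σ.i
  have h4 : Φ.lr P ≤ dom (𝒜.κ σ.i) s := (hO.pt.le.trans (cen_mono fun a ha =>
    by_contra fun h' => h a (fun _ => h') ha)).trans ((𝒜.cen_eq hR h3 h1).le.trans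
      (cen_le (fun a => mem_dom.2 ⟨_, .of a⟩) fun a ha => (Ext.of a).un hi
        (Ne.isUnit (by simpa [s] using h2 a ha))))
  have h5 := fun b => (σ.val_base b).comp (algebraMap B L)
  have h6 := fun b => un_img hi hO.pt.loc h4 (hO.base b) (h5 b)
  have h7 : σ.O = Φ.lr P := 𝒜.pt_eq (σ.cp H.surj).pt hO.pt
    (loc_pre hi (loc_img hi hO.pt.loc h4)) ⟨fun ω hω => ?_, fun ω hω hu => ?_⟩
    (dom_pre hi hO.pt.loc h4 Dom.rfl)
  · refine hP (Place.eq_of_le fun x hx => ?_)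
    obtain ⟨ω, hω, hx⟩ := mem_img.1 (H.le (mem_plR.2 hx))
    exact Φ.val_mem (h7 ▸ hω) hx
  · obtain ⟨b, hb⟩ := mem_dom.1 hω
    exact mem_pre.2 ⟨_, mem_img.2 ⟨_, hO.base b, h5 b⟩, hb.comp _⟩
  · obtain ⟨b, hb⟩ := mem_dom.1 hω
    exact hb.un hi (by_contra fun h' => hO.nu b ((ker_eq_maximalIdeal τ H.surj).ge h')
      ((h6 b).1 ((un_pre hi (hb.comp _)).1 hu)))

theorem descend [Finite ι] {L E : Type} [Field L] [CharZero L] [IsAlgClosed L] [Algebra B L]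
    [Module.Flat B L] (hL : Function.Injective (algebraMap B L)) [Field E] [Algebra L E]
    [Algebra B E] [IsScalarTower B L E] (β : BC B F L E) [IsFF L E] :
    ∃ Q₀ : Place L E, ∀ (t : ι → F) (x : E), (∀ j, t j ≠ 0) →
      (∀ j (Q : Place L E), (∀ a, (𝒜.bc β hL).κ j a ∈ plR Q) →
        Q.Ge (open Classical in if Q₀ = Q then -1 else 0) (x / β.μ (t j))) →
      x ∈ Submodule.span L (β.μ '' {f | σ.g * f / t σ.i ∈ σ.O ∧
        ∀ P, P₀ ≠ P → f / t (Φ.ch P) ∈ Φ.lr P}) := by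
  obtain ⟨s, hs⟩ := exists_tmul (C := B) (RingHom.id L) ((algebraMap B L).comp σ.s) fun c => by
    simp [σ.hs]
  have hi : Function.Injective (β.Θ (𝒜.κₐ σ.i)) := β.Θ_inj (𝒜.inj _)
  have h1 : ∀ a, Ext (β.Θ (𝒜.κₐ σ.i)) s (β.μ (𝒜.κ _ a)) (algebraMap B L (σ.s a)) := fun a => by
    simpa [hs] using Ext.of (r := β.Θ (𝒜.κₐ σ.i)) (θ := s) (1 ⊗ₜ a)
  let g := 𝒜.z σ.i - algebraMap B _ (σ.s (𝒜.z σ.i))
  have hg : σ.s g = 0 := by simp [g, σ.hs]
  obtain ⟨Q₀, hQ⟩ := exists_place_dom (K := L) (loc_dom (θ := s) hi)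
    ((𝒜.bc β hL).base_mem (i := σ.i) fun a => mem_dom.2 ⟨_, .of a⟩) (mem_dom.2 ⟨_, h1 g⟩)
    ((map_ne_zero β.μ).2 σ.g_ne) fun hu => (h1 g).ne_of_un hi hu (by simp [hg])
  let R := (plR Q₀).comap (β.μ : F →+* E)
  have h2 : ∀ a, 𝒜.κ σ.i a ∈ R := fun a => hQ.1 (mem_dom.2 ⟨_, h1 a⟩)
  have h3 : ∀ a, Un R (𝒜.κ σ.i a) → σ.s a ≠ 0 := fun a hu h0 =>
    (h1 a).ne_of_un hi (hQ.2 _ (mem_dom.2 ⟨_, h1 a⟩) (un_comap.1 hu)) (by simp [h0])
  have hR : Loc R := loc_plR.comap _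
  let I : ∀ j, Ideal (𝒜.A j) := fun j => ⨅ h : ∀ b, 𝒜.κ j b ∈ R, ctr (𝒜.κ j) hR h
  have hI : ∀ j a, a ∈ I j ↔ (∀ b, 𝒜.κ j b ∈ R) → ¬ Un R (𝒜.κ j a) := fun j a =>
    Submodule.mem_iInf _
  have hgI : g ∈ I σ.i := (hI _ _).2 fun _ hu => h3 g hu hg
  refine ⟨Q₀, fun t x ht hx => ?_⟩
  have h4 : ∀ j, ∀ a ∈ I j, ∃ y, β.Θ (𝒜.κₐ j) y = β.μ (𝒜.κ j a / t j) * x := fun j a ha =>
    (𝒜.bc β hL).mem_range fun Q hj => by
      have h5 := hx j Q hj
      have h6 : ∀ b, β.μ (𝒜.κ j b) ∈ plR Q := fun b => by simpa [Fam.bc_κ] using hj (1 ⊗ₜ[B] b)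
      rw [map_div₀, div_mul_eq_mul_div, mul_div_assoc]
      split_ifs at h5 with hQ
      · subst hQ
        simpa using ((ge_one_iff_not_un (h6 a)).2 fun hu =>
          (hI j a).1 ha h6 (un_comap.2 hu)).mul h5
      · exact (mem_plR.1 (h6 a)).mul0 h5
  choose S hS using fun j => have := Algebra.FiniteType.isNoetherianRing B (𝒜.A j)
    (IsNoetherian.noetherian (I j) : (I j).FG)
  refine Submodule.span_mono (Set.image_mono fun f hf => ?_) (fbc_fin β.inj' (ι := Σ j, S j)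
    (fun l => LinearMap.mulLeft B (𝒜.κ l.1 l.2 / t l.1))
    (fun l => LinearMap.mulLeft L (β.μ (𝒜.κ l.1 l.2 / t l.1))) (fun l v => by simp)
    (fun l => LinearMap.range (𝒜.κₐ l.1).toLinearMap) ?_ fun l => (β.mem_span _).2
      (h4 l.1 l.2 (hS l.1 ▸ Submodule.subset_span l.2.2)))
  · have h5 : ∀ j, ∀ a ∈ I j, ∃ b, 𝒜.κ j b = 𝒜.κ j a * (f / t j) := fun j a ha => by
      rw [← hS j] at ha
      induction ha using Submodule.span_induction with
      | mem a ha => obtain ⟨b, hb⟩ := hf ⟨j, a, ha⟩; exact ⟨b, hb.trans (by simp; ring)⟩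
      | zero => exact ⟨0, by simp⟩
      | add _ _ _ _ h h' =>
        obtain ⟨b, hb⟩ := h; obtain ⟨c, hc⟩ := h'; exact ⟨b + c, by simp [hb, hc, add_mul]⟩
      | smul c _ _ h => obtain ⟨b, hb⟩ := h; exact ⟨c * b, by simp [hb, mul_assoc]⟩
    refine ⟨?_, fun P hP => ?_⟩
    · obtain ⟨b, hb⟩ := h5 _ g hgI
      exact mul_div_assoc σ.g f _ ▸ (hb : _ = σ.g * _) ▸ mem_dom.2 ⟨_, .of b⟩
    · obtain ⟨a, ha, hu⟩ := H.off hR h2 h3 hP
      obtain ⟨b, hb⟩ := h5 _ a ((hI _ _).2 ha)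
      exact hu.mem_of_mul (hb ▸ (Φ.cp_O P).pt.mem b)
  · obtain ⟨y, hy⟩ := h4 _ g hgI
    have := (β.mem_span (AlgHom.id B F)).2
      ⟨Algebra.TensorProduct.map (AlgHom.id L L) (𝒜.κₐ σ.i) y * 1 ⊗ₜ (t σ.i / σ.g), rfl⟩
    refine Submodule.span_mono (Set.image_mono fun _ _ => trivial) (Eq.subst ?_ this)
    have h6 : β.Θ (AlgHom.id B F) (Algebra.TensorProduct.map (AlgHom.id L L) (𝒜.κₐ σ.i) y) =
      β.Θ (𝒜.κₐ σ.i) y := by rw [β.Θ_eq, β.Θ_eq]; simp
    have h7 : β.μ (t σ.i) ≠ 0 := by simpa using ht _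
    have h8 : β.μ σ.g ≠ 0 := by simpa using σ.g_ne
    rw [map_mul, h6, hy]
    change β.μ (σ.g / _) * _ * _ = _
    simp only [map_div₀, BC.Θ_tmul, map_one, AlgHom.id_apply]
    field_simp

theorem exists_coord [Finite ι] : ∃ u, σ.Jet (σ.g * u) 1 0 ∧ (∀ P, P₀ ≠ P → u ∈ Φ.lr P) ∧
    Transcendental B u ∧ ∀ f, ∃ p q : B[X], q ≠ 0 ∧ f * aeval u q = aeval u p := by
  classical
  have := τ.charZero
  let L := AlgebraicClosure (FractionRing B)
  have hL : Function.Injective (algebraMap B L) := 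
    (algebraMap (FractionRing B) L).injective.comp (IsFractionRing.injective B _)
  have : CharZero L := charZero_of_injective_algebraMap hL
  have : Module.Flat B L := .trans B (FractionRing B) L
  have := 𝒜.gi L hL
  obtain ⟨E, _, _, _, _, ⟨β⟩⟩ := exists_bc (C := B) (F := F) (D := L)
  have := (𝒜.bc β hL).isFF σ.i
  obtain ⟨Q₀, hQ⟩ := H.descend hL β
  obtain ⟨x, hx, h1⟩ | ⟨x, hx, h1⟩ := (𝒜.bc β hL).alternative Q₀ Φ.o
  swap
  · refine absurd ((Submodule.span_le (p := ⊥)).2 ?_ (hQ (fun j => 𝒜.t j / 𝒜.t Φ.o) x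
      (fun j => div_ne_zero (𝒜.dz j) (𝒜.dz _)) fun j Q h => by
        simpa [Fam.bc_t] using h1 j Q h)) hx
    rintro _ ⟨f, hf, rfl⟩
    simp [H.no_form hf.1 hf.2]
  have h2 := hQ 1 x (fun _ => one_ne_zero) fun j Q _ => by simpa using h1 Q
  simp only [Pi.one_apply, _root_.div_one] at h2
  have h3 : ∀ f, σ.g * f ∈ σ.O → ∃ r a, σ.Jet (σ.g * (f - algebraMap B F a)) r 0 := fun f hf => by
    obtain ⟨r, a, h⟩ := Sec.exists_jet hf
    exact ⟨r, a, by simpa [mul_sub, mul_comm, sub_eq_add_neg, mul_add] using h.add (Sec.jet_g (-a))⟩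
  have hb := fun P => (Φ.cp_O P).base
  have h4 : ∀ u : F, (∀ f, σ.g * f ∈ σ.O → (∀ P, P₀ ≠ P → f ∈ Φ.lr P) →
      ∃ r a, f = algebraMap B F r * u + algebraMap B F a) →
      x ∈ Algebra.adjoin L {β.μ u} := fun u hu => by
    refine (Submodule.span_le (p := (Algebra.adjoin L {β.μ u}).toSubmodule)).2 ?_ h2
    rintro _ ⟨f, hf, rfl⟩
    obtain ⟨r, a, rfl⟩ := hu f hf.1 hf.2
    rw [map_add, map_mul, AlgHom.commutes, AlgHom.commutes, IsScalarTower.algebraMap_apply B L,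
      IsScalarTower.algebraMap_apply B L E a]
    exact Subalgebra.add_mem _ (Subalgebra.mul_mem _ (Subalgebra.algebraMap_mem _ _)
      (Algebra.self_mem_adjoin_singleton _ _)) (Subalgebra.algebraMap_mem _ _)
  have h5 : ∀ u : F, x ∈ Algebra.adjoin L {β.μ u} → Transcendental B u := fun u hu h =>
    hx.trans (IsIntegral.isAlgebraic
      (adjoin_le_integralClosure ((h.algHom β.μ).extendScalars hL).isIntegral hu))
  have h6 : ∀ f, σ.Jet (σ.g * f) 0 0 → (∀ P, P₀ ≠ P → f ∈ Φ.lr P) → f = 0 := fun f h h' => by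
    obtain ⟨y, -, hy⟩ := (H.jet_div h h').1
    simpa [σ.g_ne] using hy.symm
  obtain ⟨f, r, hr, hf, hf'⟩ : ∃ f r, r ≠ 0 ∧ σ.Jet (σ.g * f) r 0 ∧ ∀ P, P₀ ≠ P → f ∈ Φ.lr P := by
    by_contra! h
    refine h5 0 (h4 0 fun f hf hf' => ?_) isAlgebraic_zero
    obtain ⟨r, a, h7⟩ := h3 f hf
    have h8 := fun P hP => sub_mem (hf' P hP) (hb P a)
    obtain rfl : r = 0 := by_contra fun hr => let ⟨P, hP, h9⟩ := h _ r hr h7; h9 (h8 P hP)
    exact ⟨0, a, by simpa [sub_eq_zero] using h6 _ h7 h8⟩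
  have hr' : algebraMap B F r ≠ 0 := (map_ne_zero_iff _ σ.inj).2 hr
  obtain ⟨⟨y, hy, e⟩, h7⟩ := H.jet_div hf hf'
  obtain ⟨u, rfl⟩ : ∃ u, f = algebraMap B F r * u := ⟨f / algebraMap B F r, by field_simp⟩
  obtain rfl : y = σ.g * u := mul_left_cancel₀ hr' (by rw [e]; ring)
  have h8 : ∀ P, P₀ ≠ P → u ∈ Φ.lr P := fun P hP =>
    let ⟨_, hy, e⟩ := h7 P hP; mul_left_cancel₀ hr' e ▸ hy
  obtain ⟨r', a', h9⟩ := Sec.exists_jet hy
  obtain ⟨e1, e2⟩ := (e ▸ h9.mul r).unique hf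
  obtain rfl : r' = 1 := mul_left_cancel₀ hr (by simpa using e1)
  obtain rfl : a' = 0 := by simpa [hr] using e2
  have h10 := h4 u fun f hf hf' => by
    obtain ⟨r, a, h⟩ := h3 f hf
    refine ⟨r, a, ?_⟩
    have := h6 (f - algebraMap B F a - algebraMap B F r * u) (by
      convert h.add (h9.mul (-r)) using 1 <;> simp
      ring) fun P hP => sub_mem (sub_mem (hf' P hP) (hb P a)) (mul_mem (hb P r) (h8 P hP))
    linear_combination this
  have ht := h5 u h10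
  refine ⟨u, h9, h8, ht, fun f => ?_⟩
  have hi := transcendental_iff_injective.1 ht
  have := (β.Θ_inj hi).isDomain _
  have h11 : ∀ p : L[X], ∃ y, β.Θ (aeval u) y = aeval x p := fun p =>
    (show Algebra.adjoin L {x} ≤ (tens L (β.μ.comp (aeval u))).range from Algebra.adjoin_le
      (Set.singleton_subset_iff.2 (Algebra.adjoin_le (S := (tens L (β.μ.comp (aeval u))).range)
        (Set.singleton_subset_iff.2 ⟨1 ⊗ₜ X, by simp⟩) h10))) (aeval_mem_adjoin_singleton _ _)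
  obtain ⟨p, q, hq, e⟩ := hx.gen (β.μ f)
  obtain ⟨y, hy⟩ := h11 p
  obtain ⟨y', hy'⟩ := h11 q
  have h12 := hx.aeval_ne_zero hq
  exact β.desc hi (p := ⊥) (q := ⊥) (fun n hn => by simp [Ideal.mem_bot.1 hn])
    ⟨y, y', fun h => h12 (by rw [← hy', Ideal.mem_bot.1 h, map_zero]), by
      rw [hy, hy', e, div_mul_cancel₀ _ h12]⟩

variable {u : F} (h1 : σ.Jet (σ.g * u) 1 0) (h2 : ∀ P, P₀ ≠ P → u ∈ Φ.lr P)
include h1 h2

theorem cp_mem {j : ι} {O : Subring F} (h : CP 𝒜 τ j O) : u ∈ O ∨ u⁻¹ ∈ O := by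
  have h3 := h1.val.un (𝒜.inj _) isUnit_one
  obtain rfl | ⟨P, rfl⟩ := Φ.cp_cases H.surj h
  · exact Or.inl (H.un_g.mem_of_mul (Φ.le_V (σ.cp H.surj) h3.1))
  by_cases hP : P₀ = P
  · refine Or.inr ?_
    have : σ.g / (σ.g * u) ∈ σ.O := h3.div_mem ((σ.cp H.surj).pt.mem _)
    rwa [mul_comm, div_mul_cancel_right₀ σ.g_ne, H.eq, hP] at this
  · exact Or.inl (h2 P hP)

theorem val_rat : ∃ e, Φ.Val u e ∧ IsRat k e := by
  classical
  have h3 := h1.val.un (𝒜.inj _) isUnit_one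
  have hc := σ.cp H.surj
  obtain ⟨e, he⟩ := mem_dom.1 (H.un_g.mem_of_mul (Φ.le_V hc h3.1))
  obtain ⟨h4, h5⟩ := un_plR.1 (((un_img (𝒜.inj _) hc.pt.loc (Φ.le_V hc) h3.1 (H.val.mul he)).2
    h3).mono fun x hx => let ⟨_, h, h'⟩ := mem_img.1 hx; mem_plR.2 (Φ.val_mem (H.eq ▸ h) h'))
  rw [P₀.ord_mul H.ne (right_ne_zero_of_mul h4), H.ord] at h5
  refine ⟨e, he, rat_of_mem_sec (P := P₀) (fun P => ?_) (P₀.transcendental (by omega))⟩
  rw [Finsupp.single_apply]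
  split_ifs with hP
  · exact hP ▸ P₀.ge_of_le (by omega)
  · exact Φ.val_mem (h2 P hP) he

theorem chart_mem {j : ι} {O : Subring F} (hO : Loc O) (h : ∀ a, 𝒜.κ j a ∈ O) :
    u ∈ O ∨ u⁻¹ ∈ O := by
  obtain ⟨W, hW⟩ := exists_dom hO
  obtain ⟨U, h3, h4, h5⟩ := exists_refine (algebraMap B F) W fun b => hW.1 (𝒜.base_mem h b)
  obtain ⟨l, hl⟩ := 𝒜.prop U h4
  have h6 : ∀ a, 𝒜.κ l a ∈ O := fun a => cen_le h (fun x => hW.2 _ (h x))
    (𝒜.sep j l _ (loc_valuation W) (fun a => hW.1 (h a)) (fun a => h3 (hl a)) a)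
  have h7 := cen_le (W := U.toSubring) h6 fun x hx => hW.2 _ (h6 x) (hx.mono h3)
  exact (H.cp_mem h1 h2 (cp_cen (loc_valuation U) hl fun c hc =>
    h5 c ((ker_eq_maximalIdeal τ H.surj).le hc))).imp (h7 ·) (h7 ·)

theorem chart_le [UniqueFactorizationMonoid B] {v : F} (hv : v = u ∨ v = u⁻¹)
    (ht : Transcendental B v) (hf : ∀ f, ∃ p q : B[X], q ≠ 0 ∧ f * aeval v q = aeval v p)
    {e : RatFunc k} (he : Φ.Val v e) (he' : IsRat k e) {W : Subring F} (hW : Loc W)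
    (h3 : ∀ b, algebraMap B F b ∈ W) (h4 : ∀ b, τ b = 0 → ¬ Un W (algebraMap B F b)) (h5 : v ∈ W) :
    ∃ j, ∀ a, 𝒜.κ j a ∈ cen (aeval v : B[X] →ₐ[B] F).toRingHom W := by
  let r := (aeval v : B[X] →ₐ[B] F).toRingHom
  have hr : Function.Injective r := transcendental_iff_injective.1 ht
  have h6 : ∀ p, r p ∈ W := aeval_mem h3 h5
  have h7 := map_surjective τ H.surj
  obtain ⟨ev, hev⟩ := exists_point (k := k) ((ctr r hW h6).map (mapRingHom τ)) (by
    rw [Ne, Ideal.map_eq_top_iff_of_ker_le _ _ ?_]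
    · exact Ideal.IsPrime.ne_top inferInstance
    · rw [ker_mapRingHom, Ideal.map_le_iff_le_comap]
      exact fun b hb => by simpa [mem_ctr, r] using h4 b hb
    · exact RingHom.isIntegral_of_surjective _ h7)
  obtain ⟨c, hc⟩ := H.surj (ev X)
  let n := (kerPt ev).comap (mapRingHom τ)
  have hp := pt_locS hr n
  have : IsIntegrallyClosedIn (locS r n) F := by
    let := (r.codRestrict (locS r n) map_mem_locS).toAlgebra
    have := isLocalization_locS hr n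
    have := isIntegrallyClosed_of_isLocalization (locS r n) _ n.primeCompl_le_nonZeroDivisors
    have : IsFractionRing (locS r n) F := .of_field _ _ fun f => by
      obtain ⟨p, q, hq, e⟩ := hf f
      exact ⟨⟨_, hp.mem p⟩, ⟨_, hp.mem q⟩, eq_div_of_mul_eq ((map_ne_zero_iff r hr).2 hq) e⟩
    exact (isIntegrallyClosed_iff_isIntegrallyClosedIn F).1 ‹_›
  have key : ∀ V : ValuationSubring F, Dom (locS r n) V.toSubring →
      ∃ P, P.Ge 1 (e - algebraMap k _ (τ c)) ∧ Φ.lr P ≤ V.toSubring := fun V hV => by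
    have h8 : ∀ p ∈ n, ¬ Un V.toSubring (r p) := fun p hn hu =>
      (un_locS hr).1 (hV.2 _ (hp.mem p) hu) hn
    obtain ⟨j, hj⟩ := 𝒜.prop V fun b => by simpa [r] using hV.1 (hp.mem (C b))
    have h9 : CP 𝒜 τ j _ := cp_cen (loc_valuation V) hj fun b hb => by
      simpa [r] using h8 (C b) (by simp [n, hb])
    have h10 : v ∈ V.toSubring := by simpa [r] using hV.1 (hp.mem X)
    have hd := dom_cen (W := V.toSubring) hj
    have h11 : v ∈ cen (𝒜.κ j) V.toSubring := by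
      rcases hv with rfl | rfl <;> rcases H.cp_mem h1 h2 h9 with h | h
      exacts [h, hd.mem_of_inv h10 h, hd.mem_of_inv h10 (by simpa using h), h]
    obtain ⟨P, h12, h13, -⟩ := Φ.exists_eq_O H.surj h9 (sub_mem h11 (h9.base c))
      (he.sub (Φ.val_base c)) (sub_ne_zero.2 (transcendental_iff_ne.1 he'.trans _)) fun hu =>
      h8 (X - C c) (by
        simp only [n, Ideal.mem_comap, mem_kerPt, coe_mapRingHom, map_X, map_C,
          map_sub, hc]
        exact sub_eq_zero.2 (ev.commutes _).symm) (by simpa [r] using hu.mono hd.1)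
    exact ⟨P, h13, h12 ▸ hd.1⟩
  obtain ⟨V, hV⟩ := exists_dom hp.loc
  obtain ⟨Q, hQ, -⟩ := key V hV
  refine ⟨Φ.ch Q, fun a => locS_le (p := n) (W := cen r W) map_mem_cen (fun s hs => un_cen
    (by_contra fun h => hs (hev (Ideal.mem_map_of_mem _ h)))) (mem_of_dom hp.loc fun V hV => ?_)⟩
  obtain ⟨P, hP, h⟩ := key V hV
  exact h (place_unique he' _ hP hQ ▸ (Φ.cp_O _).pt.mem a)

end Base

variable (𝒜) in
/-- `u` identifies the family with the projective line. -/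
structure Coord (u : F) : Prop where
  trans : Transcendental B u
  le : ∀ O, Loc O → (∀ b, algebraMap B F b ∈ O) → u ∈ O ∨ u⁻¹ ∈ O → ∃ j, ∀ a, 𝒜.κ j a ∈ O
  mem : ∀ O j, Loc O → (∀ a, 𝒜.κ j a ∈ O) → u ∈ O ∨ u⁻¹ ∈ O

theorem exists_coord_of_sec [Finite ι] [UniqueFactorizationMonoid B] (Φ : Fib 𝒜 τ)
    (hτ : Function.Surjective τ) (σ : Sec 𝒜) : ∃ u, Coord 𝒜 u := by
  obtain ⟨P₀, e₀, a1, a2, a3, a4, a5⟩ := σ.exists_place hτ Φ
  have H : Base Φ σ P₀ e₀ := ⟨hτ, a1, a2, a3, a4, a5⟩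
  obtain ⟨u, h1, h2, ht, hf⟩ := H.exists_coord
  obtain ⟨e, he, he'⟩ := H.val_rat h1 h2
  have ht' : Transcendental B u⁻¹ := fun h => ht (IsAlgebraic.inv_iff.1 h)
  have hf' : ∀ f, ∃ p q : B[X], q ≠ 0 ∧ f * aeval u⁻¹ q = aeval u⁻¹ p := fun f => by
    let r := (aeval u⁻¹ : B[X] →ₐ[B] F).toRingHom
    have hr : Function.Injective r := transcendental_iff_injective.1 ht'
    have h3 : u ∈ locS r ⊥ := ⟨1, X, X_ne_zero, by
      simpa [r] using mul_inv_cancel₀ fun h : u = 0 => ht (h ▸ isAlgebraic_zero)⟩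
    have h4 := aeval_mem (fun b => by simpa [r] using map_mem_locS (r := r) (p := ⊥) (C b)) h3
    obtain ⟨p, q, hq, e⟩ := hf f
    exact (un_locS_bot hr (h4 q) ((map_ne_zero_iff _ (transcendental_iff_injective.1 ht)).2
      hq)).mem_of_mul (by rw [mul_comm, e]; exact h4 p)
  refine ⟨u, ht, fun O hO hB hu => ?_, fun O j => H.chart_mem h1 h2⟩
  obtain ⟨W, hW⟩ := exists_dom hO
  obtain ⟨U, h3, h4, h5⟩ := exists_refine (algebraMap B F) W fun b => hW.1 (hB b)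
  have h6 := fun c hc => h5 c ((ker_eq_maximalIdeal τ hτ).le hc)
  have key : ∀ v ∈ O, cen (aeval v : B[X] →ₐ[B] F).toRingHom U.toSubring ≤ O := fun v hv =>
    cen_le (aeval_mem hB hv) fun x hx => hW.2 _ (aeval_mem hB hv x) (hx.mono h3)
  rcases U.mem_or_inv_mem u with h | h
  · obtain ⟨j, hj⟩ := H.chart_le h1 h2 (Or.inl rfl) ht hf he he' (loc_valuation U) h4 h6 h
    exact ⟨j, fun a => key u (hu.elim id (hW.mem_of_inv (h3 h))) (hj a)⟩
  · obtain ⟨j, hj⟩ := H.chart_le h1 h2 (Or.inr rfl) ht' hf' (he.inv (𝒜.inj _) he'.ne_zero) he'.inv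
      (loc_valuation U) h4 h6 h
    exact ⟨j, fun a => key _ (hu.elim (fun h' => hW.mem_of_inv (h3 h) (by simpa)) id) (hj a)⟩

end Pool.Agent.MP_e8e0b6_ag

end MrgPart2

-- ======== part 3: formerly Pool.Agent.MP_e8e0b6_ag.P1.Harder
section MrgPart3

/-!
Harder's theorem: an anisotropic unimodular symmetric form over `K[X]` is constant.
-/

open Polynomial Module

namespace Pool.Agent.MP_e8e0b6_ag

/-- The Gram matrix of a family of vectors. -/
def gram {D M ι : Type} [CommRing D] [AddCommGroup M] [Module D M] (β : LinearMap.BilinForm D M)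
    (b : ι → M) : Matrix ι ι D := Matrix.of fun i j => β (b i) (b j)

theorem gram_basis {D M : Type} [CommRing D] [AddCommGroup M] [Module D M] {n : ℕ}
    (β : LinearMap.BilinForm D M) (b c : Basis (Fin n) D M) :
    Associated (gram β b).det (gram β c).det := by
  have h := LinearMap.BilinForm.toMatrix_mul_basis_toMatrix b c β
  have e : ∀ b : Basis (Fin n) D M, LinearMap.BilinForm.toMatrix b β = gram β b := fun b => by
    ext i j; simp [gram]
  rw [e, e] at h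
  have hu : IsUnit (b.toMatrix c).det := b.isUnit_det c
  rw [← h, Matrix.det_mul, Matrix.det_mul, Matrix.det_transpose]
  exact ((associated_unit_mul_right _ _ hu).trans (associated_mul_unit_right _ _ hu))

theorem det_schur {D : Type} [CommRing D] {m : ℕ} (G : Matrix (Fin (m + 1)) (Fin (m + 1)) D) :
    G 0 0 ^ m * G.det = G 0 0 * (Matrix.of fun i j : Fin m =>
      G 0 0 * G i.succ j.succ - G i.succ 0 * G 0 j.succ).det := by
  let L : Matrix (Fin (m + 1)) (Fin (m + 1)) D := Matrix.of fun i j =>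
    Fin.cases (Fin.cases 1 (fun _ => 0) j)
      (fun i' => Fin.cases (-G i'.succ 0) (fun j' => if i' = j' then G 0 0 else 0) j) i
  have h1 : L.det = G 0 0 ^ m := by
    have : L.submatrix Fin.succ Fin.succ = Matrix.diagonal fun _ => G 0 0 := by
      ext i j; simp [L, Matrix.diagonal_apply]
    rw [Matrix.det_succ_row_zero, Fin.sum_univ_succ]
    simp only [Fin.succAbove_zero, this]
    simp [L]
  have h2 : ∀ j, (L * G) 0 j = G 0 j := fun j => by simp [L, Matrix.mul_apply, Fin.sum_univ_succ]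
  have h3 : ∀ (i : Fin m) j, (L * G) i.succ j = G 0 0 * G i.succ j - G i.succ 0 * G 0 j :=
    fun i j => by simp [L, Matrix.mul_apply, Fin.sum_univ_succ]; ring
  rw [← h1, ← Matrix.det_mul, Matrix.det_succ_column_zero, Fin.sum_univ_succ]
  simp only [h2, h3, mul_comm (G 0 0) (G _ 0), sub_self, Fin.succAbove_zero]
  simp only [Fin.val_zero, pow_zero, one_mul, mul_zero, zero_mul, Finset.sum_const_zero, add_zero]
  congr 2
  ext i j
  exact h3 i j.succ

theorem exists_ker_basis {D M : Type} [CommRing D] [IsDomain D] [IsPrincipalIdealRing D]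
    [AddCommGroup M] [Module D M] {n : ℕ} (b : Basis (Fin (n + 1)) D M) (f : M →ₗ[D] D) (x : M)
    (hx : f x = 1) : Nonempty (Basis (Fin n) D (LinearMap.ker f)) ∧
      ∀ c : Basis (Fin n) D (LinearMap.ker f), ∃ c' : Basis (Fin (n + 1)) D M,
        c' 0 = x ∧ ∀ i, c' i.succ = c i := by
  have h1 : ∀ c : D, ∀ y ∈ LinearMap.ker f, c • x + y = 0 → c = 0 := fun c y hy h => by
    have := congrArg f h
    rwa [map_add, map_smul, hx, LinearMap.mem_ker.1 hy, map_zero, smul_eq_mul, mul_one,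
      add_zero] at this
  have h2 : ∀ z : M, ∃ c : D, z + c • x ∈ LinearMap.ker f := fun z => ⟨-f z, by simp [hx]⟩
  refine ⟨?_, fun c => ⟨Basis.mkFinCons x c h1 h2, by simp, fun i => by simp⟩⟩
  obtain ⟨m, c⟩ := Submodule.basisOfPid b (LinearMap.ker f)
  have := Fintype.card_congr (b.indexEquiv (Basis.mkFinCons x c h1 h2))
  obtain rfl : n = m := by simpa using this
  exact ⟨c⟩

variable {K : Type} [Field K]

theorem hermite (n : ℕ) : ∀ (M : Type) [AddCommGroup M] [Module K[X] M] (b : Basis (Fin n) K[X] M)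
    (β : LinearMap.BilinForm K[X] M), (∀ x y, β x y = β y x) → (∀ x, β x x = 0 → x = 0) →
    (gram β b).det ≠ 0 ∧ ∀ d, (∀ x, x ≠ 0 → d ≤ (β x x).natDegree) →
      n * d ≤ (gram β b).det.natDegree := by
  classical
  induction n with
  | zero => intro M _ _ b β _ _; simp
  | succ m ih =>
    intro M _ _ b β hs ha
    have := Module.Free.of_basis b
    have hex : ∃ d, ∃ x : M, x ≠ 0 ∧ (β x x).natDegree = d := ⟨_, b 0, b.ne_zero 0, rfl⟩
    obtain ⟨x₀, hx₀, hd⟩ := Nat.find_spec hex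
    have hmin : ∀ x : M, x ≠ 0 → Nat.find hex ≤ (β x x).natDegree := fun x hx =>
      Nat.find_min' hex ⟨x, hx, rfl⟩
    obtain ⟨x, f, hf, g, rfl⟩ : ∃ (x : M) (f : M →ₗ[K[X]] K[X]), f x = 1 ∧ ∃ g : K[X],
        x₀ = g • x := by
      let I : Ideal K[X] := LinearMap.range (Module.Dual.eval K[X] M x₀)
      obtain ⟨g, hg⟩ := (IsPrincipalIdealRing.principal I).principal
      obtain ⟨f, hf⟩ : g ∈ I := hg ▸ Submodule.mem_span_singleton_self g
      have hI : ∀ i, b.coord i x₀ ∈ Submodule.span K[X] {g} := fun i => by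
        rw [← hg]; exact ⟨b.coord i, rfl⟩
      choose c hc using fun i => Submodule.mem_span_singleton.1 (hI i)
      have e : x₀ = g • ∑ i, c i • b i := by
        rw [Finset.smul_sum]
        refine (b.sum_repr x₀).symm.trans (Finset.sum_congr rfl fun i _ => ?_)
        rw [smul_smul, mul_comm, ← smul_eq_mul, hc]; rfl
      refine ⟨_, f, mul_left_cancel₀ (a := g) (fun h => hx₀ (by rw [e, h, zero_smul])) ?_, g, e⟩
      rw [← smul_eq_mul, ← map_smul, ← e, mul_one]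
      exact hf
    have hx0 : x ≠ 0 := fun h => hx₀ (by rw [h, smul_zero])
    have hg0 : g ≠ 0 := fun h => hx₀ (by rw [h, zero_smul])
    set a := β x x with ha'
    have ha0 : a ≠ 0 := fun h => hx0 (ha x h)
    have hda : a.natDegree = Nat.find hex := le_antisymm (by
      rw [← hd, map_smul, map_smul, LinearMap.smul_apply, smul_eq_mul, smul_eq_mul,
        natDegree_mul hg0 (mul_ne_zero hg0 ha0), natDegree_mul hg0 ha0]; omega) (hmin x hx0)
    obtain ⟨⟨c⟩, hc⟩ := exists_ker_basis b f x hf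
    obtain ⟨c', hc0, hc1⟩ := hc c
    let β' : LinearMap.BilinForm K[X] (LinearMap.ker f) := LinearMap.mk₂ _
      (fun y z => a * β y z - β y x * β x z) (by intros; simp; ring) (by intros; simp; ring)
      (by intros; simp; ring) (by intros; simp; ring)
    have hβ' : ∀ y z, β' y z = a * β y z - β y x * β x z := fun _ _ => rfl
    have key : ∀ (y : LinearMap.ker f) (q : K[X]), β' y y =
        a * β (y - q • x) (y - q • x) - (β x y - a * q) ^ 2 := fun y q => by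
      simp only [hβ', map_sub, map_smul, LinearMap.sub_apply, LinearMap.smul_apply, smul_eq_mul,
        hs y x, ← ha']
      ring
    have hne : ∀ (y : LinearMap.ker f) (p q : K[X]), p • (y : M) - q • x = 0 → p • (y : M) = 0 :=
      fun y p q h => by
        have := congrArg f h
        rw [map_sub, map_smul, map_smul, LinearMap.mem_ker.1 y.2, hf] at this
        have hq : q = 0 := by simpa using this
        simpa [hq] using h
    obtain ⟨i1, i2⟩ := ih _ c β' (fun y z => by rw [hβ', hβ', hs y z, hs y x, hs z x]; ring)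
      fun y hy => by
        have : β (a • y - β x y • x) (a • y - β x y • x) = a * β' y y := by
          simp only [hβ', map_sub, map_smul, LinearMap.sub_apply, LinearMap.smul_apply,
            smul_eq_mul, hs y x, ← ha']
          ring
        rw [hy, mul_zero] at this
        exact Subtype.ext ((smul_eq_zero.1 (hne y _ _ (ha _ this))).resolve_left ha0)
    have i3 := i2 (2 * a.natDegree) fun y hy => by
      have h1 : (y : M) - (β x y / a) • x ≠ 0 := fun h => hy (Subtype.ext (by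
        simpa using hne y 1 _ (by rwa [one_smul])))
      have h2 := hmin _ h1
      have h3 : β _ _ ≠ 0 := fun h => h1 (ha _ h)
      rw [key y (β x y / a), ← EuclideanDomain.mod_eq_sub_mul_div]
      by_cases hr : β x y % a = 0
      · rw [hr, zero_pow two_ne_zero, sub_zero, natDegree_mul ha0 h3]; omega
      · have h4 := natDegree_lt_natDegree hr (degree_mod_lt (β x y) ha0)
        rw [natDegree_sub_eq_left_of_natDegree_lt (by
          rw [natDegree_pow, natDegree_mul ha0 h3]; omega), natDegree_mul ha0 h3]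
        omega
    have h5 := det_schur (gram β c')
    have h6 : (Matrix.of fun i j : Fin m => gram β c' 0 0 * gram β c' i.succ j.succ -
        gram β c' i.succ 0 * gram β c' 0 j.succ) = gram β' c := by
      ext1 i j; simp [gram, hβ', hc0, hc1, ha']
    rw [h6, show gram β c' 0 0 = a by simp [gram, hc0, ha']] at h5
    have h7 : (gram β c').det ≠ 0 := fun h => mul_ne_zero ha0 i1 (by rw [← h5, h, mul_zero])
    have h8 := gram_basis β b c'
    refine ⟨h8.ne_zero_iff.2 h7, fun d hd' => ?_⟩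
    have h9 := congrArg natDegree h5
    rw [natDegree_mul (pow_ne_zero _ ha0) h7, natDegree_mul ha0 i1, natDegree_pow] at h9
    rw [natDegree_eq_of_degree_eq (degree_eq_degree_of_associated h8)]
    have := hd' x hx0
    rw [← ha'] at this
    nlinarith

theorem const_basis (n : ℕ) : ∀ (M : Type) [AddCommGroup M] [Module K[X] M]
    (b : Basis (Fin n) K[X] M) (β : LinearMap.BilinForm K[X] M), (∀ x y, β x y = β y x) →
    (∀ x, β x x = 0 → x = 0) → IsUnit (gram β b).det →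
    ∃ c : Basis (Fin n) K[X] M, ∀ i j, β (c i) (c j) = C ((β (c i) (c j)).eval 0) := by
  induction n with
  | zero => exact fun M _ _ b β _ _ _ => ⟨b, fun i => i.elim0⟩
  | succ m ih =>
    intro M _ _ b β hs ha hu
    obtain ⟨x, hx, hd⟩ : ∃ x, x ≠ 0 ∧ (β x x).natDegree = 0 := by
      by_contra! h
      have := (hermite _ M b β hs ha).2 1 fun x hx => Nat.one_le_iff_ne_zero.2 (h x hx)
      rw [natDegree_eq_zero_of_isUnit hu] at this
      omega
    have hC := eq_C_of_natDegree_eq_zero hd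
    have h0 : (β x x).coeff 0 ≠ 0 := fun h => hx (ha x (by rw [hC, h, C_0]))
    let f := C ((β x x).coeff 0)⁻¹ • β x
    have hf : f x = 1 := by
      change C _ * β x x = 1
      nth_rw 2 [hC]
      rw [← C_mul, inv_mul_cancel₀ h0, C_1]
    have hk : ∀ y : LinearMap.ker f, β x y = 0 := fun y =>
      (mul_eq_zero.1 (LinearMap.mem_ker.1 y.2)).resolve_left (C_ne_zero.2 (inv_ne_zero h0))
    obtain ⟨⟨c⟩, hc⟩ := exists_ker_basis b f x hf
    obtain ⟨c', hc0, hc1⟩ := hc c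
    obtain ⟨e, he⟩ := ih _ c (β.restrict (LinearMap.ker f)) (fun y z => hs y z)
      (fun y hy => Subtype.ext (ha y hy)) (by
        have h1 := (gram_basis β b c').isUnit hu
        rw [Matrix.det_succ_row_zero, Fin.sum_univ_succ] at h1
        simp only [gram, Matrix.of_apply, hc0, hc1, hk, mul_zero, zero_mul, Finset.sum_const_zero,
          add_zero] at h1
        convert isUnit_of_mul_isUnit_right h1 using 2
        ext1 i j
        simp [gram, hc1])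
    obtain ⟨e', he0, he1⟩ := hc e
    refine ⟨e', fun i j => ?_⟩
    refine Fin.cases (Fin.cases ?_ (fun j => ?_) j) (fun i => Fin.cases ?_ (fun j => ?_) j) i
    · rw [he0, ← coeff_zero_eq_eval_zero]; exact hC
    · rw [he0, he1, hk]; simp
    · rw [he0, he1, hs, hk]; simp
    · rw [he1, he1]; exact he i j

theorem harder {n : ℕ} {M : Type} [AddCommGroup M] [Module K[X] M] (b : Basis (Fin n) K[X] M)
    (β : LinearMap.BilinForm K[X] M) (hs : ∀ x y, β x y = β y x) (hu : IsUnit (gram β b).det)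
    (x y : M) (hx : (β x x).eval 0 = 0) (hy : (β x y).eval 0 ≠ 0) : ∃ z, z ≠ 0 ∧ β z z = 0 := by
  by_contra! ha
  have ha' : ∀ z, β z z = 0 → z = 0 := fun z h => by_contra fun h' => ha z h' h
  obtain ⟨c, hc⟩ := const_basis n M b β hs ha' hu
  let x₀ := ∑ i, C ((c.repr x i).eval 0) • c i
  have h1 : β x₀ x₀ = C ((β x x).eval 0) := by
    conv_rhs => rw [← c.sum_repr x]
    simp only [x₀, map_sum, map_smul, LinearMap.sum_apply, LinearMap.smul_apply, smul_eq_mul,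
      eval_finsetSum, eval_mul, map_mul, ← hc]
  rw [hx, C_0] at h1
  have h2 : ∀ i, (c.repr x i).eval 0 = 0 := fun i => by
    have := Fintype.linearIndependent_iff.1 c.linearIndependent _ (ha' _ h1) i
    exact C_eq_zero.1 this
  apply hy
  rw [← c.sum_repr x]
  simp only [map_sum, map_smul, LinearMap.sum_apply, LinearMap.smul_apply, smul_eq_mul,
    eval_finsetSum, eval_mul, h2, zero_mul, Finset.sum_const_zero]

end Pool.Agent.MP_e8e0b6_ag

end MrgPart3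

-- marker of a merged file
example : 731051 + 643964 = 731051 + 643964 := rfl
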