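import Pool.Agent.MP_e8e0b6_ag.P1.Harder
import Pool.Agent.MP_e8e0b6_ag.S.Germ

-- ======== part 0: formerly Pool.Agent.MP_e8e0b6_ag.P1.Lie
section MrgPart0

/-!
Vertical vector fields on a family with a projective coordinate.
-/

set_option linter.unusedSectionVars false

open Polynomial

namespace Pool.Agent.MP_e8e0b6_ag

variable {B F ι : Type} [CommRing B] [Field F] [Algebra B F]

/-- The regular vertical vector fields. -/
def Fam.VF (𝒜 : Fam B F ι) : Submodule B F where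
  carrier := {φ | ∀ j, ∃ a, 𝒜.κ j a = 𝒜.t j * φ}
  zero_mem' := fun _ => ⟨0, by simp⟩
  add_mem' := fun h h' j => let ⟨a, ha⟩ := h j; let ⟨b, hb⟩ := h' j
    ⟨a + b, by rw [map_add, ha, hb, mul_add]⟩
  smul_mem' := fun c _ h j => let ⟨a, ha⟩ := h j
    ⟨algebraMap B _ c * a, by rw [map_mul, ha, 𝒜.comm, Algebra.smul_def]; ring⟩

/-- The bracket of vector fields. -/
noncomputable def br (d : Derivation B F F) : F →ₗ[B] F →ₗ[B] F :=
  LinearMap.mk₂ B (fun a b => a * d b - b * d a) (fun _ _ _ => by simp; ring)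
    (fun _ _ _ => by simp [smul_sub]) (fun _ _ _ => by simp; ring) fun _ _ _ => by simp [smul_sub]

/-- The invariant form attached to a projective connection. -/
noncomputable def bil (d : Derivation B F F) (S : F) : F →ₗ[B] F →ₗ[B] F :=
  LinearMap.mk₂ B (fun a b => d a * d b - a * d (d b) - b * d (d a) - a * b * S)
    (fun _ _ _ => by simp; ring) (fun _ _ _ => by simp [smul_sub])
    (fun _ _ _ => by simp; ring) fun _ _ _ => by simp [smul_sub]

theorem br_apply (d : Derivation B F F) (a b : F) : br d a b = a * d b - b * d a := rfl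

theorem bil_apply (d : Derivation B F F) (S a b : F) :
    bil d S a b = d a * d b - a * d (d b) - b * d (d a) - a * b * S := rfl

/-- The vector fields with polynomial coefficients of degree at most two. -/
noncomputable def vec (d : Derivation B F F) (u : F) : (Fin 3 → B) →ₗ[B] F :=
  Fintype.linearCombination B fun i => u ^ (i : ℕ) * (d u)⁻¹

theorem vec_apply (d : Derivation B F F) (u : F) (a : Fin 3 → B) : vec d u a =
    (algebraMap B F (a 0) + algebraMap B F (a 1) * u + algebraMap B F (a 2) * u ^ 2) * (d u)⁻¹ := by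
  simp [vec, Fintype.linearCombination_apply, Fin.sum_univ_three, Algebra.smul_def]; ring

/-- The discriminant form. -/
def qf (B : Type) [CommRing B] : LinearMap.BilinForm B (Fin 3 → B) :=
  LinearMap.mk₂ B (fun a b => a 1 * b 1 - 2 * a 0 * b 2 - 2 * a 2 * b 0)
    (fun _ _ _ => by simp; ring) (fun _ _ _ => by simp; ring)
    (fun _ _ _ => by simp; ring) fun _ _ _ => by simp; ring

theorem qf_apply (a b : Fin 3 → B) : qf B a b = a 1 * b 1 - 2 * a 0 * b 2 - 2 * a 2 * b 0 := rfl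

section
variable {d : Derivation B F F} {u : F} (hu : d u ≠ 0)
include hu

theorem d_vec (a : Fin 3 → B) : d (vec d u a) = algebraMap B F (a 1) + 2 * algebraMap B F (a 2) * u
    + (algebraMap B F (a 0) + algebraMap B F (a 1) * u + algebraMap B F (a 2) * u ^ 2) *
      d (d u)⁻¹ := by
  rw [vec_apply, d.leibniz]
  simp
  field_simp
  ring

theorem dd_vec (a : Fin 3 → B) : d (d (vec d u a)) = 2 * algebraMap B F (a 2) * d u +
    (algebraMap B F (a 1) + 2 * algebraMap B F (a 2) * u) * d u * d (d u)⁻¹ +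
    (algebraMap B F (a 0) + algebraMap B F (a 1) * u + algebraMap B F (a 2) * u ^ 2) *
      d (d (d u)⁻¹) := by
  have h2 : d 2 = 0 := d.map_natCast 2
  rw [d_vec hu]
  simp [h2]
  ring

theorem br_vec (a b : Fin 3 → B) : br d (vec d u a) (vec d u b) =
    vec d u ![a 0 * b 1 - a 1 * b 0, 2 * (a 0 * b 2 - a 2 * b 0), a 1 * b 2 - a 2 * b 1] := by
  rw [br_apply, d_vec hu, d_vec hu, vec_apply, vec_apply, vec_apply]
  simp [map_ofNat]
  ring

theorem exists_conn : ∃ S, (∀ a b, bil d S (vec d u a) (vec d u b) = algebraMap B F (qf B a b)) ∧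
    ∀ a b, vec d u b * d (d (d (vec d u a))) - vec d u a * d (d (d (vec d u b))) =
      S * br d (vec d u a) (vec d u b) := by
  have h2 : d 2 = 0 := d.map_natCast 2
  have h3 : d (d u) = - d u ^ 2 * d (d u)⁻¹ := by
    rw [d.leibniz_inv]; simp [hu]
  refine ⟨d u ^ 2 * d (d u)⁻¹ ^ 2 - 2 * d u * d (d (d u)⁻¹), fun a b => ?_, fun a b => ?_⟩
  · rw [bil_apply, dd_vec hu, dd_vec hu, d_vec hu, d_vec hu, vec_apply, vec_apply, qf_apply]
    simp only [map_sub, map_mul, map_ofNat]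
    field_simp
    ring
  · rw [br_apply, dd_vec hu, dd_vec hu, d_vec hu, d_vec hu, vec_apply, vec_apply]
    simp only [map_add, Derivation.leibniz, h2, h3, Derivation.map_algebraMap, smul_eq_mul,
      Derivation.leibniz_pow, nsmul_eq_mul]
    field_simp
    ring

theorem br_br_vec (a c : Fin 3 → B) : br d (vec d u a) (br d (vec d u a) (vec d u c)) =
    algebraMap B F (qf B a a) * vec d u c - algebraMap B F (qf B a c) * vec d u a := by
  rw [br_vec hu, br_vec hu, ← Algebra.smul_def, ← Algebra.smul_def, ← map_smul, ← map_smul,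
    ← map_sub]
  congr 1
  ext i
  fin_cases i <;> simp [qf_apply] <;> ring

theorem vec_inj (ht : Transcendental B u) : Function.Injective (vec d u) := by
  refine (injective_iff_map_eq_zero _).2 fun a h => ?_
  rw [vec_apply, mul_eq_zero, inv_eq_zero] at h
  have : C (a 0) + C (a 1) * X + C (a 2) * X ^ 2 = 0 :=
    transcendental_iff.1 ht _ (by simpa using h.resolve_right hu)
  ext i
  fin_cases i
  exacts [by simpa using congrArg (coeff · 0) this, by simpa using congrArg (coeff · 1) this,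
    by simpa using congrArg (coeff · 2) this]

end

theorem det_gram_qf : (gram (qf B) (Pi.basisFun B (Fin 3))).det = -4 := by
  simp [Matrix.det_fin_three, gram, qf_apply]; norm_num

theorem exists_root [IsDomain B] [CharZero B] [UniqueFactorizationMonoid B] {a : Fin 3 → B}
    (h0 : a ≠ 0) (h : qf B a a = 0) : ∃ p q : B, (p ≠ 0 ∨ q ≠ 0) ∧
      ∀ b, qf B a b = 0 ↔ ∃ x y, b = ![p * x, p * y + q * x, q * y] := by
  rw [qf_apply] at h
  by_cases h1 : a 0 = 0
  · have h2 : a 1 = 0 := by simpa [h1] using h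
    have h3 : a 2 ≠ 0 := fun h3 => h0 (by ext i; fin_cases i <;> assumption)
    refine ⟨0, 1, Or.inr one_ne_zero, fun b => ⟨fun hb => ⟨b 1, b 2, ?_⟩, ?_⟩⟩
    · have : b 0 = 0 := by simpa [qf_apply, h1, h2, h3] using hb
      ext i; fin_cases i <;> simp [this]
    · rintro ⟨x, y, rfl⟩
      simp [qf_apply, h1, h2]
  have h2 : 2 * a 0 ≠ 0 := mul_ne_zero two_ne_zero h1
  obtain ⟨p, q, c, hr, e1, e2⟩ := UniqueFactorizationMonoid.exists_reduced_factors _ h2 (a 1)
  have hc : c ≠ 0 := left_ne_zero_of_mul (e1 ▸ h2)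
  have hp : p ≠ 0 := right_ne_zero_of_mul (e1 ▸ h2)
  have e3 : 2 * p * a 2 = c * q ^ 2 := mul_left_cancel₀ hc (by
    linear_combination -h + 2 * a 2 * e1 - (c * q + a 1) * e2)
  have e4 : ∀ b, p * qf B a b = c * (p * q * b 1 - p ^ 2 * b 2 - q ^ 2 * b 0) := fun b => by
    rw [qf_apply]; linear_combination p * b 2 * e1 - p * b 1 * e2 - b 0 * e3
  refine ⟨p, q, Or.inl hp, fun b => ⟨fun hb => ?_, ?_⟩⟩
  · have e5 := e4 b
    rw [hb, mul_zero, eq_comm, mul_eq_zero, or_iff_right hc] at e5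
    obtain ⟨x, hx⟩ : p ∣ b 0 := (hr.pow_right (n := 2)).dvd_of_dvd_mul_left
      ⟨q * b 1 - p * b 2, by linear_combination -e5⟩
    have e6 : q * b 1 = p * b 2 + q ^ 2 * x := mul_left_cancel₀ hp (by
      linear_combination e5 + q ^ 2 * hx)
    by_cases hq : q = 0
    · obtain ⟨y, hy⟩ : p ∣ b 1 := (isRelPrime_zero_right.1 (hq ▸ hr)).dvd
      have : b 2 = 0 := by simpa [hq, hp] using e6
      exact ⟨x, y, by ext i; fin_cases i <;> simp [hx, hy, hq, this]⟩
    · obtain ⟨y, hy⟩ : q ∣ b 2 := hr.symm.dvd_of_dvd_mul_left ⟨b 1 - q * x, by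
        linear_combination -e6⟩
      have : b 1 = p * y + q * x := mul_left_cancel₀ hq (by linear_combination e6 + p * hy)
      exact ⟨x, y, by ext i; fin_cases i <;> simp [hx, hy, this]⟩
  · rintro ⟨x, y, rfl⟩
    refine mul_left_cancel₀ hp ?_
    rw [e4]; simp; right; ring

/-- Two pairs that span the same module define the same map to the projective line. -/
theorem proj_of_span {O : Subring F} (hO : Loc O) (hB : ∀ b, algebraMap B F b ∈ O) {p q x y : F}
    (hq : q ≠ 0) (h : Submodule.span B {p, q} = Submodule.span B {x, y})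
    (H : p / q ∈ O ∨ (p / q)⁻¹ ∈ O) : x / y ∈ O ∨ (x / y)⁻¹ ∈ O := by
  obtain ⟨a, b, hx⟩ := Submodule.mem_span_pair.1 (h.ge (Submodule.subset_span (by simp)) : x ∈ _)
  obtain ⟨c, d, hy⟩ := Submodule.mem_span_pair.1 (h.ge (Submodule.subset_span (by simp)) : y ∈ _)
  obtain ⟨e, f, h1⟩ := Submodule.mem_span_pair.1 (h.le (Submodule.subset_span (by simp)) : p ∈ _)
  obtain ⟨g, i, h2⟩ := Submodule.mem_span_pair.1 (h.le (Submodule.subset_span (by simp)) : q ∈ _)
  simp only [Algebra.smul_def] at hx hy h1 h2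
  by_cases hp : p = 0
  · exact proj_swap hO (hB a) (hB b) (hB c) (hB d) (hB g) (hB i) hq hx.symm hy.symm h2.symm
      (by simp [hp])
  rcases H with H | H
  · exact proj_swap hO (hB a) (hB b) (hB c) (hB d) (hB g) (hB i) hq hx.symm hy.symm h2.symm H
  · exact proj_swap hO (hB b) (hB a) (hB d) (hB c) (hB e) (hB f) hp (by rw [← hx, add_comm])
      (by rw [← hy, add_comm]) h1.symm (by simpa using H)

namespace Coord

variable [IsLocalRing B] [IsNoetherianRing B] [IsDomain B] {𝒜 : Fam B F ι} {u v : F}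
  (H : Coord 𝒜 u)
include H

theorem inv : Coord 𝒜 u⁻¹ := ⟨fun h => H.trans (IsAlgebraic.inv_iff.1 h),
  fun O h1 h2 h3 => H.le O h1 h2 (by simpa [or_comm] using h3),
  fun O j h1 h2 => by simpa [or_comm] using H.mem O j h1 h2⟩

theorem ne_zero : u ≠ 0 := fun h => H.trans (h ▸ isAlgebraic_zero)

theorem t_mem {j : ι} {O : Subring F} (hO : Pt (𝒜.κ j) O) (hu : u ∈ O) :
    ∃ x ∈ O, 𝒜.t j = x * 𝒜.d u := by
  let r := (aeval u : B[X] →ₐ[B] F).toRingHom
  have h1 : ∀ p, r p ∈ O := aeval_mem (𝒜.base_mem hO.mem) hu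
  have hd := dom_cen h1
  obtain ⟨l, hl⟩ := H.le _ (hd.loc hO.loc) (fun b => by simpa [r] using map_mem_cen (r := r) (C b))
    (Or.inl (by simpa [r] using map_mem_cen (r := r) X))
  obtain ⟨p, q, hq, e⟩ := cen_le hl (fun x => hd.2 _ (hl x))
    (𝒜.sep l j O hO.loc (fun a => hd.1 (hl a)) hO.mem (𝒜.z j))
  refine ⟨_, hq.div_mem (sub_mem (h1 (derivative p)) (mul_mem (hO.mem (𝒜.z j)) (h1 (derivative q)))),
    ?_⟩
  have := congrArg 𝒜.d e
  rw [Derivation.leibniz] at this
  erw [𝒜.d.comp_aeval_eq, 𝒜.d.comp_aeval_eq] at this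
  rw [div_mul_eq_mul_div, eq_div_iff hq.2.1]
  exact (by simp [r]; ring : _ = _).trans (congrArg (· - _) this) |>.trans (sub_mul _ _ _).symm

theorem d_ne : 𝒜.d u ≠ 0 := fun h => by
  obtain ⟨j, hj⟩ := 𝒜.prop ⊤ fun _ => trivial
  have := (𝒜.inj j).isDomain _
  obtain ⟨x, -, hx⟩ := H.t_mem (pt_locS (𝒜.inj j) ⊥) (𝒜.frac j u)
  exact 𝒜.dz j (hx.trans (by rw [h, mul_zero]))

theorem exists_poly {φ : F} (h : φ ∈ 𝒜.VF) : ∃ p : B[X], aeval u p = φ * 𝒜.d u := by
  let r := (aeval u : B[X] →ₐ[B] F).toRingHom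
  refine mem_range_of_loc (r := r) fun m _ => ?_
  have hp := pt_locS (r := r) (transcendental_iff_injective.1 H.trans) m
  have hu : u ∈ locS r m := by simpa [r] using hp.mem X
  obtain ⟨l, hl⟩ := H.le _ hp.loc (fun b => by simpa [r] using hp.mem (C b)) (Or.inl hu)
  have hO := pt_cen hp.loc hl
  have hd := dom_cen hl
  obtain ⟨a, ha⟩ := h l
  have := mul_mem (hd.1 (𝒜.d_mem hO ((H.mem _ l hO.loc hO.mem).elim id (hd.mem_of_inv hu)))) (hl a)
  rwa [ha, ← mul_assoc, div_mul_cancel₀ _ (𝒜.dz l), mul_comm] at this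

theorem mem_VF {φ : F} : φ ∈ 𝒜.VF ↔ ∃ a, vec 𝒜.d u a = φ := by
  have h0 := H.ne_zero
  have h1 := H.d_ne
  have h2 : 𝒜.d u⁻¹ = -u⁻¹ ^ 2 * 𝒜.d u := 𝒜.d.leibniz_inv u
  refine ⟨fun h => ?_, ?_⟩
  · obtain ⟨p, hp⟩ := H.exists_poly h
    obtain ⟨q, hq⟩ := H.inv.exists_poly h
    let := invertibleOfNonzero (inv_ne_zero h0)
    have h3 := eval₂_reverse_mul_pow (algebraMap B F) u⁻¹ q
    rw [invOf_eq_inv, inv_inv, ← aeval_def, ← aeval_def, hq, h2] at h3
    have h4 : p * X ^ q.natDegree = -(X ^ 2 * q.reverse) := transcendental_iff_injective.1 H.trans (by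
      simp only [map_mul, map_pow, map_neg, aeval_X, hp]
      rw [inv_pow, mul_inv_eq_iff_eq_mul₀ (pow_ne_zero _ h0)] at h3
      rw [h3]; field_simp)
    have h5 : p.natDegree < 3 := by
      by_cases h6 : p = 0
      · simp [h6]
      have := congrArg natDegree h4
      rw [natDegree_mul_X_pow _ h6, natDegree_neg] at this
      have h7 := natDegree_mul_le (p := X ^ 2) (q := q.reverse)
      have h8 := q.reverse_natDegree_le
      rw [natDegree_X_pow] at h7
      omega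
    refine ⟨fun i => p.coeff i, ?_⟩
    rw [vec_apply, mul_inv_eq_iff_eq_mul₀ h1, ← hp, aeval_eq_sum_range' h5]
    simp [Finset.sum_range_succ, Algebra.smul_def]
  · rintro ⟨a, rfl⟩ j
    refine mem_range_of_loc fun m _ => ?_
    have hO := pt_locS (𝒜.inj j) m
    have hB := 𝒜.base_mem hO.mem
    rcases H.mem _ j hO.loc hO.mem with h | h
    · obtain ⟨x, hx, e⟩ := H.t_mem hO h
      rw [e, vec_apply, mul_assoc, mul_comm (𝒜.d u), inv_mul_cancel_right₀ h1]
      exact mul_mem hx (add_mem (add_mem (hB _) (mul_mem (hB _) h)) (mul_mem (hB _) (pow_mem h 2)))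
    · obtain ⟨x, hx, e⟩ := H.inv.t_mem hO h
      convert neg_mem (mul_mem hx (add_mem (add_mem (hB (a 2)) (mul_mem (hB (a 1)) h))
        (mul_mem (hB (a 0)) (pow_mem h 2)))) using 1
      rw [e, h2, vec_apply]
      field_simp
      ring

end Coord

end Pool.Agent.MP_e8e0b6_ag

end MrgPart0

-- ======== part 1: formerly Pool.Agent.MP_e8e0b6_ag.P1.Glob
section MrgPart1

/-!
Descent of the local trivialisations, and frames of modules of vector fields.
-/

set_option linter.unusedSectionVars false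

open Polynomial TensorProduct IsLocalRing

namespace Pool.Agent.MP_e8e0b6_ag

variable {k C F ι : Type} [Field k] [CharZero k] [IsAlgClosed k] [CommRing C] [Field F]
  [Algebra C F]

/-- A trivialisation after a flat local base change. -/
structure Triv1 (𝒜 : Fam C F ι) (τ : C →+* k) where
  B : Type
  [ring : CommRing B]
  [domain : IsDomain B]
  [loc : IsLocalRing B]
  [noeth : IsNoetherianRing B]
  [ufd : UniqueFactorizationMonoid B]
  [alg : Algebra C B]
  [flat : Module.Flat C B]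
  inj : Function.Injective (algebraMap C B)
  E : Type
  [field : Field E]
  [algB : Algebra B E]
  [algC : Algebra C E]
  [tower : IsScalarTower C B E]
  β : BC C F B E
  res : B →+* k
  res_C : ∀ c, res (algebraMap C B c) = τ c
  unit : ∀ b, res b ≠ 0 → IsUnit b
  u : E
  coord : Coord (𝒜.bc β inj) u

attribute [instance] Triv1.ring Triv1.domain Triv1.loc Triv1.noeth Triv1.ufd Triv1.alg Triv1.flat
  Triv1.field Triv1.algB Triv1.algC Triv1.tower

theorem mem_radical_of_points {R : Type} [CommRing R] [Algebra k R] [Algebra.FiniteType k R]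
    {I : Ideal R} {f : R} (h : ∀ e : R →ₐ[k] k, I ≤ kerPt e → e f = 0) : f ∈ I.radical := by
  have := isJacobsonRing_of_finiteType (A := k) (B := R)
  rw [Ideal.radical_eq_jacobson, Ideal.jacobson, Ideal.mem_sInf]
  rintro m ⟨h1, h2⟩
  obtain ⟨e, he⟩ := exists_point (k := k) m h2.ne_top
  exact h2.eq_of_le (Ideal.IsPrime.ne_top inferInstance) he ▸ h e (h1.trans he)

theorem Fam.base_inj [IsDomain C] (𝒜 : Fam C F ι) : Function.Injective (algebraMap C F) := by
  obtain ⟨j, -⟩ := 𝒜.prop ⊤ fun _ => trivial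
  have := (𝒜.inj j).isDomain _
  exact fun a b h => FaithfulSMul.algebraMap_injective C (𝒜.A j) (𝒜.inj j (by simpa [𝒜.comm]))

variable [Algebra k C] [Algebra.FiniteType k C] [IsDomain C] [Finite ι] {𝒜 : Fam C F ι}

theorem exists_triv1 (hU : ∀ i (p : Ideal (𝒜.A i)) [p.IsMaximal],
    UniqueFactorizationMonoid (Localization.AtPrime p)) (τ : C →ₐ[k] k)
    (Φ : Fib 𝒜 (τ : C →+* k)) : Nonempty (Triv1 𝒜 (τ : C →+* k)) := by
  let A := 𝒜.A Φ.o
  have := (𝒜.inj Φ.o).isDomain _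
  let := ((algebraMap C A).comp (algebraMap k C)).toAlgebra
  have : IsScalarTower k C A := .of_algebraMap_eq' rfl
  have : Algebra.FiniteType k A := .trans (S := C) inferInstance inferInstance
  have := Algebra.FiniteType.isNoetherianRing k A
  obtain ⟨e, he⟩ := exists_point (k := k) ((RingHom.ker (τ : C →+* k)).map (algebraMap C A))
    fun h => Φ.cp_V.not_un (h.ge trivial : (1 : A) ∈ _) (by simpa using Un.one)
  let B := Localization.AtPrime (kerPt e)
  have := hU _ (kerPt e)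
  have : Module.Flat C B := .trans C A B
  have hi : Function.Injective (algebraMap C B) :=
    (IsLocalization.injective B (kerPt e).primeCompl_le_nonZeroDivisors).comp
      (FaithfulSMul.algebraMap_injective C A)
  let res : B →+* k := IsLocalization.lift (M := (kerPt e).primeCompl) (g := (e : A →+* k))
    fun y => Ne.isUnit y.2
  have h1 : ∀ c, res (algebraMap C B c) = τ c := fun c => by
    have := he (Ideal.mem_map_of_mem _ (show c - algebraMap k C (τ c) ∈ RingHom.ker _ by simp))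
    rw [mem_kerPt, map_sub, map_sub, ← IsScalarTower.algebraMap_apply, e.commutes, sub_eq_zero]
      at this
    exact (IsLocalization.lift_eq _ (algebraMap C A c)).trans this
  have h2 : Function.Surjective τ := fun c => ⟨_, τ.commutes c⟩
  have h3 : Function.Surjective res := fun c => let ⟨b, hb⟩ := h2 c; ⟨_, (h1 b).trans hb⟩
  have := 𝒜.gi B hi
  obtain ⟨E, _, _, _, _, ⟨β⟩⟩ := exists_bc (C := C) (F := F) (D := B)
  obtain ⟨Φ'⟩ := Φ.bc β hi res h1 h2
  obtain ⟨s, hs⟩ := exists_tmul (C := C) (RingHom.id B) (algebraMap A B) fun _ => rfl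
  obtain ⟨u, hu⟩ := exists_coord_of_sec Φ' h3 ⟨Φ.o, s, fun c => (hs c 1).trans (by simp)⟩
  exact ⟨{ B := B, inj := hi, E := E, β := β, res := res, res_C := h1, u := u, coord := hu
           unit b hb := by_contra fun h => hb ((ker_eq_maximalIdeal res h3).ge h) }⟩

namespace Triv1

variable {τ : C →+* k} (T : Triv1 𝒜 τ)

/-- The family after base change. -/
noncomputable abbrev fam : Fam T.B T.E ι := 𝒜.bc T.β T.inj

/-- The module generated by a set. -/
abbrev sp (N : Set F) : Submodule T.B T.E := Submodule.span T.B (T.β.μ.toLinearMap '' N)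

/-- The standard vector fields. -/
noncomputable abbrev vec : (Fin 3 → T.B) →ₗ[T.B] T.E := MP_e8e0b6_ag.vec T.fam.d T.u

instance : CharZero T.B := T.res.charZero

theorem vec_inj : Function.Injective T.vec := MP_e8e0b6_ag.vec_inj T.coord.d_ne T.coord.trans

theorem d_μ (f : F) : T.fam.d (T.β.μ f) = T.β.μ (𝒜.d f) := T.β.der_μ _ f

theorem br_μ (a b : F) : br T.fam.d (T.β.μ a) (T.β.μ b) = T.β.μ (br 𝒜.d a b) := by
  simp [br_apply, d_μ]

theorem bil_μ (S a b : F) :
    bil T.fam.d (T.β.μ S) (T.β.μ a) (T.β.μ b) = T.β.μ (bil 𝒜.d S a b) := by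
  simp [bil_apply, d_μ]

theorem exists_vec {φ : F} (h : φ ∈ 𝒜.VF) : ∃ a, T.vec a = T.β.μ φ :=
  T.coord.mem_VF.1 fun j => let ⟨a, ha⟩ := h j
    ⟨1 ⊗ₜ[C] a, by rw [Fam.bc_κ, Fam.bc_t, ha]; simp⟩

theorem sp_VF : T.sp 𝒜.VF = LinearMap.range T.vec := by
  refine le_antisymm (Submodule.span_le.2 ?_) ?_
  · rintro _ ⟨φ, h, rfl⟩
    exact T.exists_vec h
  rintro _ ⟨a, rfl⟩
  have h1 : ∀ j, ∃ y, T.β.Θ (𝒜.κₐ j) y = T.β.μ (𝒜.t j) * T.vec a := fun j =>
    Fam.bc_t T.β 𝒜 T.inj j ▸ T.coord.mem_VF.2 ⟨a, rfl⟩ j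
  refine fbc_fin T.β.inj' (fun j => LinearMap.mulLeft C (𝒜.t j))
    (fun j => LinearMap.mulLeft T.B (T.β.μ (𝒜.t j))) (fun l v => by simp)
    (fun j => LinearMap.range (𝒜.κₐ j).toLinearMap) ?_ fun j => (T.β.mem_span _).2 (h1 j)
  obtain ⟨j, -⟩ := 𝒜.prop ⊤ fun _ => trivial
  obtain ⟨y, hy⟩ := h1 j
  have := (T.β.mem_span (AlgHom.id C F)).2
    ⟨Algebra.TensorProduct.map (AlgHom.id T.B T.B) (𝒜.κₐ j) y * 1 ⊗ₜ (𝒜.t j)⁻¹, rfl⟩
  refine Submodule.span_mono (Set.image_mono fun _ _ => trivial) (Eq.subst ?_ this)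
  have h6 : T.β.Θ (AlgHom.id C F) (Algebra.TensorProduct.map (AlgHom.id T.B T.B) (𝒜.κₐ j) y) =
    T.β.Θ (𝒜.κₐ j) y := by rw [T.β.Θ_eq, T.β.Θ_eq]; simp
  have h7 : T.β.μ (𝒜.t j) ≠ 0 := by simpa using 𝒜.dz j
  rw [map_mul, h6, hy]
  simp [mul_comm, h7]

theorem desc {N : Type} [CommRing N] [Algebra C N] {r : N →ₐ[C] F} (hr : Function.Injective r)
    (e : N →+* k) (he : ∀ c, e (algebraMap C N c) = τ c) :
    ∃ e' : T.B ⊗[C] N →+* k, (∀ n, e' (1 ⊗ₜ n) = e n) ∧ ∀ f,
      T.β.μ f ∈ dom (T.β.Θ r) e' → ∃ a s, e s ≠ 0 ∧ f * r s = r a := by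
  obtain ⟨e', h⟩ := exists_tmul (C := C) T.res e fun c => by rw [he, T.res_C]
  have := RingHom.ker_isPrime e
  have := RingHom.ker_isPrime e'
  refine ⟨e', by simp [h], fun f hf => T.β.desc hr (p := RingHom.ker e) (q := RingHom.ker e')
    (fun n hn => by simpa [h] using hn) ?_⟩
  obtain ⟨_, a, s, hs, e1, -⟩ := mem_dom.1 hf
  exact ⟨a, s, hs.ne_zero, e1⟩

theorem frame {N : Submodule C F} {m : ℕ} {ψ : Fin m → F} (h1 : ∀ l, ψ l ∈ N)
    (h2 : LinearIndependent C ψ) {h : C} (h3 : ∀ y ∈ N, h • y ∈ Submodule.span C (Set.range ψ))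
    (h4 : τ h ≠ 0) : LinearIndependent T.B (fun l => T.β.μ (ψ l)) ∧
      Submodule.span T.B (Set.range fun l => T.β.μ (ψ l)) = T.sp N := by
  refine ⟨?_, le_antisymm (Submodule.span_mono ?_) (Submodule.span_le.2 ?_)⟩
  · simpa [Function.comp_def] using (Module.Flat.linearIndependent_one_tmul (S := T.B) h2).map' _
      (LinearMap.ker_eq_bot.2 T.β.inj')
  · rintro _ ⟨l, rfl⟩
    exact ⟨_, h1 l, rfl⟩
  · rintro _ ⟨y, hy, rfl⟩
    have h5 := Submodule.span_le_restrictScalars C T.B _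
      (Submodule.apply_mem_span_image_of_mem_span T.β.μ.toLinearMap (h3 y hy))
    rw [map_smul, ← Set.range_comp, Submodule.restrictScalars_mem, ← algebraMap_smul T.B] at h5
    exact (Submodule.smul_mem_iff_of_isUnit _ (T.unit _ (by rwa [T.res_C]))).1 h5

end Triv1

variable (hT : ∀ τ : C →ₐ[k] k, Nonempty (Triv1 𝒜 (τ : C →+* k)))
include hT

theorem mem_base {f : F} (h : ∀ (τ : C →ₐ[k] k) (T : Triv1 𝒜 (τ : C →+* k)),
    ∃ b, algebraMap T.B T.E b = T.β.μ f) : ∃ c, algebraMap C F c = f := by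
  refine mem_range_of_loc fun m hm => ?_
  obtain ⟨τ, hτ⟩ := exists_point (k := k) m hm.ne_top
  obtain ⟨T⟩ := hT τ
  obtain ⟨b, hb⟩ := h τ T
  obtain ⟨e, -, he⟩ := T.desc (r := Algebra.ofId C F) 𝒜.base_inj τ fun _ => rfl
  obtain ⟨a, s, hs, e⟩ := he f (mem_dom.2 ⟨_, by
    simpa [hb] using Ext.of (r := T.β.Θ (Algebra.ofId C F)) (θ := e) (b ⊗ₜ 1)⟩)
  exact ⟨a, s, fun h => hs (hτ h), e⟩

theorem flat_of_triv {N : Submodule C F} (h : ∀ (τ : C →ₐ[k] k) (T : Triv1 𝒜 (τ : C →+* k)),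
    Module.Free T.B (T.sp N)) : Module.Flat C N := by
  refine flat_of_local_ext fun m hm => ?_
  obtain ⟨τ, hτ⟩ := exists_point (k := k) m hm.ne_top
  obtain ⟨T⟩ := hT τ
  have := h τ T
  refine ⟨T.B, inferInstance, inferInstance, inferInstance, fun e => ?_,
    .of_linearEquiv (spanEquiv T.B _ T.β.inj' N)⟩
  have : m.map (algebraMap C T.B) ≤ RingHom.ker T.res :=
    Ideal.map_le_iff_le_comap.2 fun c hc => (T.res_C c).trans (hτ hc)
  simpa using this (e.ge trivial : (1 : T.B) ∈ _)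

theorem exists_S : ∃ S, ∀ (τ : C →+* k) (T : Triv1 𝒜 τ) a b,
    bil T.fam.d (T.β.μ S) (T.vec a) (T.vec b) = algebraMap T.B T.E (qf T.B a b) := by
  obtain ⟨τ, -⟩ := exists_point (k := k) (⊥ : Ideal C) bot_ne_top
  obtain ⟨T⟩ := hT τ
  obtain ⟨a, ha, b, hb, h⟩ : ∃ a ∈ 𝒜.VF, ∃ b ∈ 𝒜.VF, br 𝒜.d a b ≠ 0 := by
    by_contra! h
    have h1 : T.sp 𝒜.VF ≤ ⨅ y : T.sp 𝒜.VF, LinearMap.ker ((br T.fam.d).flip y) := by
      refine Submodule.span_le.2 ?_
      rintro _ ⟨a, ha, rfl⟩
      refine (Submodule.mem_iInf _).2 fun y =>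
        (Submodule.span_le (p := LinearMap.ker (br T.fam.d (T.β.μ a)))).2 ?_ y.2
      rintro _ ⟨b, hb, rfl⟩
      exact (T.br_μ a b).trans (by rw [h a ha b hb, map_zero])
    have h2 := (Submodule.mem_iInf _).1 (h1 (T.sp_VF.ge ⟨![1, 0, 0], rfl⟩))
      ⟨_, T.sp_VF.ge ⟨![0, 1, 0], rfl⟩⟩
    have h3 := T.vec_inj (((br_vec T.coord.d_ne _ _).symm.trans h2).trans (map_zero _).symm)
    simpa using congrFun h3 0
  refine ⟨(b * 𝒜.d (𝒜.d (𝒜.d a)) - a * 𝒜.d (𝒜.d (𝒜.d b))) / br 𝒜.d a b, fun τ T => ?_⟩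
  obtain ⟨S, h1, h2⟩ := exists_conn T.coord.d_ne
  obtain ⟨a', ha'⟩ := T.exists_vec ha
  obtain ⟨b', hb'⟩ := T.exists_vec hb
  have h3 := h2 a' b'
  erw [ha', hb'] at h3
  simp only [T.d_μ, T.br_μ] at h3
  rw [map_div₀, map_sub, map_mul, map_mul, h3, mul_div_cancel_right₀ _ (by simpa using h)]
  exact h1

variable {S : F} (hS : ∀ (τ : C →+* k) (T : Triv1 𝒜 τ) a b,
    bil T.fam.d (T.β.μ S) (T.vec a) (T.vec b) = algebraMap T.B T.E (qf T.B a b))
include hS

theorem bil_mem {x y : F} (hx : x ∈ 𝒜.VF) (hy : y ∈ 𝒜.VF) :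
    ∃ c, algebraMap C F c = bil 𝒜.d S x y := mem_base hT fun τ T => by
  obtain ⟨a, ha⟩ := T.exists_vec hx
  obtain ⟨b, hb⟩ := T.exists_vec hy
  exact ⟨qf T.B a b, by rw [← hS, ha, hb, T.bil_μ]⟩

theorem br_br {x y : F} (hx : x ∈ 𝒜.VF) (hy : y ∈ 𝒜.VF) :
    br 𝒜.d x (br 𝒜.d x y) = bil 𝒜.d S x x * y - bil 𝒜.d S x y * x := by
  obtain ⟨τ, -⟩ := exists_point (k := k) (⊥ : Ideal C) bot_ne_top
  obtain ⟨T⟩ := hT τ
  obtain ⟨a, ha⟩ := T.exists_vec hx
  obtain ⟨b, hb⟩ := T.exists_vec hy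
  refine T.β.μ.injective ?_
  simp only [RingHom.coe_coe, AlgHom.toRingHom_eq_coe, map_sub, map_mul, ← T.br_μ, ← T.bil_μ]
  rw [← ha, ← hb, hS, hS]
  exact br_br_vec T.coord.d_ne a b

theorem finite_VF : Module.Finite C 𝒜.VF := by
  have := Algebra.FiniteType.isNoetherianRing k C
  obtain ⟨τ, -⟩ := exists_point (k := k) (⊥ : Ideal C) bot_ne_top
  obtain ⟨T⟩ := hT τ
  obtain ⟨s, h1, h2⟩ := (Submodule.fg_span_iff_fg_span_finset_subset _).1
    (show (T.sp 𝒜.VF).FG from T.sp_VF ▸ Submodule.fg_range _)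
  choose b hb hb' using fun l : s => h1 l.2
  refine .of_injective (LinearMap.pi fun l => (((bil 𝒜.d S).flip (b l)).domRestrict 𝒜.VF).codRestrict
    (LinearMap.range (Algebra.linearMap C F)) fun x => bil_mem hT hS x.2 (hb l))
    ((injective_iff_map_eq_zero _).2 fun x hx => Subtype.ext (T.β.μ.injective ?_))
  obtain ⟨a, ha⟩ := T.exists_vec x.2
  have h3 : ∀ c, qf T.B a c = 0 := fun c => T.fam.base_inj (by
    rw [← hS, map_zero]
    refine (Submodule.span_le (p := LinearMap.ker (bil T.fam.d (T.β.μ S) (T.vec a)))).2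
      (fun y hy => ?_) (h2.le (T.sp_VF.ge ⟨c, rfl⟩))
    rw [← show T.β.μ (b ⟨y, hy⟩) = y from hb' ⟨y, hy⟩, ha]
    exact (T.bil_μ ..).trans ((map_eq_zero _).2 (congrArg Subtype.val (congrFun hx ⟨y, hy⟩))))
  have : a = 0 := by
    ext i
    fin_cases i
    exacts [by simpa [qf_apply] using h3 ![0, 0, 1], by simpa [qf_apply] using h3 ![0, 1, 0],
      by simpa [qf_apply] using h3 ![1, 0, 0]]
  exact ha.symm.trans (by simp [this])

end Pool.Agent.MP_e8e0b6_ag

end MrgPart1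

-- ======== part 2: formerly Pool.Agent.MP_e8e0b6_ag.P1.Frame
section MrgPart2

/-!
A family over an affine line with a section over the origin is locally trivial.
-/

set_option linter.unusedSectionVars false

open Polynomial TensorProduct IsLocalRing Module

namespace Pool.Agent.MP_e8e0b6_ag

variable {k A R F ι : Type} [Field k] [CharZero k] [IsAlgClosed k] [CommRing A] [IsDomain A]
  [Algebra k A] [Algebra.FiniteType k A] [Field F] [Algebra A[X] F] {x : A →ₐ[k] k}
  [CommRing R] [IsDomain R] [IsLocalRing R] [Algebra A R] [IsLocalization.AtPrime R (kerPt x)]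

attribute [local instance] Polynomial.algebra in
variable (x) in
theorem exists_frame (hL : AllFree R[X]) (hi : Function.Injective (algebraMap A[X] F))
    (N : Submodule A[X] F) [Module.Finite A[X] N] [Module.Flat A[X] N] :
    ∃ (m : ℕ) (ψ : Fin m → F) (h : A), x h ≠ 0 ∧ (∀ l, ψ l ∈ N) ∧ LinearIndependent A[X] ψ ∧
      ∀ y ∈ N, (C h : A[X]) • y ∈ Submodule.span A[X] (Set.range ψ) := by
  classical
  have := Algebra.FiniteType.isNoetherianRing k A
  let M := (kerPt x).primeCompl.map (C : A →+* A[X])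
  have := Polynomial.isLocalization (kerPt x).primeCompl R
  have hM : ∀ y : M, IsUnit (algebraMap A[X] F y) := by
    rintro ⟨_, a, ha, rfl⟩
    exact ((map_ne_zero_iff _ hi).2 (C_ne_zero.2 fun h : a = 0 => ha (h ▸ zero_mem _))).isUnit
  let := (IsLocalization.lift (S := R[X]) hM).toAlgebra
  have : IsScalarTower A[X] R[X] F := .of_algebraMap_eq fun a => (IsLocalization.lift_eq hM a).symm
  have := IsLocalization.flat R[X] M
  have hj : Function.Injective ((LinearMap.id : F →ₗ[A[X]] F).liftBaseChange R[X]) := by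
    have : (LinearMap.id : F →ₗ[A[X]] F).liftBaseChange R[X] =
      (IsLocalization.moduleLid M R[X] F).toLinearMap := by
        ext y
        exact (one_smul R[X] y).trans ((IsLocalization.moduleLid M R[X] F).symm_apply_eq.1 rfl)
    rw [this]; exact (IsLocalization.moduleLid M R[X] F).injective
  have := IsLocalization.isNoetherianRing (kerPt x).primeCompl R inferInstance
  have := finitePresentation_of_finite R[X] (R[X] ⊗[A[X]] N)
  have := Flat.projective_of_finitePresentation (R := R[X]) (M := R[X] ⊗[A[X]] N)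
  have := hL.free (R[X] ⊗[A[X]] N)
  let b := (finBasis R[X] (R[X] ⊗[A[X]] N)).map (spanEquiv R[X] LinearMap.id hj N)
  choose t ht using fun l => multiple_mem_span_of_mem_localization_span M R[X] _ _ (b l).2
  choose u hu using fun l => IsLocalization.map_units R[X] (t l)
  have e : ∀ l, t l • (b l : F) = (b.unitsSMul u l : F) := fun l => by
    rw [Basis.unitsSMul_apply, Units.smul_def, hu, Submodule.coe_smul, algebraMap_smul]; rfl
  obtain ⟨s, hs⟩ := Module.Finite.iff_fg.1 ‹Module.Finite A[X] N›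
  have h1 : ∀ y ∈ N, ∃ c : M, c • y ∈ Submodule.span A[X] (Set.range fun l => t l • (b l : F)) :=
    fun y hy => multiple_mem_span_of_mem_localization_span M R[X] _ _ (by
      have := Submodule.apply_mem_span_image_of_mem_span (Submodule.subtype _)
        ((b.unitsSMul u).mem_span ⟨y, Submodule.subset_span ⟨y, hy, rfl⟩⟩)
      rw [← Set.range_comp] at this
      simp only [e]
      exact this)
  choose t' ht' using fun y : s => h1 y (hs ▸ Submodule.subset_span y.2)
  obtain ⟨h, hh, e'⟩ := (∏ y, t' y).2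
  refine ⟨_, fun l => t l • (b l : F), h, hh, fun l => by simpa using ht l, ?_, fun y hy => ?_⟩
  · simp only [e]
    exact ((b.unitsSMul u).linearIndependent.map' _ (Submodule.ker_subtype _)).restrict_scalars
      (by simpa [← Algebra.algebraMap_eq_smul_one] using map_injective _ (IsLocalization.injective R
        (kerPt x).primeCompl_le_nonZeroDivisors))
  · refine (Submodule.span_le (p := Submodule.comap (LinearMap.lsmul A[X] F (C h))
      (Submodule.span A[X] (Set.range fun l => t l • (b l : F))))).2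
      (fun y hy => ?_) (hs.ge hy)
    have := Submodule.smul_mem _ (∏ y' ∈ Finset.univ.erase (⟨y, hy⟩ : s), t' y').1 (ht' ⟨y, hy⟩)
    rwa [Submonoid.smul_def, smul_smul, ← Submonoid.coe_mul, Finset.prod_erase_mul _ _
      (Finset.mem_univ _), ← e'] at this

theorem bil_sum {C : Type} [CommRing C] [Algebra C F] {B : F →ₗ[C] F →ₗ[C] F} {m : ℕ}
    {ψ : Fin m → F} {G : Matrix (Fin m) (Fin m) C} (hG : ∀ i j, algebraMap C F (G i j) = B (ψ i) (ψ j))
    (a b : Fin m → C) :
    B (∑ i, a i • ψ i) (∑ i, b i • ψ i) = algebraMap C F (Matrix.toBilin' G a b) := by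
  simp only [map_sum, map_smul, LinearMap.sum_apply, LinearMap.smul_apply]
  simp only [Matrix.toBilin'_apply, map_sum, map_mul, hG, Algebra.smul_def, Finset.mul_sum]
  rw [Finset.sum_comm]
  exact Finset.sum_congr rfl fun i _ => Finset.sum_congr rfl fun j _ => by ring

attribute [local instance] Polynomial.algebra in
theorem harder_matrix {m : ℕ} {G : Matrix (Fin m) (Fin m) A[X]} (hs : ∀ i j, G i j = G j i) {h : A}
    (h0 : h ≠ 0) (hd : C h ∈ (Ideal.span {G.det}).radical) {a : Fin m → A} (ha : a ≠ 0)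
    (h1 : (Matrix.toBilin' G (C ∘ a) (C ∘ a)).eval 0 = 0) :
    ∃ z, z ≠ 0 ∧ Matrix.toBilin' G z z = 0 := by
  let K := FractionRing A
  have hi := IsFractionRing.injective A K
  let φ := mapRingHom (algebraMap A K)
  have hφ : Function.Injective φ := map_injective _ hi
  have h2 : ∀ y z, Matrix.toBilin' (G.map φ) (φ ∘ y) (φ ∘ z) = φ (Matrix.toBilin' G y z) :=
    fun y z => by simp [Matrix.toBilin'_apply]
  have h3 : IsUnit (G.map φ).det := by
    obtain ⟨n, hn⟩ := hd
    have := map_dvd φ (Ideal.mem_span_singleton.1 hn)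
    rw [RingHom.map_det, map_pow] at this
    refine isUnit_of_dvd_unit this (IsUnit.pow _ ?_)
    rw [show φ (C h) = C (algebraMap A K h) from map_C _]
    exact isUnit_C.2 ((map_ne_zero_iff _ hi).2 h0).isUnit
  obtain ⟨j, hj⟩ : ∃ j, (Matrix.toBilin' (G.map φ) (φ ∘ C ∘ a) (Pi.single j 1)).eval 0 ≠ 0 := by
    by_contra! H
    refine ha (funext fun i => hi ?_)
    have := Matrix.eq_zero_of_vecMul_eq_zero (M := (G.map φ).map (evalRingHom 0))
      (v := algebraMap A K ∘ a) (by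
        rw [← RingHom.mapMatrix_apply, ← RingHom.map_det]; exact (h3.map _).ne_zero)
      (funext fun j => by
        simpa [Matrix.toBilin'_apply, Pi.single_apply, eval_finsetSum, Matrix.vecMul, dotProduct, φ]
          using H j)
    simpa using congrFun this i
  obtain ⟨z, hz, hz'⟩ := harder (Pi.basisFun K[X] (Fin m)) (Matrix.toBilin' (G.map φ))
    (fun y z => by
      simp only [Matrix.toBilin'_apply, Matrix.map_apply]
      rw [Finset.sum_comm]
      exact Finset.sum_congr rfl fun i _ => Finset.sum_congr rfl fun j _ => by rw [hs]; ring)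
    (by convert h3; ext1; simp [gram]) _ _
    (by rw [h2, ← coeff_zero_eq_eval_zero] at *; simp [φ, h1]) hj
  have := Polynomial.isLocalization (nonZeroDivisors A) K
  obtain ⟨b, hb⟩ := IsLocalization.exist_integer_multiples_of_finite
    ((nonZeroDivisors A).map (C : A →+* A[X])) z
  choose y hy using hb
  have h4 : φ ∘ y = φ b • z := funext fun i => (hy i).trans (Algebra.smul_def _ _)
  refine ⟨y, fun h => hz ?_, hφ ?_⟩
  · simpa [h, Function.comp_def, (IsLocalization.map_units K[X] b).ne_zero] using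
      (IsLocalization.map_units K[X] b).smul_eq_zero.1 (h4.symm.trans (by ext; simp [h]))
  · simp [← h2, h4, hz']

theorem Coord.of_span {B : Type} [CommRing B] [IsDomain B] [Algebra B F] {𝒜 : Fam B F ι}
    {p q x y : F} (H : Coord 𝒜 (p / q)) (hq : q ≠ 0) (hy : y ≠ 0)
    (h : Submodule.span B {p, q} = Submodule.span B {x, y}) : Coord 𝒜 (x / y) := by
  refine ⟨fun ha => H.trans ?_, fun O hO hB h1 => H.le O hO hB (proj_of_span hO hB hy h.symm h1),
    fun O j hO h1 => proj_of_span hO (𝒜.base_mem h1) hq h (H.mem O j hO h1)⟩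
  refine (proj_of_span (O := (Subalgebra.algebraicClosure B F).toSubring) (fun a ha => ?_)
    (Subalgebra.algebraMap_mem _) hy h.symm (Or.inl ha)).elim id IsAlgebraic.inv_iff.1
  by_cases h0 : a = 0
  · exact Or.inr (by simpa [h0] using Un.one)
  · exact Or.inl ⟨ha, h0, IsAlgebraic.inv_iff.2 ha⟩

section
variable {C : Type} [CommRing C] [IsDomain C] [Algebra k C] [Algebra.FiniteType k C] [Algebra C F]
  [Finite ι] {𝒜 : Fam C F ι}

theorem Triv1.sp_ker {τ : C →+* k} (T : Triv1 𝒜 τ) {S φ : F} (hS : ∀ a b,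
    bil T.fam.d (T.β.μ S) (T.vec a) (T.vec b) = algebraMap T.B T.E (qf T.B a b)) (h1 : φ ∈ 𝒜.VF)
    (h2 : φ ≠ 0) (h3 : bil 𝒜.d S φ φ = 0) : ∃ l, l ≠ 0 ∧ LinearIndependent T.B ![l * T.u, l] ∧
      Submodule.span T.B (Set.range ![l * T.u, l]) =
        T.sp (𝒜.VF ⊓ Submodule.comap (bil 𝒜.d S φ) ⊥ : Submodule C F) := by
  obtain ⟨a, ha⟩ := T.exists_vec h1
  obtain ⟨p, q, hp, H⟩ := exists_root (a := a) (fun h => h2 (T.β.μ.injective (by simp [← ha, h])))
    (T.fam.base_inj (by rw [← hS, ha, T.bil_μ, h3, map_zero, map_zero]))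
  have e : ∀ x y, T.vec ![p * x, p * y + q * x, q * y] =
      y • (T.vec ![p, q, 0] * T.u) + x • T.vec ![p, q, 0] := fun x y => by
    simp [vec_apply, Algebra.smul_def]; ring
  have h0 : T.vec ![p, q, 0] ≠ 0 := fun h => by
    have := T.vec_inj (h.trans (map_zero _).symm)
    exact hp.elim (fun h => h (congrFun this 0)) fun h => h (congrFun this 1)
  have key : ∀ x y, T.vec ![p * x, p * y + q * x, q * y] ∈
      T.sp (𝒜.VF ⊓ Submodule.comap (bil 𝒜.d S φ) ⊥ : Submodule C F) := fun x y =>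
    fbc T.β.inj' (bil 𝒜.d S φ) (bil T.fam.d (T.β.μ S) (T.β.μ φ)) (T.bil_μ S φ)
      (T.sp_VF.ge ⟨_, rfl⟩) (by rw [← ha, hS, (H _).2 ⟨x, y, rfl⟩, map_zero]; exact zero_mem _)
  refine ⟨_, h0, LinearIndependent.pair_iff.2 fun y x h => ?_, le_antisymm
    (Submodule.span_le.2 ?_) (Submodule.span_le.2 ?_)⟩
  · have h4 : Polynomial.C y * X + Polynomial.C x = 0 := transcendental_iff.1 T.coord.trans _
      (mul_left_cancel₀ h0 (by
        simp only [Algebra.smul_def] at h
        simp only [map_add, map_mul, aeval_C, aeval_X]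
        linear_combination h))
    exact ⟨by simpa using congrArg (coeff · 1) h4, by simpa using congrArg (coeff · 0) h4⟩
  · rintro _ ⟨i, rfl⟩
    fin_cases i
    exacts [by have := key 0 1; rw [e] at this; simpa using this, by simpa using key 1 0]
  · rintro _ ⟨f, ⟨hf, hf'⟩, rfl⟩
    obtain ⟨b, hb⟩ := T.exists_vec hf
    obtain ⟨x, y, rfl⟩ := (H b).1 (T.fam.base_inj (by
      rw [← hS, ha, hb, T.bil_μ, show bil 𝒜.d S φ f = 0 from hf', map_zero, map_zero]))
    exact (hb.symm.trans (e x y)).symm ▸ add_mem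
      (Submodule.smul_mem _ _ (Submodule.subset_span ⟨0, rfl⟩))
      (Submodule.smul_mem _ _ (Submodule.subset_span ⟨1, rfl⟩))

theorem chart_of_coord (hT : ∀ τ : C →ₐ[k] k, Nonempty (Triv1 𝒜 (τ : C →+* k))) {h : C} {w : F}
    (H : ∀ τ : C →ₐ[k] k, τ h ≠ 0 → ∀ T : Triv1 𝒜 (τ : C →+* k), Coord T.fam (T.β.μ w))
    (hw : Transcendental C w) {O : Subring F} (hO : Loc O) (hC : ∀ c, algebraMap C F c ∈ O)
    (hh : Un O (algebraMap C F h)) (hw' : w ∈ O) : ∃ j, ∀ a, 𝒜.κ j a ∈ O := by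
  let r : C[X] →ₐ[C] F := aeval w
  have hr : Function.Injective r := transcendental_iff_injective.1 hw
  have h1 : ∀ p, (r : C[X] →+* F) p ∈ O := aeval_mem hC hw'
  have : Algebra.FiniteType k C[X] := .trans (S := C) inferInstance inferInstance
  obtain ⟨e, he, he'⟩ : ∃ e : C[X] →ₐ[k] k, ctr _ hO h1 ≤ kerPt e ∧ e (Polynomial.C h) ≠ 0 := by
    by_contra! h2
    exact (Ideal.IsPrime.radical inferInstance).le (mem_radical_of_points h2) (by simpa [r] using hh)
  let τ := e.comp (IsScalarTower.toAlgHom k C C[X])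
  obtain ⟨T⟩ := hT τ
  obtain ⟨e', -, h3⟩ := T.desc hr e fun _ => rfl
  have hp := pt_dom (T.β.Θ_inj hr) e'
  obtain ⟨j, hj⟩ := (H τ he' T).le _ hp.loc (fun b => by simpa using hp.mem (b ⊗ₜ 1))
    (Or.inl (by simpa [r] using hp.mem (1 ⊗ₜ X)))
  refine ⟨j, fun a => ?_⟩
  obtain ⟨b, s, hs, h4⟩ := h3 (𝒜.κ j a) (by simpa [Fam.bc_κ] using hj (1 ⊗ₜ[C] a))
  exact (not_not.1 fun h => hs (he h) : Un O (r s)).mem_of_mul (by rw [mul_comm, h4]; exact h1 b)

end

variable [Finite ι] {𝒜 : Fam A[X] F ι}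
  (hT : ∀ τ : A[X] →ₐ[k] k, Nonempty (Triv1 𝒜 (τ : A[X] →+* k))) (hL : AllFree R[X])
  {i : ι} (s : 𝒜.A i →+* R) (hs : ∀ c, s (algebraMap A[X] _ c) = algebraMap A R (c.eval 0))

variable (R x) in
/-- The residue map. -/
noncomputable def resAt : R →+* k :=
  IsLocalization.lift (M := (kerPt x).primeCompl) (g := (x : A →+* k)) fun y => Ne.isUnit y.2

theorem resAt_map (a : A) : resAt R x (algebraMap A R a) = x a := IsLocalization.lift_eq _ a

theorem isUnit_of_resAt {a : R} (h : resAt R x a ≠ 0) : IsUnit a := by_contra fun h' =>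
  h ((ker_eq_maximalIdeal (resAt R x) fun c => ⟨_, (resAt_map _).trans (x.commutes c)⟩).ge h')

variable (x) in
/-- The base point. -/
noncomputable def basePt : A[X] →ₐ[k] k := x.comp ((aeval (0 : A)).restrictScalars k)

theorem basePt_apply (c : A[X]) : basePt x c = x (c.eval 0) := by simp [basePt]

include hs in
theorem exists_pt (T : Triv1 𝒜 (basePt x : A[X] →+* k)) : ∃ O, Pt (T.fam.κ i) O ∧
    (∀ f, T.β.μ f ∈ O → ∃ a b, IsUnit (s b) ∧ f * 𝒜.κ i b = 𝒜.κ i a) ∧
    ∀ N : Set F, (∀ f ∈ N, ∃ a, s a = 0 ∧ 𝒜.κ i a = 𝒜.t i * f) →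
      ∀ y ∈ T.sp N, ¬ Un O (T.fam.t i * y) := by
  obtain ⟨e, h1, h2⟩ := T.desc (r := 𝒜.κₐ i) (𝒜.inj i) ((resAt R x).comp s) fun c => by
    simp [hs, resAt_map, basePt_apply]
  have hi := T.fam.inj i
  refine ⟨_, pt_dom hi e, fun f hf => ?_, fun N hN y hy hu => ?_⟩
  · obtain ⟨a, b, hb, e⟩ := h2 f hf
    exact ⟨a, b, isUnit_of_resAt hb, e⟩
  · refine Ext.ne_of_un hi ?_ hu rfl
    clear hu
    induction hy using Submodule.span_induction with
    | mem _ h =>
      obtain ⟨f, hf, rfl⟩ := h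
      obtain ⟨a, ha, ha'⟩ := hN f hf
      have := Ext.of (r := T.fam.κ i) (θ := e) (1 ⊗ₜ[A[X]] a)
      erw [h1] at this
      simpa [ha, ha', Fam.bc_t, Fam.bc_κ] using this
    | zero => simpa using Ext.zero
    | add _ _ _ _ h h' => simpa [mul_add] using h.add h'
    | smul b y _ h =>
      simpa [Algebra.smul_def, mul_left_comm, T.fam.comm] using
        (Ext.of (r := T.fam.κ i) (θ := e) (algebraMap T.B _ b)).mul h

include hT hL hs x

theorem exists_isotropic {S : F} (hS : ∀ (τ : A[X] →+* k) (T : Triv1 𝒜 τ) a b,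
    bil T.fam.d (T.β.μ S) (T.vec a) (T.vec b) = algebraMap T.B T.E (qf T.B a b)) :
    ∃ φ ∈ 𝒜.VF, φ ≠ 0 ∧ bil 𝒜.d S φ φ = 0 := by
  have := finite_VF hT hS
  have := flat_of_triv hT (N := 𝒜.VF) fun τ T =>
    T.sp_VF ▸ .of_equiv (LinearEquiv.ofInjective _ T.vec_inj)
  obtain ⟨m, ψ, h, hx, h1, h2, h3⟩ := exists_frame x hL 𝒜.base_inj 𝒜.VF
  choose G hG using fun i j => bil_mem hT hS (h1 i) (h1 j)
  have key : ∀ τ : A[X] →ₐ[k] k, τ (C h) ≠ 0 → m = 3 ∧ τ (Matrix.of G).det ≠ 0 := fun τ hτ => by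
    obtain ⟨T⟩ := hT τ
    obtain ⟨h4, h5⟩ := T.frame h1 h2 h3 hτ
    choose a ha using fun l => T.exists_vec (h1 l)
    rw [← funext ha] at h4 h5
    let b := Basis.mk (LinearIndependent.of_comp T.vec h4) fun y _ => by
      obtain ⟨y', hy, e⟩ := (Submodule.map_span T.vec _).ge
        (Set.range_comp T.vec a ▸ h5.ge (T.sp_VF.ge ⟨y, rfl⟩))
      exact T.vec_inj e ▸ hy
    obtain rfl : m = 3 := by simpa using finrank_eq_card_basis b |>.symm
    refine ⟨rfl, fun h0 => ?_⟩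
    have h6 : gram (qf T.B) b = (Matrix.of G).map (algebraMap _ T.B) := by
      ext i j
      refine T.fam.base_inj ?_
      simp [gram, b, ← hS, ha, T.bil_μ, ← hG, ← IsScalarTower.algebraMap_apply]
    have h7 := (gram_basis (qf T.B) b (Pi.basisFun _ _)).map T.res
    rw [h6, det_gram_qf, ← RingHom.mapMatrix_apply, ← RingHom.map_det, T.res_C] at h7
    simpa [h0, map_ofNat] using h7.eq_zero_iff
  obtain rfl := (key (basePt x) (by simpa [basePt_apply])).1
  choose Z hZ using fun l => h1 l i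
  obtain ⟨a, ha, l, hl⟩ := Fintype.not_linearIndependent_iff.1
    (show ¬ LinearIndependent A fun l => ![s (Z l), s (𝒜.D i (Z l))] from fun H => by
      simpa using (H.localization R (kerPt x).primeCompl).fintype_card_le_finrank)
  let y := ∑ l, (C (a l) : A[X]) • ψ l
  let Y := ∑ l, (C (a l) : A[X]) • Z l
  have hy : y ∈ 𝒜.VF := Submodule.sum_mem _ fun l _ => Submodule.smul_mem _ _ (h1 l)
  have e1 : 𝒜.κ i Y = 𝒜.t i * y := by
    simp [y, Y, Algebra.smul_def, 𝒜.comm, hZ, Finset.mul_sum, mul_left_comm]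
  have e2 : s Y = 0 := by simpa [Y, Algebra.smul_def, hs] using congrFun ha 0
  have e3 : s (𝒜.D i Y) = 0 := by
    simpa [Y, map_sum, Algebra.smul_def, hs] using congrFun ha 1
  have e4 : ∀ c c', 𝒜.κ i c' = 𝒜.t i * c →
      𝒜.κ i (Y * 𝒜.D i c' - c' * 𝒜.D i Y) = 𝒜.t i * br 𝒜.d y c := fun c c' hc => by
    have h4 := congrArg 𝒜.d hc
    have h5 := congrArg 𝒜.d e1
    rw [𝒜.d_κ, 𝒜.d.leibniz, smul_eq_mul, smul_eq_mul] at h4 h5
    rw [map_sub, map_mul, map_mul, e1, hc, br_apply]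
    linear_combination y * h4 - c * h5
  obtain ⟨c, hc, c', h4, h5⟩ : ∃ c ∈ 𝒜.VF, ∃ c', s c' ≠ 0 ∧ 𝒜.κ i c' = 𝒜.t i * c := by
    by_contra! H
    obtain ⟨T⟩ := hT (basePt x)
    obtain ⟨O, hO, -, h4⟩ := exists_pt s hs T
    have h5 : ∀ v, Coord T.fam v → v ∈ O → (T.fam.d v)⁻¹ ∈ T.fam.VF → False := fun v hv h h' => by
      obtain ⟨w, hw, e⟩ := hv.t_mem hO h
      refine h4 𝒜.VF (fun f hf => let ⟨a, ha⟩ := hf i; ⟨a, by_contra fun h => H f hf a h ha, ha⟩) _
        (T.sp_VF.ge (T.coord.mem_VF.1 h'))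
        (div_eq_mul_inv (T.fam.t i) _ ▸ un_of_div (T.fam.dz i) hv.d_ne ?_ (T.fam.d_mem hO h))
      exact e ▸ (mul_div_cancel_right₀ w hv.d_ne).symm ▸ hw
    rcases T.coord.mem O i hO.loc hO.mem with h | h
    exacts [h5 _ T.coord h (T.coord.mem_VF.2 ⟨![1, 0, 0], by simp [vec_apply]⟩),
      h5 _ T.coord.inv h (T.coord.inv.mem_VF.2 ⟨![1, 0, 0], by simp [vec_apply]⟩)]
  have e5 := bil_sum (G := Matrix.of G) hG (C ∘ a) (C ∘ a)
  obtain ⟨γ, hγ⟩ := bil_mem hT hS hy hc
  have e6 := e4 _ _ (e4 c c' h5)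
  rw [br_br hT hS hy hc, ← hγ, show bil 𝒜.d S y y = _ from e5, mul_sub, mul_left_comm, ← h5,
    mul_left_comm, ← e1, ← 𝒜.comm i, ← 𝒜.comm i, ← map_mul, ← map_mul, ← map_sub] at e6
  have e7 := congrArg s (𝒜.inj i e6)
  simp only [map_sub, map_mul, e2, e3, hs, zero_mul, mul_zero, sub_zero] at e7
  obtain ⟨z, hz, hz'⟩ := harder_matrix (G := Matrix.of G) (fun i j => 𝒜.base_inj (by
      simp only [Matrix.of_apply, hG, bil_apply]; ring)) (fun h0 => hx (by simp [h0]))
    (mem_radical_of_points (k := k) fun τ hτ => by_contra fun h0 =>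
      (key τ h0).2 (hτ (Ideal.mem_span_singleton_self _))) (fun h0 => hl (congrFun h0 l))
    (IsLocalization.injective R (kerPt x).primeCompl_le_nonZeroDivisors
      (((mul_eq_zero.1 e7.symm).resolve_right h4).trans (map_zero _).symm))
  exact ⟨∑ l, z l • ψ l, Submodule.sum_mem _ fun l _ => Submodule.smul_mem _ _ (h1 l),
    fun h0 => hz (funext (Fintype.linearIndependent_iff.1 h2 z h0)),
    (bil_sum (G := Matrix.of G) hG z z).trans (by simp [hz'])⟩

theorem exists_w : ∃ (h : A) (w : F), x h ≠ 0 ∧ Transcendental A[X] w ∧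
    (∀ O, Loc O → (∀ c, algebraMap A[X] F c ∈ O) → Un O (algebraMap A[X] F (C h)) → w ∈ O →
      ∃ j, ∀ a, 𝒜.κ j a ∈ O) ∧ ∃ a b, IsUnit (s b) ∧ w * 𝒜.κ i b = 𝒜.κ i a := by
  obtain ⟨S, hS⟩ := exists_S hT
  obtain ⟨φ, h1, h2, h3⟩ := exists_isotropic (x := x) hT hL s hs hS
  have := finite_VF hT hS
  have := Algebra.FiniteType.isNoetherianRing k A
  let M := 𝒜.VF ⊓ Submodule.comap (bil 𝒜.d S φ) ⊥
  have := Module.Finite.of_injective _ (Submodule.inclusion_injective (inf_le_left : M ≤ _))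
  have := flat_of_triv hT (N := M) fun τ T =>
    let ⟨_, _, h, h'⟩ := T.sp_ker (hS _ T) h1 h2 h3; h' ▸ .of_basis (Basis.span h)
  obtain ⟨m, ψ, h, hx, h4, h5, h6⟩ := exists_frame x hL 𝒜.base_inj M
  obtain ⟨T⟩ := hT (basePt x)
  have hx' : basePt x (C h) ≠ 0 := by simpa [basePt_apply]
  obtain rfl : m = 2 := by
    obtain ⟨l, -, h7, h8⟩ := T.sp_ker (hS _ T) h1 h2 h3
    obtain ⟨h9, h10⟩ := T.frame h4 h5 h6 hx'
    simpa using (finrank_span_eq_card h9).symm.trans
      ((congrArg (fun N : Submodule T.B T.E => finrank T.B N) (h10.trans h8.symm)).trans (finrank_span_eq_card h7))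
  have key : ∀ τ : A[X] →ₐ[k] k, τ (C h) ≠ 0 → ∀ T : Triv1 𝒜 (τ : A[X] →+* k),
      Coord T.fam (T.β.μ (ψ 0 / ψ 1)) := fun τ hτ T => by
    obtain ⟨l, h0, -, h8⟩ := T.sp_ker (hS _ T) h1 h2 h3
    obtain ⟨h9, h10⟩ := T.frame h4 h5 h6 hτ
    rw [map_div₀]
    exact Coord.of_span (p := l * T.u) (by simpa [h0] using T.coord) h0 (h9.ne_zero 1)
      (by
        rw [← Matrix.range_cons_cons_empty _ _ ![], ← Matrix.range_cons_cons_empty _ _ ![], h8, ← h10]
        congr 2; ext1 i; fin_cases i <;> rfl)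
  obtain ⟨O, hO, h7, -⟩ := exists_pt s hs T
  have fin : ∀ w, (∀ τ : A[X] →ₐ[k] k, τ (C h) ≠ 0 → ∀ T : Triv1 𝒜 (τ : A[X] →+* k),
      Coord T.fam (T.β.μ w)) → Transcendental A[X] w ∧ ∀ O, Loc O → (∀ c, algebraMap A[X] F c ∈ O) →
      Un O (algebraMap A[X] F (C h)) → w ∈ O → ∃ j, ∀ a, 𝒜.κ j a ∈ O := fun w H =>
    have ht : Transcendental A[X] w := fun h =>
      (H _ hx' T).trans ((h.algHom T.β.μ).extendScalars T.inj)
    ⟨ht, fun _ => chart_of_coord hT H ht⟩
  rcases (key _ hx' T).mem O i hO.loc hO.mem with h8 | h8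
  · exact ⟨h, _, hx, (fin _ key).1, (fin _ key).2, h7 _ h8⟩
  · have := fin (ψ 0 / ψ 1)⁻¹ fun τ hτ T => map_inv₀ T.β.μ _ ▸ (key τ hτ T).inv
    exact ⟨h, _, hx, this.1, this.2, h7 _ (map_inv₀ T.β.μ _ ▸ h8)⟩

end Pool.Agent.MP_e8e0b6_ag

end MrgPart2

-- ======== part 3: formerly Pool.Agent.MP_e8e0b6_ag.P1.Sch
section MrgPart3

/-!
Smooth families: integrality of the total space, charts of base changes, lines of sprays.
-/

set_option linter.unusedSectionVars false

open AlgebraicGeometry CategoryTheory Limits IsLocalRing TensorProduct Polynomial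

namespace Pool.Agent.MP_e8e0b6_ag

variable {k C D A : Type} [Field k] [IsAlgClosed k] [CharZero k] [CommRing C] [CommRing D]
  [CommRing A] {Y Z : Scheme.{0}}

theorem isReduced_of_etale [IsDomain C] {φ : C →+* A} (h : φ.Etale) : IsReduced A := by
  algebraize [φ]
  have := Algebra.FormallyUnramified.isReduced_of_field (FractionRing C) (FractionRing C ⊗[C] A)
  exact isReduced_of_injective _ (Algebra.TensorProduct.includeRight_injective (B := A)
    (IsFractionRing.injective C (FractionRing C)))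

theorem smooth_of_chart {q : Y ⟶ Spec (.of C)} [Smooth q] (j : Spec (.of A) ⟶ Y)
    [IsOpenImmersion j] {φ : C →+* A} (h : j ≫ q = sp φ) : φ.Smooth :=
  (HasRingHomProperty.Spec_iff (P := @Smooth) (φ := CommRingCat.ofHom φ)).1
    (show Smooth (sp φ) from h ▸ inferInstance)

theorem isReduced_of_smooth [IsDomain C] (q : Y ⟶ Spec (.of C)) [Smooth q] :
    AlgebraicGeometry.IsReduced Y := by
  choose A _ j _ φ h1 h2 h3 h4 using fun y => exists_piece q y ⊤ trivial RingHom.IsStandardSmooth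
    fun A _ j _ φ h => (smooth_of_chart j h).locally_isStandardSmooth
  have : ∀ y, AlgebraicGeometry.IsReduced (Spec (.of (A y))) := fun y =>
    let ⟨_, _, _, h⟩ := (h4 y).exists_etale_mvPolynomial
    have := isReduced_of_etale h
    inferInstance
  exact @IsReduced.of_openCover _ (Scheme.Cover.mkOfCovers _ _ j fun y => ⟨y, h1 y⟩) this

theorem exists_pt_mem [Algebra k C] [Algebra.FiniteType k C] {U : Set (Spec (.of C))}
    (hU : IsOpen U) (h : U.Nonempty) : ∃ τ : C →ₐ[k] k, sp (τ : C →+* k) (closedPoint k) ∈ U := by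
  obtain ⟨p, hp⟩ := h
  obtain ⟨_, ⟨f, rfl⟩, h1, h2⟩ :=
    PrimeSpectrum.isTopologicalBasis_basic_opens.exists_subset_of_mem_open hp hU
  by_contra! H
  exact h1 ((Ideal.IsPrime.radical_le_iff p.2).2 bot_le (mem_radical_of_points (k := k)
    fun e _ => by_contra fun h0 => H e (h2 fun h3 => h3 (Ne.isUnit h0))))

theorem isIntegral_of_fibres [IsDomain C] [Algebra k C] [Algebra.FiniteType k C]
    (q : Y ⟶ Spec (.of C)) [Smooth q] (h : ∀ τ : C →ₐ[k] k, ∃ (Z : Scheme.{0}) (m : Z ⟶ Y)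
      (q' : Z ⟶ Spec (.of k)), IsPullback m q' q (sp (τ : C →+* k)) ∧ IsIntegral Z) :
    IsIntegral Y := by
  have := isReduced_of_smooth q
  have : Nonempty Y := by
    obtain ⟨τ, -⟩ := exists_point (k := k) (⊥ : Ideal C) bot_ne_top
    obtain ⟨Z, m, -, -, _⟩ := h τ
    exact ⟨m (genericPoint Z)⟩
  have : PreirreducibleSpace Y := ⟨fun U V hU hV ⟨u, _, hu⟩ ⟨v, _, hv⟩ => by
    obtain ⟨τ, ⟨u, hu, e⟩, v, hv, e'⟩ := exists_pt_mem (k := k)
      ((q.isOpenMap _ hU).inter (q.isOpenMap _ hV))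
      (nonempty_preirreducible_inter (q.isOpenMap _ hU) (q.isOpenMap _ hV) ⟨_, u, hu, rfl⟩
        ⟨_, v, hv, rfl⟩)
    obtain ⟨Z, m, q', H, _⟩ := h τ
    obtain ⟨a, rfl, -⟩ := Scheme.exists_preimage_of_isPullback H u _ e
    obtain ⟨b, rfl, -⟩ := Scheme.exists_preimage_of_isPullback H v _ e'
    obtain ⟨z, hz⟩ := nonempty_preirreducible_inter (hU.preimage m.continuous)
      (hV.preimage m.continuous) ⟨a, hu⟩ ⟨b, hv⟩
    exact ⟨m z, trivial, hz⟩⟩
  have : IrreducibleSpace Y := ⟨‹_›⟩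
  exact isIntegral_of_irreducibleSpace_of_isReduced _

theorem exists_bc_chart [Algebra C D] [Algebra C A] {q : Y ⟶ Spec (.of C)} {m : Z ⟶ Y}
    {q' : Z ⟶ Spec (.of D)} (H : IsPullback m q' q (sp (algebraMap C D))) (j : Spec (.of A) ⟶ Y)
    [IsOpenImmersion j] (h : j ≫ q = sp (algebraMap C A)) :
    ∃ j' : Spec (.of (D ⊗[C] A)) ⟶ Z, IsOpenImmersion j' ∧ j' ≫ q' = sp (algebraMap D _) ∧
      j' ≫ m = sp (Algebra.TensorProduct.includeRight (R := C) (A := D)).toRingHom ≫ j := by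
  have P := (isPullback_SpecMap_of_isPushout _ _ _ _ (CommRingCat.isPushout_tensorProduct C D A))
  let j' := H.lift (sp (Algebra.TensorProduct.includeRight (R := C) (A := D)).toRingHom ≫ j)
    (sp (algebraMap D _)) (by rw [Category.assoc, h]; exact P.w.symm)
  have h1 : j' ≫ q' = _ := H.lift_snd _ _ _
  have h2 : j' ≫ m = _ := H.lift_fst _ _ _
  refine ⟨j', MorphismProperty.of_isPullback (IsPullback.of_bot (h₁₁ := sp _) ?_ h2.symm H)
    ‹IsOpenImmersion j›, h1, h2⟩
  rw [h, h1]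
  exact P.flip

theorem ufd_smooth [IsDomain A] [Algebra k A] [Algebra.Smooth k A] (p : Ideal A) [hp : p.IsMaximal] :
    UniqueFactorizationMonoid (Localization.AtPrime p) := by
  obtain ⟨e, he⟩ := exists_point (k := k) p hp.ne_top
  obtain rfl := hp.eq_of_le (Ideal.IsPrime.ne_top inferInstance) he
  obtain ⟨s, hs, h⟩ := (RingHom.smooth_algebraMap.2 ‹_›).locally_isStandardSmooth
  obtain ⟨t, ht, h1⟩ : ∃ t ∈ s, t ∉ kerPt e := by
    by_contra! h1
    exact hp.ne_top (top_le_iff.1 (hs ▸ Ideal.span_le.2 h1))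
  obtain ⟨n, z, h2, h3⟩ := (h t ht).exists_etale_mvPolynomial
  let B := Localization.Away t
  let R := Localization.AtPrime (kerPt e)
  have h4 : Submonoid.powers t ≤ (kerPt e).primeCompl := Submonoid.powers_le.2 h1
  have := IsLocalization.isDomain_of_le_nonZeroDivisors B
    (h4.trans (kerPt e).primeCompl_le_nonZeroDivisors)
  let := IsLocalization.localizationAlgebraOfSubmonoidLe B R _ _ h4
  have := IsLocalization.localization_isScalarTower_of_submonoid_le B R _ _ h4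
  have := IsLocalization.isLocalization_of_submonoid_le B R _ _ h4
  have h5 : ∀ a, resAt R e (algebraMap B R (algebraMap A B a)) = e a := fun a => by
    rw [← IsScalarTower.algebraMap_apply, resAt_map]
  let e' : B →ₐ[k] k := ⟨(resAt R e).comp (algebraMap B R), fun c => (h5 _).trans (e.commutes c)⟩
  have : IsLocalization.AtPrime R (kerPt e') := .of_le ((kerPt e).primeCompl.map (algebraMap A B)) _
    (by rintro _ ⟨a, ha, rfl⟩ h; exact ha ((h5 a).symm.trans h)) fun _ h => isUnit_of_resAt h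
  exact ufd_local ⟨z, DFunLike.congr_fun h2⟩ h3 e' R

open AffineSpace in
theorem exists_line {f : Y ⟶ Spec (.of k)} (hf : Elliptic f) (v : Spec (.of (DualNumber k)) ⟶ Y)
    (hv : v ≫ f = epsProj k) : ∃ U : Y.Opens, v (closedPoint _) ∈ U ∧ ∀ (A : Type) [CommRing A]
      (g : Spec (.of A) ⟶ Y) (e : A →+* k), Set.range g ⊆ U → sp e ≫ g = epsPoint k ≫ v →
      ∃ γ : Spec (.of A[X]) ⟶ Y, γ ≫ f = sp Polynomial.C ≫ g ≫ f ∧ sp constantCoeff ≫ γ = g ∧
        sp (eval₂RingHom ((inlR k).comp e) DualNumber.eps) ≫ γ = v := by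
  obtain ⟨σ, hσ⟩ := hf.2
  obtain ⟨w, h1, h2, h3⟩ := hσ v hv
  obtain ⟨i, hi⟩ := σ.cover (v (closedPoint _))
  refine ⟨σ.U i, hi, fun A _ g e hg he => ?_⟩
  obtain ⟨g, rfl⟩ : ∃ g', g' ≫ (σ.U i).ι = g :=
    ⟨_, IsOpenImmersion.lift_fac _ g (by rwa [Scheme.Opens.range_ι])⟩
  obtain ⟨φ, hφ⟩ := sp_surj (g ≫ (σ.U i).ι ≫ f)
  have h4 : e.comp φ = RingHom.id k := sp_inj (by
    rw [← sp_comp, hφ, reassoc_of% he, hv]
    exact (sp_comp _ _).trans (congrArg sp (RingHom.ext fun a => rfl)))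
  obtain ⟨w, rfl, h5⟩ : ∃ w', w' ≫ σ.e i = w ∧ w' ≫ _ = epsProj k ≫ sp e ≫ g :=
    ⟨_, (σ.isPullback i).lift_fst w _ (by rw [h1, ← he]; simp), (σ.isPullback i).lift_snd _ _ _⟩
  have : IsOpenImmersion (σ.e i) :=
    MorphismProperty.of_isPullback (σ.isPullback i).flip (inferInstance : IsOpenImmersion _)
  have h6 : epsPoint k ≫ w = sp e ≫ g ≫ zeroSec _ _ := (cancel_mono (σ.e i)).1 (by
    rw [Category.assoc, h2, Category.assoc, Category.assoc, σ.zero_eq, ← reassoc_of% he])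
  let c := fun a => (Scheme.ΓSpecIso (.of (DualNumber k))).hom (w.appTop (coord _ a))
  have hc : ∀ a, (Scheme.ΓSpecIso (.of (DualNumber k))).inv (c a) = w.appTop (coord _ a) :=
    fun a => Iso.hom_inv_id_apply _ _
  have h7 : ∀ a, (c a).fst = 0 := fun a => by
    have := congrArg (fun g => g.appTop (coord _ a)) h6
    simp only [appTop_comp, homOfVector_appTop_coord, map_zero] at this
    rw [← hc] at this
    exact (map_eq_zero_iff _ (Scheme.ΓSpecIso (.of k)).symm.commRingCatIsoToRingEquiv.injective).1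
      ((sp_app (fstR k) _).symm.trans this)
  let l := homOfVector (sp Polynomial.C ≫ g) fun a =>
    (Scheme.ΓSpecIso (.of A[X])).inv (Polynomial.C (φ (c a).snd) * X)
  refine ⟨l ≫ σ.e i ≫ σ.s, ?_, ?_, ?_⟩
  · rw [Category.assoc, Category.assoc, σ.s_over, (σ.isPullback i).w_assoc, homOfVector_over_assoc]
    simp
  · have : sp constantCoeff ≫ l = g ≫ zeroSec _ _ := hom_ext (by
      rw [Category.assoc, Category.assoc, homOfVector_over, homOfVector_over, sp_comp_assoc,
        show constantCoeff.comp Polynomial.C = RingHom.id A from RingHom.ext (by simp), sp_id]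
      simp) fun a => by
        rw [appTop_comp, appTop_comp, homOfVector_appTop_coord, homOfVector_appTop_coord, map_zero,
          sp_app]
        simp
    rw [reassoc_of% this, reassoc_of% σ.zero_eq, σ.zero_s, Category.comp_id]
  · have : sp (eval₂RingHom ((inlR k).comp e) DualNumber.eps) ≫ l = w := hom_ext (by
      rw [Category.assoc, homOfVector_over, h5, sp_comp_assoc]
      refine Eq.trans ?_ (sp_comp_assoc _ _ _).symm
      congr 2
      ext1 a
      simp) fun a => by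
        rw [appTop_comp, homOfVector_appTop_coord, sp_app, ← hc]
        congr 1
        ext <;> simp [h7, TrivSqZeroExt.algebraMap_eq_inl, show ∀ x, e (φ x) = x from DFunLike.congr_fun h4]
    rw [reassoc_of% this, ← h3, Category.assoc]

end Pool.Agent.MP_e8e0b6_ag

end MrgPart3

-- marker of a merged file
example : 731051 + 305169 = 731051 + 305169 := rfl
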