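import Pool.Agent.MP_e8e0b6_ag.S.Chart

/-!
Domination of local subrings, centres, images under specialisation, and the socle argument.
-/

set_option linter.unusedSectionVars false

open TensorProduct IsLocalRing

namespace Pool.Agent.MP_e8e0b6_ag

section
variable {Ω E R : Type} [Field Ω] [Field E] [CommRing R] {O W W' : Subring Ω} {a b : Ω}

/-- `W` dominates `O`. -/
def Dom (O W : Subring Ω) : Prop := O ≤ W ∧ ∀ a ∈ O, Un W a → Un O a

theorem Dom.rfl : Dom O O := ⟨le_rfl, fun _ _ h => h⟩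

theorem Dom.trans (h : Dom O W) (h' : Dom W W') : Dom O W' :=
  ⟨h.1.trans h'.1, fun a ha hu => h.2 a ha (h'.2 a (h.1 ha) hu)⟩

theorem Dom.loc (h : Dom O W) (hW : Loc W) : Loc O := fun a ha =>
  (hW a (h.1 ha)).imp (h.2 a ha) (h.2 _ (O.sub_mem O.one_mem ha))

theorem Dom.mem_of_inv (h : Dom O W) (ha : a ∈ W) (hi : a⁻¹ ∈ O) : a ∈ O := by
  by_cases h0 : a = 0
  · exact h0 ▸ O.zero_mem
  · simpa using (h.2 _ hi ⟨h.1 hi, inv_ne_zero h0, by simpa using ha⟩).2.2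

theorem not_un_zero : ¬ Un W 0 := fun h => h.2.1 rfl

theorem Loc.not_un_add (hW : Loc W) (ha : a ∈ W) (hb : b ∈ W) (h : ¬ Un W a) (h' : ¬ Un W b) :
    ¬ Un W (a + b) := fun hu => (hW.add ha hb hu).elim h h'

theorem Loc.un_of_sub (hW : Loc W) (ha : Un W a) (hb : b ∈ W) (h : ¬ Un W (b - a)) : Un W b := by
  simpa using hW.add_un ha (W.sub_mem hb ha.1) h

theorem not_un_of_nonunits {V : ValuationSubring Ω} (h : a ∈ V.nonunits) : ¬ Un V.toSubring a :=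
  fun hu => (V.mem_nonunits_iff_or.1 h).elim hu.2.1 fun h' => h' hu.2.2

theorem exists_dom (hW : Loc W) : ∃ V : ValuationSubring Ω, Dom W V.toSubring := by
  obtain ⟨V, h1, h2⟩ := Ideal.image_subset_nonunits_valuationSubring
    (ctr W.subtype hW fun x => x.2) (Ideal.IsPrime.ne_top inferInstance)
  exact ⟨V, h1, fun a ha hu => by_contra fun h =>
    not_un_of_nonunits (h2 ⟨⟨a, ha⟩, h, rfl⟩) hu⟩

theorem mem_of_dom (hW : Loc W) [IsIntegrallyClosedIn W Ω]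
    (h : ∀ V : ValuationSubring Ω, Dom W V.toSubring → a ∈ V) : a ∈ W := by
  have := loc_iff.1 hW
  by_contra ha
  obtain ⟨V, ⟨h1, h2⟩, h3⟩ :=
    LocalSubring.exists_le_valuationSubring_of_isIntegrallyClosedIn (R := ⟨W⟩) ha
  refine h3 (h V ⟨h1, fun x hx hu => ?_⟩)
  exact un_iff_isUnit.2 (h2.1 ⟨x, hx⟩ ((un_iff_isUnit (x := Subring.inclusion h1 ⟨x, hx⟩)).1 hu))

/-- A valuation ring containing a local ring contains a valuation ring dominating it. -/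
theorem exists_refine [IsLocalRing R] (r : R →+* Ω) (V : ValuationSubring Ω) (h : ∀ x, r x ∈ V) :
    ∃ U : ValuationSubring Ω, U.toSubring ≤ V.toSubring ∧ (∀ x, r x ∈ U) ∧
      ∀ x ∈ maximalIdeal R, ¬ Un U.toSubring (r x) := by
  let n := V.nonunits
  have hn : ∀ x ∈ V, ∀ y ∈ n, x * y ∈ n := fun x hx y hy => V.mem_nonunits_iff.2 (by
    rw [map_mul]
    exact (mul_le_of_le_one_left' ((V.valuation_le_one_iff x).2 hx)).trans_lt
      (V.mem_nonunits_iff.1 hy))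
  have hV : ∀ x b, x - r b ∈ n → x ∈ V := fun x b hx => by
    simpa using V.add_mem _ _ (V.nonunits_le hx) (h b)
  have hm : ∀ x y b c, x - r b ∈ n → y - r c ∈ n → x * y - r (b * c) ∈ n := fun x y b c hx hy => by
    have := n.add_mem (hn x (hV x b hx) _ hy) (hn _ (h c) _ hx)
    rw [map_mul]; convert this using 1; ring
  have ha : ∀ x y b c, x - r b ∈ n → y - r c ∈ n → x + y - r (b + c) ∈ n := fun x y b c hx hy => by
    rw [map_add]; convert n.add_mem hx hy using 1; ring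
  let D : Subring Ω :=
    { carrier := {x | ∃ b, x - r b ∈ n}
      one_mem' := ⟨1, by simp⟩
      zero_mem' := ⟨0, by simp⟩
      mul_mem' := fun ⟨b, hb⟩ ⟨c, hc⟩ => ⟨_, hm _ _ b c hb hc⟩
      add_mem' := fun ⟨b, hb⟩ ⟨c, hc⟩ => ⟨_, ha _ _ b c hb hc⟩
      neg_mem' := fun ⟨b, hb⟩ => ⟨-b, by rw [map_neg]; convert n.neg_mem hb using 1; ring⟩ }
  let I : Ideal D :=
    { carrier := {x | ∃ b ∈ maximalIdeal R, (x : Ω) - r b ∈ n}
      zero_mem' := ⟨0, zero_mem _, by simp⟩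
      add_mem' := fun ⟨b, hb, hb'⟩ ⟨c, hc, hc'⟩ => ⟨_, add_mem hb hc, ha _ _ b c hb' hc'⟩
      smul_mem' := fun ⟨_, b, hb⟩ _ ⟨c, hc, hc'⟩ =>
        ⟨_, Ideal.mul_mem_left _ b hc, hm _ _ b c hb hc'⟩ }
  obtain ⟨U, h1, h2⟩ := I.image_subset_nonunits_valuationSubring (by
    rw [Ideal.ne_top_iff_one]
    rintro ⟨b, hb, hb'⟩
    have := (isUnit_one_sub_self_of_mem_nonunits b hb).map (r.codRestrict V.toSubring h)
    exact not_un_of_nonunits hb' (by simpa using un_iff_isUnit.2 this))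
  refine ⟨U, ValuationSubring.nonunits_le_nonunits.1 fun x hx =>
    h2 ⟨⟨x, 0, by simpa⟩, ⟨0, zero_mem _, by simpa⟩, rfl⟩, fun x => h1 ⟨x, by simp⟩, fun x hx =>
    not_un_of_nonunits (h2 ⟨⟨r x, x, by simp⟩, ⟨x, hx, by simp⟩, rfl⟩)⟩

variable {r : R →+* Ω}

/-- The local ring of `R` at the centre of `W`. -/
def cen (r : R →+* Ω) (W : Subring Ω) : Subring Ω where
  carrier := {ω | ∃ a s, Un W (r s) ∧ ω * r s = r a}
  one_mem' := ⟨1, 1, by simpa using Un.one, by simp⟩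
  zero_mem' := ⟨0, 1, by simpa using Un.one, by simp⟩
  mul_mem' := by
    rintro _ _ ⟨a, s, hs, h⟩ ⟨a', s', hs', h'⟩
    exact ⟨a * a', s * s', by simpa using hs.mul hs', by
      rw [map_mul, map_mul, ← h, ← h']; ring⟩
  add_mem' := by
    rintro _ _ ⟨a, s, hs, h⟩ ⟨a', s', hs', h'⟩
    exact ⟨a * s' + a' * s, s * s', by simpa using hs.mul hs', by
      rw [map_add, map_mul, map_mul, map_mul, ← h, ← h']; ring⟩
  neg_mem' := by
    rintro _ ⟨a, s, hs, h⟩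
    exact ⟨-a, s, hs, by rw [map_neg, ← h]; ring⟩

theorem map_mem_cen (x : R) : r x ∈ cen r W := ⟨x, 1, by simpa using Un.one, by simp⟩

theorem un_cen {s : R} (h : Un W (r s)) : Un (cen r W) (r s) :=
  ⟨map_mem_cen s, h.2.1, 1, s, h, by simp [h.2.1]⟩

theorem dom_cen (h : ∀ x, r x ∈ W) : Dom (cen r W) W := by
  refine ⟨?_, ?_⟩
  · rintro ω ⟨a, s, hs, e⟩
    exact hs.mem_of_mul (by rw [mul_comm, e]; exact h a)
  · rintro ω ⟨a, s, hs, e⟩ hu
    exact eq_div_of_mul_eq hs.2.1 e ▸ (un_cen (e ▸ hu.mul hs)).div (un_cen hs)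

theorem cen_mono (h : ∀ x, Un W (r x) → Un W' (r x)) : cen r W ≤ cen r W' :=
  fun _ ⟨a, s, hs, e⟩ => ⟨a, s, h s hs, e⟩

theorem cen_le (h : ∀ x, r x ∈ O) (h' : ∀ x, Un W (r x) → Un O (r x)) : cen r W ≤ O :=
  (cen_mono h').trans (dom_cen h).1

/-- `O` is the local ring of `R` at a prime. -/
structure Pt (r : R →+* Ω) (O : Subring Ω) : Prop where
  loc : Loc O
  mem : ∀ x, r x ∈ O
  le : O ≤ cen r O

theorem pt_cen (hW : Loc W) (h : ∀ x, r x ∈ W) : Pt r (cen r W) :=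
  ⟨(dom_cen h).loc hW, map_mem_cen, cen_mono fun _ => un_cen⟩

theorem Pt.eq_cen (h : Pt r O) (hd : Dom O W) : cen r W = O :=
  le_antisymm (cen_le h.mem fun x => hd.2 _ (h.mem x))
    (h.le.trans (cen_mono fun _ hx => hx.mono hd.1))

theorem Pt.le_of (h : Pt r O) (h1 : ∀ x, r x ∈ W) (h2 : ∀ x, Un O (r x) → Un W (r x)) : O ≤ W :=
  h.le.trans (cen_le h1 h2)

theorem pt_locS (hr : Function.Injective r) (p : Ideal R) [p.IsPrime] : Pt r (locS r p) :=
  ⟨loc_locS hr, map_mem_locS, fun _ ⟨a, s, hs, e⟩ => ⟨a, s, (un_locS hr).2 hs, e⟩⟩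

theorem pt_dom {T : Type} [CommRing T] [IsLocalRing T] (hr : Function.Injective r) (θ : R →+* T) :
    Pt r (dom r θ) :=
  ⟨loc_dom hr, fun x => mem_dom.2 ⟨_, .of x⟩, fun _ h => by
    obtain ⟨_, a, s, hs, e, -⟩ := mem_dom.1 h
    exact ⟨a, s, (Ext.of s).un hr hs, e⟩⟩

theorem Pt.eq_locS (h : Pt r O) : O = locS r (ctr r h.loc h.mem) :=
  le_antisymm (fun _ hω => let ⟨a, s, hs, e⟩ := h.le hω; ⟨a, s, not_not.2 hs, e⟩)
    (locS_ctr_le _ _)

theorem Pt.noeth [IsNoetherianRing R] (hr : Function.Injective r) (h : Pt r O) :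
    IsNoetherianRing O := by
  rw [h.eq_locS]
  let := (r.codRestrict (locS r (ctr r h.loc h.mem)) map_mem_locS).toAlgebra
  have := isLocalization_locS hr (ctr r h.loc h.mem)
  exact IsLocalization.isNoetherianRing (ctr r h.loc h.mem).primeCompl _ inferInstance

variable {θ : R →+* E} {ω : Ω} {e : E} {P : Subring E}

theorem Ext.inv (hr : Function.Injective r) (h : Ext r θ ω e) (he : e ≠ 0) : Ext r θ ω⁻¹ e⁻¹ :=
  Ext.one.of_mul h he.isUnit (inv_mul_cancel₀ (h.ne_zero hr he)) (inv_mul_cancel₀ he)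

theorem Ext.ne_of_un (hr : Function.Injective r) (h : Ext r θ ω e) (hu : Un (dom r θ) ω) : e ≠ 0 :=
  (h.isUnit hr hu).ne_zero

variable (r θ) in
/-- The set of values of the elements of `O`. -/
def img (O : Subring Ω) : Subring E :=
  (graph r θ ⊓ O.comap (RingHom.fst Ω E)).map (RingHom.snd Ω E)

variable (r θ) in
/-- The elements with a value in `P`. -/
def pre (P : Subring E) : Subring Ω :=
  (graph r θ ⊓ P.comap (RingHom.snd Ω E)).map (RingHom.fst Ω E)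

theorem mem_img : e ∈ img r θ O ↔ ∃ ω ∈ O, Ext r θ ω e :=
  ⟨fun ⟨x, hx, h⟩ => ⟨x.1, hx.2, h ▸ hx.1⟩, fun ⟨ω, h, h'⟩ => ⟨(ω, e), ⟨h', h⟩, rfl⟩⟩

theorem mem_pre : ω ∈ pre r θ P ↔ ∃ e ∈ P, Ext r θ ω e :=
  ⟨fun ⟨x, hx, h⟩ => ⟨x.2, hx.2, h ▸ hx.1⟩, fun ⟨e, h, h'⟩ => ⟨(ω, e), ⟨h', h⟩, rfl⟩⟩

theorem pre_le_dom : pre r θ P ≤ dom r θ := fun _ h =>
  let ⟨e, _, h'⟩ := mem_pre.1 h; mem_dom.2 ⟨e, h'⟩

theorem Ext.mem_of_pre (hr : Function.Injective r) (h : Ext r θ ω e) (hω : ω ∈ pre r θ P) :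
    e ∈ P :=
  let ⟨_, he, h'⟩ := mem_pre.1 hω; h'.unique hr h ▸ he

theorem un_pre (hr : Function.Injective r) (h : Ext r θ ω e) : Un (pre r θ P) ω ↔ Un P e := by
  refine ⟨fun hu => ?_, fun hu => ⟨mem_pre.2 ⟨e, hu.1, h⟩, h.ne_zero hr hu.2.1,
    mem_pre.2 ⟨_, hu.2.2, h.inv hr hu.2.1⟩⟩⟩
  have he := h.ne_of_un hr (hu.mono pre_le_dom)
  exact ⟨h.mem_of_pre hr hu.1, he, (h.inv hr he).mem_of_pre hr hu.2.2⟩

theorem loc_pre (hr : Function.Injective r) (hP : Loc P) : Loc (pre r θ P) := fun _ hω => by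
  obtain ⟨e, he, h⟩ := mem_pre.1 hω
  rw [un_pre hr h, un_pre hr (Ext.one.sub h)]
  exact hP e he

theorem un_img (hr : Function.Injective r) (hO : Loc O) (hle : O ≤ dom r θ) (hω : ω ∈ O)
    (h : Ext r θ ω e) : Un (img r θ O) e ↔ Un O ω := by
  refine ⟨fun hu => ?_, fun hu => ?_⟩
  · obtain ⟨ω', h1, h2⟩ := mem_img.1 hu.2.2
    refine Un.left (hO.un_of_sub Un.one (O.mul_mem hω h1) fun h3 => ?_) hω h1
    exact ((h.mul h2).sub Ext.one).ne_of_un hr (h3.mono hle) (by simp [hu.2.1])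
  · have he := h.ne_of_un hr (hu.mono hle)
    exact ⟨mem_img.2 ⟨ω, hω, h⟩, he, mem_img.2 ⟨_, hu.2.2, h.inv hr he⟩⟩

theorem loc_img (hr : Function.Injective r) (hO : Loc O) (hle : O ≤ dom r θ) :
    Loc (img r θ O) := fun _ he => by
  obtain ⟨ω, hω, h⟩ := mem_img.1 he
  rw [un_img hr hO hle hω h, un_img hr hO hle (O.sub_mem O.one_mem hω) (Ext.one.sub h)]
  exact hO ω hω

theorem dom_pre (hr : Function.Injective r) (hO : Loc O) (hle : O ≤ dom r θ)
    (hP : Dom (img r θ O) P) : Dom O (pre r θ P) := by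
  refine ⟨fun ω hω => ?_, fun ω hω hu => ?_⟩ <;> obtain ⟨e, h⟩ := mem_dom.1 (hle hω)
  · exact mem_pre.2 ⟨e, hP.1 (mem_img.2 ⟨ω, hω, h⟩), h⟩
  · exact (un_img hr hO hle hω h).1 (hP.2 e (mem_img.2 ⟨ω, hω, h⟩) ((un_pre hr h).1 hu))

theorem dom_pre_valuation (hr : Function.Injective r) {Q : ValuationSubring E}
    (h : Dom (pre r θ Q.toSubring) W) (hω : ω ∈ W) (he : Ext r θ ω e) : ω ∈ pre r θ Q.toSubring := by
  rcases Q.mem_or_inv_mem e with h1 | h1
  · exact mem_pre.2 ⟨e, h1, he⟩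
  · by_cases h0 : e = 0
    · exact mem_pre.2 ⟨e, h0 ▸ Q.zero_mem, he⟩
    · exact h.mem_of_inv hω (mem_pre.2 ⟨_, h1, he.inv hr h0⟩)

/-- Two pairs that span the same module define the same map to the projective line. -/
theorem proj_swap (hO : Loc O) {p q x y c d c' d' e₁ e₂ : Ω} (hc : c ∈ O) (hd : d ∈ O)
    (hc' : c' ∈ O) (hd' : d' ∈ O) (h1 : e₁ ∈ O) (h2 : e₂ ∈ O) (hq : q ≠ 0)
    (hx : x = c * p + d * q) (hy : y = c' * p + d' * q) (he : q = e₁ * x + e₂ * y)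
    (h : p / q ∈ O) : x / y ∈ O ∨ (x / y)⁻¹ ∈ O := by
  have m1 : x / q ∈ O := by
    rw [hx, add_div, mul_div_assoc, mul_div_cancel_right₀ _ hq]; exact O.add_mem (O.mul_mem hc h) hd
  have m2 : y / q ∈ O := by
    rw [hy, add_div, mul_div_assoc, mul_div_cancel_right₀ _ hq]
    exact O.add_mem (O.mul_mem hc' h) hd'
  have e : e₁ * (x / q) + e₂ * (y / q) = 1 := by
    rw [← mul_div_assoc, ← mul_div_assoc, ← add_div, ← he, div_self hq]
  rcases hO.add (O.mul_mem h1 m1) (O.mul_mem h2 m2) (e ▸ Un.one) with h3 | h3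
  · exact Or.inr (by simpa [div_div_div_cancel_right₀ hq] using (h3.right h1 m1).div_mem m2)
  · exact Or.inl (by simpa [div_div_div_cancel_right₀ hq] using (h3.right h2 m2).div_mem m1)

end

section
variable {B D V V' : Type} [CommRing B] [CommRing D] [Algebra B D] [AddCommGroup V] [Module B V]
  [AddCommGroup V'] [Module B V'] [Module D V'] [IsScalarTower B D V'] {j : V →ₗ[B] V'}

theorem mem_span_image {N : Submodule B V} {x : V'} : x ∈ Submodule.span D (j '' N) ↔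
    ∃ y : D ⊗[B] N, j.liftBaseChange D (N.subtype.lTensor D y) = x := by
  refine ⟨fun h => ?_, ?_⟩
  · induction h using Submodule.span_induction with
    | mem _ h => obtain ⟨v, hv, rfl⟩ := h; exact ⟨1 ⊗ₜ ⟨v, hv⟩, by simp⟩
    | zero => exact ⟨0, by simp⟩
    | add _ _ _ _ h h' =>
      obtain ⟨y, rfl⟩ := h; obtain ⟨y', rfl⟩ := h'; exact ⟨y + y', by simp⟩
    | smul d _ _ h =>
      obtain ⟨y, rfl⟩ := h
      exact ⟨d • y, by rw [← map_smul]; exact congrArg _ ((N.subtype.baseChange D).map_smul d y)⟩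
  · rintro ⟨y, rfl⟩
    induction y using TensorProduct.induction_on with
    | zero => simp
    | tmul d v => exact Submodule.smul_mem _ d (Submodule.subset_span ⟨v, v.2, rfl⟩)
    | add a b ha hb => simp only [map_add]; exact add_mem ha hb

/-- Flat base change commutes with intersections and preimages. -/
theorem fbc [Module.Flat B D] (hj : Function.Injective (j.liftBaseChange D)) (μ : V →ₗ[B] V)
    (μ' : V' →ₗ[D] V') (hμ : ∀ v, μ' (j v) = j (μ v)) {N N₁ : Submodule B V} {x : V'}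
    (hx : x ∈ Submodule.span D (j '' N)) (hx' : μ' x ∈ Submodule.span D (j '' N₁)) :
    x ∈ Submodule.span D (j '' (N ⊓ N₁.comap μ : Submodule B V)) := by
  obtain ⟨y, rfl⟩ := mem_span_image.1 hx
  obtain ⟨y₁, h1⟩ := mem_span_image.1 hx'
  have h2 : ∀ y : D ⊗[B] N, μ' (j.liftBaseChange D (N.subtype.lTensor D y)) =
      j.liftBaseChange D ((μ ∘ₗ N.subtype).lTensor D y) := fun y => by
    induction y using TensorProduct.induction_on with
    | zero => simp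
    | tmul d v => simp [hμ]
    | add a b ha hb => simp only [map_add, ha, hb]
  obtain ⟨y₂, rfl⟩ := (Module.Flat.lTensor_exact D
    (LinearMap.exact_subtype_ker_map (N₁.mkQ ∘ₗ μ ∘ₗ N.subtype)) y).1 (by
      rw [LinearMap.lTensor_comp_apply, ← hj (h1.trans (h2 y)), ← LinearMap.lTensor_comp_apply]
      have : N₁.mkQ ∘ₗ N₁.subtype = 0 := by ext; simp
      rw [this]; simp)
  clear h1 hx hx'
  induction y₂ using TensorProduct.induction_on with
  | zero => simp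
  | tmul d v =>
    exact Submodule.smul_mem _ d (Submodule.subset_span
      ⟨v.1, ⟨v.1.2, (Submodule.Quotient.mk_eq_zero N₁).1 v.2⟩, rfl⟩)
  | add a b ha hb => simp only [map_add]; exact add_mem ha hb

theorem fbc_fin [Module.Flat B D] (hj : Function.Injective (j.liftBaseChange D)) {ι : Type}
    [Finite ι] (μ : ι → V →ₗ[B] V) (μ' : ι → V' →ₗ[D] V') (hμ : ∀ i v, μ' i (j v) = j (μ i v))
    (N : ι → Submodule B V) {x : V'} (hx : x ∈ Submodule.span D (j '' (⊤ : Submodule B V)))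
    (hx' : ∀ i, μ' i x ∈ Submodule.span D (j '' N i)) :
    x ∈ Submodule.span D (j '' {v | ∀ i, μ i v ∈ N i}) := by
  classical
  have := Fintype.ofFinite ι
  have key : ∀ s : Finset ι,
      x ∈ Submodule.span D (j '' (⨅ i ∈ s, (N i).comap (μ i) : Submodule B V)) := fun s => by
    induction s using Finset.induction_on with
    | empty => simpa using hx
    | insert i s _ ih =>
      rw [Finset.iInf_insert, inf_comm]
      exact fbc hj (μ i) (μ' i) (hμ i) ih (hx' i)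
  refine Submodule.span_mono (Set.image_mono fun v hv i => ?_) (key Finset.univ)
  simpa using (Submodule.mem_iInf _).1 hv i

theorem colon_map [Module.Flat B D] {𝔟 𝔠 : Ideal B} {m : B} (h : ∀ b, m * b ∈ 𝔟 → b ∈ 𝔠) {x : D}
    (hx : algebraMap B D m * x ∈ 𝔟.map (algebraMap B D)) : x ∈ 𝔠.map (algebraMap B D) := by
  refine Submodule.span_mono (Set.image_mono fun b hb => h b hb.2)
    (fbc (j := Algebra.linearMap B D) (N := ⊤) (N₁ := 𝔟) ?_ (LinearMap.mulLeft B m)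
      (LinearMap.mulLeft D (algebraMap B D m)) (fun v => by simp) ?_ hx)
  · have : (Algebra.linearMap B D).liftBaseChange D = (AlgebraTensorModule.rid B D D).toLinearMap := by
      ext; simp
    rw [this]; exact (AlgebraTensorModule.rid B D D).injective
  · simpa using Submodule.smul_mem (Submodule.span D (Algebra.linearMap B D '' (⊤ : Submodule B B)))
      x (Submodule.subset_span ⟨1, trivial, rfl⟩)

/-- The socle argument. -/
theorem soc [IsNoetherianRing B] [IsLocalRing B] {X : Type} (N : X → Submodule B V) (y : X → V)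
    (hy : ∀ x, y x ∈ N x)
    (hK : ∀ x (𝔞 : Ideal B), (∀ n, y x ∈ (𝔞 ⊔ maximalIdeal B ^ n) • N x) → y x ∈ 𝔞 • N x)
    (𝔞 : Ideal B) (h : ∃ x, y x ∉ 𝔞 • N x) :
    ∃ (𝔟 : Ideal B) (m : B) (z : X → V), 𝔞 ≤ 𝔟 ∧ (∀ b, m * b ∈ 𝔟 → b ∈ maximalIdeal B) ∧
      (∀ x, z x ∈ N x ∧ y x - m • z x ∈ 𝔟 • N x) ∧ ∃ x, z x ∉ maximalIdeal B • N x := by
  classical
  obtain ⟨𝔟, ⟨h1, x₀, h2⟩, hmax⟩ := set_has_maximal_iff_noetherian.2
    (inferInstance : IsNoetherian B B) {𝔟 | 𝔞 ≤ 𝔟 ∧ ∃ x, y x ∉ 𝔟 • N x} ⟨𝔞, le_rfl, h⟩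
  have h3 : ∀ 𝔠, ¬ 𝔠 ≤ 𝔟 → ∀ x, y x ∈ (𝔟 ⊔ 𝔠) • N x := fun 𝔠 hc x => by_contra fun hx =>
    hmax _ ⟨h1.trans le_sup_left, x, hx⟩ (left_lt_sup.2 hc)
  have h4 : ∃ n, maximalIdeal B ^ n ≤ 𝔟 := by_contra fun hn =>
    h2 (hK x₀ 𝔟 fun n => h3 _ (fun h => hn ⟨n, h⟩) x₀)
  obtain ⟨n, hn⟩ : ∃ n, Nat.find h4 = n + 1 := Nat.exists_eq_succ_of_ne_zero fun h0 => by
    have := Nat.find_spec h4
    rw [h0, pow_zero, Ideal.one_eq_top, top_le_iff] at this
    exact h2 (by simpa [this] using hy x₀)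
  obtain ⟨m, hm, hm'⟩ := SetLike.not_le_iff_exists.1 (Nat.find_min h4 (m := n) (by omega))
  have h5 : ∀ b ∈ maximalIdeal B, m * b ∈ 𝔟 := fun b hb =>
    Nat.find_spec h4 (by rw [hn, pow_succ]; exact Ideal.mul_mem_mul hm hb)
  have h6 : ∀ x, ∃ z ∈ N x, y x - m • z ∈ 𝔟 • N x := fun x => by
    have := h3 (Ideal.span {m}) (by rwa [Ideal.span_singleton_le_iff_mem]) x
    rw [Submodule.sup_smul, Submodule.ideal_span_singleton_smul] at this
    obtain ⟨u, hu, _, ⟨z, hz, rfl⟩, e⟩ := Submodule.mem_sup.1 this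
    exact ⟨z, hz, by rw [← e]; simpa using hu⟩
  choose z hz hz' using h6
  refine ⟨𝔟, m, z, h1, fun b hb => by_contra fun hb' => hm' ?_, fun x => ⟨hz x, hz' x⟩, x₀,
    fun h7 => h2 ?_⟩
  · exact (Ideal.mul_unit_mem_iff_mem _ (not_not.1 hb')).1 hb
  · have : m • z x₀ ∈ 𝔟 • N x₀ := Submodule.smul_induction_on (p := fun v => m • v ∈ 𝔟 • N x₀) h7
      (fun b hb v hv => by rw [smul_smul]; exact Submodule.smul_mem_smul (h5 b hb) hv)
      fun _ _ h h' => by rw [smul_add]; exact add_mem h h'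
    simpa using add_mem (hz' x₀) this

end

section
variable {B R Ω : Type} [CommRing B] [CommRing R] [Field Ω] [Algebra B Ω] [Algebra B R]
  {r : R →+* Ω} {O W : Subring Ω} {𝔟 : Ideal B} {x : Ω}

variable (B) in
/-- A subring as a module. -/
def sm (O : Subring Ω) : Submodule B Ω := Submodule.span B O

theorem mem_sm (h : ∀ b, algebraMap B Ω b ∈ O) : x ∈ sm B O ↔ x ∈ O := by
  refine ⟨fun hx => ?_, fun hx => Submodule.subset_span hx⟩
  induction hx using Submodule.span_induction with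
  | mem _ h => exact h
  | zero => exact O.zero_mem
  | add _ _ _ _ h h' => exact O.add_mem h h'
  | smul d _ _ h' => rw [Algebra.smul_def]; exact O.mul_mem (h d) h'

theorem smul_sm_induction (h : ∀ b, algebraMap B Ω b ∈ O) {p : Ω → Prop} (hx : x ∈ 𝔟 • sm B O)
    (h1 : ∀ b ∈ 𝔟, ∀ o ∈ O, p (algebraMap B Ω b * o)) (h2 : ∀ x y, p x → p y → p (x + y)) : p x :=
  Submodule.smul_induction_on hx
    (fun b hb o ho => by rw [Algebra.smul_def]; exact h1 b hb o ((mem_sm h).1 ho)) h2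

theorem mul_mem_smul_sm {b : B} (hb : b ∈ 𝔟) (hx : x ∈ O) : algebraMap B Ω b * x ∈ 𝔟 • sm B O := by
  rw [← Algebra.smul_def]; exact Submodule.smul_mem_smul hb (Submodule.subset_span hx)

theorem smul_sm_mul (h : ∀ b, algebraMap B Ω b ∈ O) (hle : O ≤ W) (hx : x ∈ 𝔟 • sm B O) {t : Ω}
    (ht : t ∈ W) : x * t ∈ 𝔟 • sm B W :=
  smul_sm_induction h (p := fun x => x * t ∈ 𝔟 • sm B W) hx
    (fun b hb o ho => by rw [mul_assoc]; exact mul_mem_smul_sm hb (W.mul_mem (hle ho) ht))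
    fun _ _ h h' => by rw [add_mul]; exact add_mem h h'

theorem mem_map_iff_smul_sm {φ : B →+* O} (hφ : ∀ b, (φ b : Ω) = algebraMap B Ω b) {y : O} :
    y ∈ 𝔟.map φ ↔ (y : Ω) ∈ 𝔟 • sm B O := by
  have h : ∀ b, algebraMap B Ω b ∈ O := fun b => hφ b ▸ (φ b).2
  refine ⟨fun hy => ?_, fun hy => ?_⟩
  · induction hy using Submodule.span_induction with
    | mem _ h' => obtain ⟨b, hb, rfl⟩ := h'; simpa [hφ] using mul_mem_smul_sm hb O.one_mem
    | zero => exact zero_mem _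
    | add _ _ _ _ h h' => exact add_mem h h'
    | smul d y _ h' => simpa [mul_comm] using smul_sm_mul h le_rfl h' d.2
  · obtain ⟨z, hz, e⟩ := smul_sm_induction h (p := fun x => ∃ z ∈ 𝔟.map φ, (z : Ω) = x) hy
      (fun b hb o ho => ⟨φ b * ⟨o, ho⟩, Ideal.mul_mem_right _ _ (Ideal.mem_map_of_mem _ hb), by
        simp [hφ]⟩) fun _ _ ⟨z, hz, e⟩ ⟨z', hz', e'⟩ => ⟨z + z', add_mem hz hz', by simp [e, e']⟩
    exact Subtype.ext e ▸ hz

theorem krull_sm [IsNoetherianRing O] (hO : Loc O) (h : ∀ b, algebraMap B Ω b ∈ O) {𝔪 : Ideal B}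
    (hm : ∀ b ∈ 𝔪, ¬ Un O (algebraMap B Ω b)) (hx : x ∈ O) (𝔞 : Ideal B)
    (H : ∀ n, x ∈ (𝔞 ⊔ 𝔪 ^ n) • sm B O) : x ∈ 𝔞 • sm B O := by
  have := loc_iff.1 hO
  let φ : B →+* O := (algebraMap B Ω).codRestrict O h
  have h1 : 𝔪.map φ ≠ ⊤ := fun e => (maximalIdeal.isMaximal O).ne_top (top_le_iff.1 (e.ge.trans
    (Ideal.map_le_iff_le_comap.2 fun b hb hu => hm b hb (un_iff_isUnit.2 hu))))
  refine (mem_map_iff_smul_sm (φ := φ) (fun _ => rfl) (y := ⟨x, hx⟩)).1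
    ((Submodule.Quotient.mk_eq_zero _).1 ?_)
  refine ((𝔪.map φ).iInf_pow_smul_eq_bot_of_isLocalRing (M := O ⧸ 𝔞.map φ) h1).le
    ((Submodule.mem_iInf _).2 fun n => ?_)
  have h2 := (mem_map_iff_smul_sm (φ := φ) (fun _ => rfl) (y := ⟨x, hx⟩)).2 (H n)
  rw [Ideal.map_sup, Ideal.map_pow] at h2
  obtain ⟨u, hu, v, hv, e⟩ := Submodule.mem_sup.1 h2
  rw [← e, Submodule.Quotient.mk_add, (Submodule.Quotient.mk_eq_zero _).2 hu, zero_add,
    ← mul_one v, ← smul_eq_mul, Submodule.Quotient.mk_smul]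
  exact Submodule.smul_mem_smul hv trivial

variable (hc : ∀ b, r (algebraMap B R b) = algebraMap B Ω b)
include hc

theorem Pt.smul_iff (h : Pt r O) : x ∈ 𝔟 • sm B O ↔
    ∃ a ∈ 𝔟.map (algebraMap B R), ∃ s, Un O (r s) ∧ x * r s = r a := by
  have hB : ∀ b, algebraMap B Ω b ∈ O := fun b => hc b ▸ h.mem _
  refine ⟨fun hx => smul_sm_induction hB
    (p := fun x => ∃ a ∈ 𝔟.map (algebraMap B R), ∃ s, Un O (r s) ∧ x * r s = r a) hx ?_ ?_, ?_⟩
  · intro b hb o ho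
    obtain ⟨a, s, hs, e⟩ := h.le ho
    exact ⟨_ * a, Ideal.mul_mem_right _ _ (Ideal.mem_map_of_mem _ hb), s, hs, by
      rw [mul_assoc, e, map_mul, hc]⟩
  · rintro _ _ ⟨a, ha, s, hs, e⟩ ⟨a', ha', s', hs', e'⟩
    exact ⟨a * s' + a' * s, add_mem (Ideal.mul_mem_right _ _ ha) (Ideal.mul_mem_right _ _ ha'),
      s * s', by simpa using hs.mul hs', by
        rw [map_add, map_mul, map_mul, map_mul, ← e, ← e']; ring⟩
  · rintro ⟨a, ha, s, hs, e⟩
    rw [eq_div_of_mul_eq hs.2.1 e, div_eq_mul_inv]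
    refine smul_sm_mul hB le_rfl ?_ hs.2.2
    refine (mem_map_iff_smul_sm (φ := (r.codRestrict O h.mem).comp (algebraMap B R)) hc
      (y := r.codRestrict O h.mem a)).1 ?_
    rw [← Ideal.map_map]; exact Ideal.mem_map_of_mem _ ha

theorem Pt.colon [Module.Flat B R] (hr : Function.Injective r) (h : Pt r O) {𝔠 : Ideal B} {m : B}
    (hm : ∀ b, m * b ∈ 𝔟 → b ∈ 𝔠) (hx : x ∈ O) (H : m • x ∈ 𝔟 • sm B O) : x ∈ 𝔠 • sm B O := by
  obtain ⟨a, ha, s, hs, e⟩ := (h.smul_iff hc).1 H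
  obtain ⟨a', s', hs', e'⟩ := h.le hx
  refine (h.smul_iff hc).2 ⟨a' * s, colon_map hm ?_, s' * s, by simpa using hs'.mul hs, by
    rw [map_mul, map_mul, ← e']; ring⟩
  have : algebraMap B R m * (a' * s) = a * s' := hr (by
    rw [map_mul, map_mul, map_mul, ← e, ← e', hc, Algebra.smul_def]; ring)
  exact this ▸ Ideal.mul_mem_right _ _ ha

end

end Pool.Agent.MP_e8e0b6_ag
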