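import Pool.Agent.MP_e8e0b6_ag.P1.Build

/-!
Smooth proper morphisms of relative dimension one with elliptic base and fibres.
-/

set_option linter.unusedSectionVars false

open AlgebraicGeometry CategoryTheory Limits IsLocalRing Polynomial TrivSqZeroExt

namespace Pool.Agent.MP_e8e0b6_ag

section
variable {P L T R Ω : Type} [CommRing P] [CommRing L] [CommRing T] [CommRing R] [Field Ω]
  (M : Submonoid P) [Algebra P L] [IsLocalization M L]
include M

theorem ext_loc {r : R →+* Ω} {θ : R →+* T} {φ : L →+* Ω} {ρ : L →+* T}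
    (h : ∀ p, Ext r θ (φ (algebraMap P L p)) (ρ (algebraMap P L p))) (b : L) :
    Ext r θ (φ b) (ρ b) := by
  obtain ⟨⟨p, s⟩, e⟩ := IsLocalization.surj M b
  exact (h p).of_mul (h s) ((IsLocalization.map_units L s).map ρ) (by rw [← map_mul, e])
    (by rw [← map_mul, e])

theorem inj_loc {g : L →+* T} (h : ∀ p, g (algebraMap P L p) = 0 → p = 0) : Function.Injective g :=
  (injective_iff_map_eq_zero g).2 fun b hb => by
    obtain ⟨⟨p, s⟩, e⟩ := IsLocalization.surj M b
    rw [h p (by rw [← e, map_mul, hb, zero_mul]), map_zero] at e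
    exact (IsLocalization.map_units L s).mul_left_eq_zero.1 e

end

variable {k A F : Type} [Field k] [IsAlgClosed k] [CharZero k] [CommRing A] [IsDomain A] [Field F]
  [Algebra k A] [Algebra A[X] F] {Y : Scheme.{0}} {η : Spec (.of F) ⟶ Y}
  {q : Y ⟶ Spec (.of A[X])}

theorem exists_psi [Y.IsSeparated] [LocallyOfFiniteType q] {ι : Type} (c : ι → Chart q η)
    (hK : η ≫ q = sp (algebraMap _ F)) {w : F} (hw : Transcendental A[X] w) {h t : A} (ht : h ∣ t)
    (h0 : t ≠ 0) (H : ∀ O, Loc O → (∀ c, algebraMap A[X] F c ∈ O) →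
      Un O (algebraMap A[X] F (C h)) → w ∈ O → ∃ j, ∀ a, (c j).κ a ∈ O) {i : ι} {a b : (c i).A}
    (hab : w * (c i).κ b = (c i).κ a) (L : Type) [CommRing L] [Algebra A[X][X] L]
    [IsLocalization.Away (C (C t) : A[X][X]) L] : ∃ Ψ : Spec (.of L) ⟶ Y,
      Ψ ≫ q = sp ((algebraMap _ L).comp C) ∧ ∀ (T : Type) [CommRing T] (θ : (c i).A →+* T)
        (ρ : L →+* T), (∀ y, ρ (algebraMap A[X][X] L (C y)) = θ (algebraMap A[X] _ y)) →
        IsUnit (θ b) → ρ (algebraMap A[X][X] L X) * θ b = θ a → sp θ ≫ (c i).j = sp ρ ≫ Ψ := by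
  have h1 := transcendental_iff_injective.1 hw
  let r : L →+* F := IsLocalization.Away.lift (C (C t) : A[X][X]) (g := (aeval w).toRingHom)
    ((map_ne_zero_iff _ h1).2 (by simpa)).isUnit
  have h2 : ∀ p, r (algebraMap A[X][X] L p) = aeval w p := IsLocalization.Away.lift_eq _ _
  have h3 := inj_loc (Submonoid.powers (C (C t) : A[X][X])) (g := r) fun p hp =>
    h1 (by rwa [← h2, map_zero])
  obtain ⟨Ψ, h4, h5⟩ := exists_glue h3 (sp ((algebraMap A[X][X] L).comp C)) q η
    (by rw [hK, sp_comp]; exact congrArg sp (RingHom.ext fun y => by simp [h2])) fun p hp => by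
      obtain ⟨u, rfl⟩ := ht
      have h4 : ∀ y, algebraMap A[X] F y ∈ locS r p := fun y => by
        simpa [h2] using map_mem_locS (r := r) (p := p) (algebraMap A[X][X] L (C y))
      have h5 := (un_locS h3).2 fun h' => hp.ne_top (p.eq_top_of_isUnit_mem h'
        (IsLocalization.Away.algebraMap_isUnit (C (C (h * u)) : A[X][X])))
      rw [h2, aeval_C, map_mul, map_mul] at h5
      obtain ⟨j, hj⟩ := H _ (loc_locS h3) h4 (h5.left (h4 _) (h4 _))
        (by simpa [h2] using map_mem_locS (r := r) (p := p) (algebraMap A[X][X] L X))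
      exact ⟨sp ((c j).κ.codRestrict _ hj) ≫ (c j).j, (sp_comp_assoc _ _ _).trans (c j).gen⟩
  refine ⟨Ψ, h4, fun T _ θ ρ e1 e2 e3 => comp_eq (c i).inj ((c i).gen.trans h5.symm)
    (ext_loc (Submonoid.powers (C (C t) : A[X][X])) fun p => ?_)⟩
  have h6 : ∀ y, Ext (c i).κ θ (r (algebraMap A[X][X] L (C y))) (ρ (algebraMap A[X][X] L (C y))) :=
    fun y => by rw [h2, e1, aeval_C, ← (c i).comm]; exact .of _
  induction p using Polynomial.induction_on' with
  | add p q hp hq => simpa only [map_add] using hp.add hq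
  | monomial n y =>
    have : Ext (c i).κ θ (r (algebraMap A[X][X] L X)) _ := ⟨a, b, e2, by rwa [h2, aeval_X], e3⟩
    simpa only [← C_mul_X_pow_eq_monomial, map_mul, map_pow] using (h6 y).mul (this.pow n)

theorem exists_param [IsProper q] [SmoothOfRelativeDimension 1 q] (hq : Fibres k q)
    (hA : (algebraMap k A).IsStandardSmooth) (x : A →ₐ[k] k) (R : Type) [CommRing R] [IsDomain R]
    [IsLocalRing R] [Algebra A R] [IsLocalization.AtPrime R (kerPt x)] {s₀ : Spec (.of A) ⟶ Y}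
    (h1 : s₀ ≫ q = sp constantCoeff) {v : Spec (.of (DualNumber k)) ⟶ Y}
    (h2 : v ≫ q = sp (eval₂RingHom ((inlR k).comp x) DualNumber.eps))
    (h3 : epsPoint k ≫ v = sp (x : A →+* k) ≫ s₀) :
    ∃ (t : A) (Φ : Spec (.of (Localization.Away t)[X]) ⟶ Y) (e : Localization.Away t →+* k),
      Φ ≫ q = sp (mapRingHom (algebraMap A _)) ∧ sp constantCoeff ≫ Φ = sp (algebraMap A _) ≫ s₀ ∧
        sp (eval₂RingHom ((inlR k).comp e) DualNumber.eps) ≫ Φ = v := by
  have := SmoothOfRelativeDimension.smooth 1 q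
  have := isSeparated_of q
  have := RingHom.smooth_algebraMap.1 hA.smooth
  have : Algebra.FiniteType k A[X] := .trans (S := A) inferInstance inferInstance
  have := hq.isIntegral
  have : CompactSpace Y := QuasiCompact.compactSpace_of_compactSpace q
  obtain ⟨φ, hφ⟩ := sp_surj (gen Y ≫ q)
  let := φ.toAlgebra
  choose c hc using exists_chart1 q isGen_gen hφ.symm
  obtain ⟨I, hI⟩ := isCompact_univ.elim_finite_subcover (fun y => Set.range (c y).j)
    (fun y => (c y).j.isOpenEmbedding.isOpen_range) fun y _ => Set.mem_iUnion.2 ⟨y, hc y⟩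
  have hcov : ∀ y, ∃ i : I, y ∈ Set.range (c i).j := fun y => by
    obtain ⟨i, hi, h⟩ := Set.mem_iUnion₂.1 (hI (Set.mem_univ y))
    exact ⟨⟨i, hi⟩, h⟩
  obtain ⟨d, hd⟩ := (c (genericPoint Y)).exists_d
  let 𝒜 := mkFam (fun i : I => c i) hcov hq hφ.symm d ⟨_, hd.trans_ne one_ne_zero⟩
  have hT : ∀ τ : A[X] →ₐ[k] k, Nonempty (Triv1 𝒜 (τ : A[X] →+* k)) := fun τ =>
    (mkFam_fib _ hcov hq hφ.symm d _ τ).elim (exists_triv1 (𝒜 := 𝒜)
    (fun i (p : Ideal (c i).A) (_ : p.IsMaximal) => by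
      let := ((algebraMap A[X] (c i).A).comp (algebraMap k A[X])).toAlgebra
      have : IsScalarTower k A[X] (c i).A := .of_algebraMap_eq' rfl
      have := RingHom.smooth_algebraMap.1 (smooth_of_chart (c i).j (c i).base)
      have : Algebra.Smooth A A[X] := {}
      have := Algebra.Smooth.comp k A A[X]
      have := Algebra.Smooth.comp k A[X] (c i).A
      exact ufd_smooth (k := k) p) τ)
  obtain ⟨n, z, hz, hz'⟩ := hA.exists_etale_mvPolynomial
  obtain ⟨i, hi⟩ := hcov ((sp (algebraMap A R) ≫ s₀) (closedPoint R))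
  obtain ⟨s, hs⟩ := exists_factor _ (c i).j hi
  have h4 : ∀ {T : Type} [CommRing T] {θ : (c i).A →+* T} {ρ : A[X] →+* T},
      (sp θ ≫ (c i).j) ≫ q = sp ρ → ∀ y, θ (algebraMap A[X] _ y) = ρ y := fun {_ _ θ _} h =>
    DFunLike.congr_fun (sp_inj (φ := θ.comp _) (by rw [← h, Category.assoc, (c i).base, sp_comp]))
  have h5 := h4 (hs ▸ (Category.assoc _ _ _).trans ((congrArg _ h1).trans (sp_comp _ _)))
  obtain ⟨h, w, e1, e2, e3, a, b, e4, e5⟩ : ∃ h w, x h ≠ 0 ∧ Transcendental A[X] w ∧ (∀ O, Loc O →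
      (∀ c, algebraMap A[X] _ c ∈ O) → Un O (algebraMap A[X] _ (C h)) → w ∈ O → ∃ j : I, ∀ a,
      (c j).κ a ∈ O) ∧ ∃ a b, IsUnit (s b) ∧ w * (c i).κ b = (c i).κ a :=
    exists_w (x := x) (i := i) hT (lindel ⟨z, DFunLike.congr_fun hz⟩ hz' x R) s fun y =>
      (h5 y).trans (congrArg _ (coeff_zero_eq_eval_zero y))
  have h6 : epsPoint k ≫ v = sp ((resAt R x).comp s) ≫ (c i).j := by
    rw [← sp_comp_assoc, hs, sp_comp_assoc, h3]
    exact congrArg (sp · ≫ _) (RingHom.ext fun a => (resAt_map a).symm)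
  obtain ⟨θ, hθ⟩ := exists_factor v (c i).j (by
    rw [← eps_closedPoint, ← Scheme.Hom.comp_apply, h6]; exact ⟨_, rfl⟩)
  have h7 : ∀ a, (θ a).fst = resAt R x (s a) := DFunLike.congr_fun (sp_cancel (c i).j
    (ρ := (fstR k).comp θ) (ρ' := (resAt R x).comp s) (by rw [← h6, ← hθ]; exact (sp_comp_assoc _ _ _).symm))
  obtain ⟨u, hu⟩ := e4.exists_right_inv
  obtain ⟨⟨m, m', hm⟩, h8⟩ := IsLocalization.surj (kerPt x).primeCompl (s a * u)
  have ht : x (h * m') ≠ 0 := by rw [map_mul]; exact mul_ne_zero e1 hm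
  have h0 : h * m' ≠ 0 := fun h => ht (by rw [h, map_zero])
  let A' := Localization.Away (h * m')
  let l : A' →+* R := IsLocalization.Away.lift (h * m') (isUnit_of_resAt (x := x) (by rwa [resAt_map]))
  have hl : ∀ y, l (algebraMap A A' y) = algebraMap A R y := IsLocalization.Away.lift_eq _ _
  obtain ⟨w₀, h9⟩ : ∃ w₀, l w₀ * s b = s a := by
    obtain ⟨y, hy⟩ := (IsLocalization.Away.algebraMap_isUnit (S := A') (h * m')).exists_right_inv
    have := congrArg l hy
    rw [map_mul, hl, map_mul, map_one] at this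
    refine ⟨algebraMap A A' (m * h) * y, ?_⟩
    rw [map_mul, hl, map_mul, ← show _ = algebraMap A R m from h8]
    linear_combination s a * u * s b * this + s a * hu
  have h10 : IsUnit (θ b) := isUnit_iff_isUnit_fst.2 (h7 b ▸ e4.map _)
  obtain ⟨ω, hω⟩ := h10.dvd (a := θ a)
  let L := Localization.Away (C (C (h * m')) : A[X][X])
  obtain ⟨Ψ, h11, h12⟩ := exists_psi (fun i : I => (c i).toChart) hφ.symm e2 (dvd_mul_right h m') h0
    e3 e5 L
  let μ : L →+* A'[X] := IsLocalization.Away.lift (C (C (h * m')) : A[X][X])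
    (g := eval₂RingHom (mapRingHom (algebraMap A A')) (C w₀ + C (algebraMap k A' ω.snd) * X))
    (by simpa using (IsLocalization.Away.algebraMap_isUnit (S := A') (h * m')).map C)
  have h13 : ∀ y, μ (algebraMap A[X][X] L (C y)) = y.map (algebraMap A A') := fun y =>
    (IsLocalization.Away.lift_eq _ _ _).trans (eval₂_C _ _)
  have h14 : μ (algebraMap A[X][X] L X) = C w₀ + C (algebraMap k A' ω.snd) * X :=
    (IsLocalization.Away.lift_eq _ _ _).trans (eval₂_X _ _)
  refine ⟨h * m', sp μ ≫ Ψ, (resAt R x).comp l, ?_, ?_, ?_⟩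
  · rw [Category.assoc, h11, sp_comp]
    exact congrArg sp (RingHom.ext h13)
  · refine ext_sp (r := (algebraMap R (FractionRing R)).comp l)
      ((IsFractionRing.injective _ _).comp (inj_loc (Submonoid.powers (h * m')) fun y hy =>
        IsLocalization.injective R (kerPt x).primeCompl_le_nonZeroDivisors (by rwa [← hl, map_zero]))) ?_
    rw [← sp_comp_assoc l, ← sp_comp_assoc l, sp_comp_assoc _ l, sp_comp_assoc _ l, sp_comp_assoc μ,
      ← h12 R s _ (fun y => by simp [h13, h5, hl]) e4 (by simp [h14, h9]), hs]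
    exact congrArg (_ ≫ sp · ≫ _) (RingHom.ext hl).symm
  · rw [sp_comp_assoc, ← hθ]
    refine (h12 _ θ _ (fun y => ?_) h10 ?_).symm
    · rw [h4 (hθ ▸ h2), RingHom.comp_apply, h13, coe_eval₂RingHom, eval₂_map]
      exact congrArg (eval₂ · _ y) (RingHom.ext fun a => by simp [hl, resAt_map])
    · have h15 : resAt R x (l w₀) = ω.fst := mul_right_cancel₀ (e4.map (resAt R x)).ne_zero (by
        rw [← map_mul, h9, ← h7, ← h7, hω, fst_mul, mul_comm])
      have h16 : resAt R x (l (algebraMap k A' ω.snd)) = ω.snd := by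
        rw [IsScalarTower.algebraMap_apply k A A', hl, resAt_map, x.commutes]; rfl
      rw [hω, mul_comm, RingHom.comp_apply, h14]
      congr 1
      ext <;> simp [h15, h16, algebraMap_eq_inl]

theorem elliptic_of_relDimOne {X S : Scheme.{0}} (f : S ⟶ Spec (.of k)) (π : X ⟶ S)
    (hX : SmoothVariety (π ≫ f)) [IsProper π] [SmoothOfRelativeDimension 1 π] (eS : Elliptic f)
    (eF : ∀ s : Spec (.of k) ⟶ S, s ≫ f = 𝟙 _ → Elliptic (pullback.snd π s)) :
    Elliptic (π ≫ f) := by
  have := hX.separated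
  have := hX.integral
  have := hX.smooth
  have := isSeparated_of (π ≫ f)
  refine elliptic_of_germs hX fun v hv => ?_
  obtain ⟨U, hU, hL⟩ := exists_line eS (v ≫ π) (by rwa [Category.assoc])
  obtain ⟨A, _, j, _, φ, h1, h2, h3, h4⟩ := exists_piece (π ≫ f) (v (closedPoint _)) (π ⁻¹ᵁ U) hU
    RingHom.IsStandardSmooth fun A _ j _ φ h => (smooth_of_chart j h).locally_isStandardSmooth
  obtain ⟨θ, rfl⟩ := exists_factor v j h1
  have := θ.domain_nontrivial
  have := isDomain_chart j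
  let := φ.toAlgebra
  have h5 : θ.comp φ = algebraMap k _ := sp_inj (by rw [← sp_comp, ← h3, ← Category.assoc, hv]; rfl)
  let x : A →ₐ[k] k := ⟨(fstR k).comp θ, fun a => congrArg fst (DFunLike.congr_fun h5 a)⟩
  have h6 : epsPoint k ≫ sp θ = sp (x : A →+* k) := sp_comp _ _
  obtain ⟨σ, e1, e2, e3⟩ := hL A (j ≫ π) x (by rintro _ ⟨p, rfl⟩; exact h2 ⟨p, rfl⟩)
    (by rw [← h6]; simp)
  have H := IsPullback.of_hasPullback π σ
  have : SmoothOfRelativeDimension 1 (pullback.snd π σ) :=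
    (smoothOfRelativeDimension_isStableUnderBaseChange 1).of_isPullback H ‹_›
  obtain ⟨t, Φ, e, h7, h8, h9⟩ := exists_param (q := pullback.snd π σ) (fun τ => by
      have H' := IsPullback.of_hasPullback π (sp (τ : A[X] →+* k) ≫ σ)
      refine ⟨_, H.lift _ (_ ≫ _) (H'.w.trans (Category.assoc _ _ _).symm), _,
        .of_right ?_ (H.lift_snd _ _ _) H, eF _ ?_⟩
      · rwa [H.lift_fst]
      · rw [Category.assoc, e1, Category.assoc, h3, sp_comp, sp_comp, ← sp_id]
        exact congrArg sp (RingHom.ext τ.commutes))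
    h4 x (Localization.AtPrime (kerPt x)) (H.lift_snd j _ e2.symm)
    (H.lift_snd (sp θ ≫ j) _ e3.symm) (H.hom_ext
      (by simp [← h6]) (by
        rw [Category.assoc (epsPoint k), Category.assoc (sp (x : A →+* k)), H.lift_snd, H.lift_snd, sp_comp]
        refine (sp_comp _ _).trans (congrArg sp ?_)
        ext <;> simp [algebraMap_eq_inl]))
  refine ⟨_, _, sp (algebraMap A _) ≫ j, inferInstance, Φ ≫ pullback.fst π σ, e, ?_, ?_, ?_⟩
  · rw [Category.assoc, H.w_assoc, reassoc_of% h7, e1, Category.assoc, Category.assoc, sp_comp_assoc,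
      sp_comp_assoc, mapRingHom_comp_C]
  · rw [reassoc_of% h8, H.lift_fst]
  · rw [reassoc_of% h9, H.lift_fst]

end Pool.Agent.MP_e8e0b6_ag
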